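import Mathlib

set_option autoImplicit false

namespace W3283q

open MeasureTheory Filter Topology

/-- A point of `[a, b]` outside a set of measure smaller than `b - a`. -/
theorem QJump_pick (e : ℝ → ℝ) (ε M : ℝ) (U a b : ℝ) (ha : U ≤ a) (hb : b ≤ U + 1) (hab : a < b)
    (hM : M < b - a)
    (h : volume {u ∈ Set.Icc U (U + 1) | ε * U < |u * e u|} ≤ ENNReal.ofReal M) (hU : 0 < U) :
    ∃ u ∈ Set.Icc a b, |e u| ≤ ε := by
  by_contra hcon
  push Not at hcon
  have hsub : Set.Icc a b ⊆ {u ∈ Set.Icc U (U + 1) | ε * U < |u * e u|} := by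
    intro u hu
    refine ⟨⟨ha.trans hu.1, hu.2.trans hb⟩, ?_⟩
    have h1 := hcon u hu
    have h2 : U ≤ u := ha.trans hu.1
    rw [abs_mul, abs_of_pos (hU.trans_le h2)]
    rcases le_or_gt 0 ε with h3 | h3
    · nlinarith [abs_nonneg (e u)]
    · have h4 : ε * U < 0 := mul_neg_of_neg_of_pos h3 hU
      have h5 : 0 ≤ u * |e u| := mul_nonneg (hU.le.trans h2) (abs_nonneg _)
      linarith
  have h1 := (measure_mono hsub).trans h
  rw [Real.volume_Icc] at h1
  have h2 := (ENNReal.ofReal_le_ofReal_iff' (p := b - a) (q := M)).1 h1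
  rcases h2 with h2 | h2
  · linarith
  · linarith

/-- Sudden jumps: a function which does not tend to zero but is small off small sets. -/
theorem jumps (e : ℝ → ℝ) (c0 K : ℝ) (hc0 : 0 < c0) (hK : 0 < K)
    (hconc : ∀ U W : ℝ, 1 ≤ U → 0 ≤ W →
      volume {u ∈ Set.Icc U (U + 1) | W < |u * e u|} ≤ ENNReal.ofReal (K * Real.exp (-(c0 * Real.sqrt W))))
    (hn : ¬ Tendsto e atTop (𝓝 0)) :
    ∃ ε c : ℝ, 0 < ε ∧ 0 < c ∧
      (∀ X : ℝ, ∃ u a : ℝ, X ≤ u ∧ 0 < a ∧ a ≤ Real.exp (-(c * Real.sqrt u)) ∧ ε ≤ e (u + a) - e u) ∧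
      (∀ X : ℝ, ∃ u a : ℝ, X ≤ u ∧ 0 < a ∧ a ≤ Real.exp (-(c * Real.sqrt u)) ∧
        e (u + a) - e u ≤ -ε) := by
  -- arbitrarily large points with `|e| ≥ 2 ε`
  obtain ⟨ε, hε, hbig⟩ : ∃ ε : ℝ, 0 < ε ∧ ∀ X : ℝ, ∃ u : ℝ, X ≤ u ∧ 2 * ε ≤ |e u| := by
    by_contra hcon
    push Not at hcon
    apply hn
    rw [Metric.tendsto_atTop]
    intro δ hδ
    obtain ⟨X, hX⟩ := hcon (δ / 2) (by linarith)
    refine ⟨X, fun u hu => ?_⟩
    have h1 := hX u hu
    rw [Real.dist_eq, sub_zero]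
    linarith
  -- the constant
  obtain ⟨c, hc, X0, hX0⟩ : ∃ c : ℝ, 0 < c ∧ ∃ X0 : ℝ, ∀ u : ℝ, X0 ≤ u → 2 ≤ u ∧
      K * Real.exp (-(c0 * Real.sqrt (ε * (u - 1)))) < Real.exp (-(c * Real.sqrt u)) / 2 ∧
      K * Real.exp (-(c0 * Real.sqrt (ε * u))) < Real.exp (-(c * Real.sqrt u)) / 2 := by
    obtain ⟨c, hcd⟩ : ∃ c : ℝ, c = c0 * Real.sqrt (ε / 2) / 2 := ⟨_, rfl⟩
    have hs : 0 < Real.sqrt (ε / 2) := Real.sqrt_pos.2 (by positivity)
    have hc : 0 < c := by rw [hcd]; positivity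
    refine ⟨c, hc, ?_⟩
    have hlim : Tendsto (fun u : ℝ => 2 * K * Real.exp (-(c * Real.sqrt u))) atTop (𝓝 (2 * K * 0)) := by
      refine Tendsto.const_mul _ ?_
      refine Real.tendsto_exp_neg_atTop_nhds_zero.comp ?_
      exact (Real.tendsto_sqrt_atTop).const_mul_atTop hc
    rw [mul_zero] at hlim
    have h1 := (hlim.eventually_lt_const (u := 1) (by norm_num)).and (eventually_ge_atTop (2 : ℝ))
    obtain ⟨X0, hX0⟩ := eventually_atTop.1 h1
    refine ⟨X0, fun u hu => ?_⟩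
    obtain ⟨h2, h3⟩ := hX0 u hu
    have key : ∀ v : ℝ, u / 2 ≤ v →
        K * Real.exp (-(c0 * Real.sqrt (ε * v))) < Real.exp (-(c * Real.sqrt u)) / 2 := by
      intro v hv
      have h4 : Real.sqrt (ε / 2) * Real.sqrt u ≤ Real.sqrt (ε * v) := by
        rw [← Real.sqrt_mul (by positivity)]
        apply Real.sqrt_le_sqrt
        nlinarith
      have h5 : c0 * (Real.sqrt (ε / 2) * Real.sqrt u) ≤ c0 * Real.sqrt (ε * v) :=
        mul_le_mul_of_nonneg_left h4 hc0.le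
      have h6 : c0 * (Real.sqrt (ε / 2) * Real.sqrt u) = c * Real.sqrt u + c * Real.sqrt u := by
        rw [hcd]; ring
      have h7 : Real.exp (-(c0 * Real.sqrt (ε * v))) ≤
          Real.exp (-(c * Real.sqrt u)) * Real.exp (-(c * Real.sqrt u)) := by
        rw [← Real.exp_add]
        apply Real.exp_le_exp.2
        linarith
      have h8 := Real.exp_pos (-(c * Real.sqrt u))
      have h9 : K * Real.exp (-(c0 * Real.sqrt (ε * v))) ≤
          K * (Real.exp (-(c * Real.sqrt u)) * Real.exp (-(c * Real.sqrt u))) :=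
        mul_le_mul_of_nonneg_left h7 hK.le
      nlinarith
    exact ⟨h3, key (u - 1) (by linarith), key u (by linarith)⟩
  -- the two neighbours
  have main : ∀ X : ℝ, ∃ u1 u2 u3 : ℝ, X ≤ u1 ∧ u1 < u2 ∧ u2 < u3 ∧
      u2 - u1 ≤ Real.exp (-(c * Real.sqrt u1)) ∧ u3 - u2 ≤ Real.exp (-(c * Real.sqrt u2)) ∧
      |e u1| ≤ ε ∧ |e u3| ≤ ε ∧ 2 * ε ≤ |e u2| := by
    intro X
    obtain ⟨u2, hu2, h2⟩ := hbig (max (X + 1) (max X0 2 + 1))
    have hX : X + 1 ≤ u2 := (le_max_left _ _).trans hu2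
    have hm : max X0 2 + 1 ≤ u2 := (le_max_right _ _).trans hu2
    have hX0' : X0 ≤ u2 := by linarith [le_max_left X0 2]
    have h22 : 3 ≤ u2 := by linarith [le_max_right X0 2]
    obtain ⟨-, h3, h4⟩ := hX0 u2 hX0'
    set η := Real.exp (-(c * Real.sqrt u2)) with hη
    have hη0 : 0 < η := Real.exp_pos _
    have hη1 : η ≤ 1 := by
      rw [hη, Real.exp_le_one_iff]
      have := mul_nonneg hc.le (Real.sqrt_nonneg u2)
      linarith
    obtain ⟨u1, hu1, he1⟩ := QJump_pick e ε (K * Real.exp (-(c0 * Real.sqrt (ε * (u2 - 1)))))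
      (u2 - 1) (u2 - η) (u2 - η / 4) (by linarith) (by linarith) (by linarith) (by linarith)
      (hconc (u2 - 1) (ε * (u2 - 1)) (by linarith) (mul_nonneg hε.le (by linarith))) (by linarith)
    obtain ⟨u3, hu3, he3⟩ := QJump_pick e ε (K * Real.exp (-(c0 * Real.sqrt (ε * u2))))
      u2 (u2 + η / 4) (u2 + η) (by linarith) (by linarith) (by linarith) (by linarith)
      (hconc u2 (ε * u2) (by linarith) (mul_nonneg hε.le (by linarith))) (by linarith)
    refine ⟨u1, u2, u3, ?_, ?_, ?_, ?_, ?_, he1, he3, h2⟩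
    · linarith [hu1.1]
    · linarith [hu1.2]
    · linarith [hu3.1]
    · have h5 : η ≤ Real.exp (-(c * Real.sqrt u1)) := by
        apply Real.exp_le_exp.2
        have h6 : Real.sqrt u1 ≤ Real.sqrt u2 := Real.sqrt_le_sqrt (by linarith [hu1.2])
        have h7 := mul_le_mul_of_nonneg_left h6 hc.le
        linarith
      linarith [hu1.1]
    · linarith [hu3.2]
  refine ⟨ε, c, hε, hc, fun X => ?_, fun X => ?_⟩
  · obtain ⟨u1, u2, u3, hX, h12, h23, ha, hb, he1, he3, he2⟩ := main X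
    have h1 := abs_le.1 he1
    have h3 := abs_le.1 he3
    rcases abs_cases (e u2) with ⟨h4, -⟩ | ⟨h4, -⟩
    · refine ⟨u1, u2 - u1, hX, by linarith, ha, ?_⟩
      rw [add_sub_cancel]
      linarith
    · refine ⟨u2, u3 - u2, by linarith, by linarith, hb, ?_⟩
      rw [add_sub_cancel]
      linarith
  · obtain ⟨u1, u2, u3, hX, h12, h23, ha, hb, he1, he3, he2⟩ := main X
    have h1 := abs_le.1 he1
    have h3 := abs_le.1 he3
    rcases abs_cases (e u2) with ⟨h4, -⟩ | ⟨h4, -⟩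
    · refine ⟨u2, u3 - u2, by linarith, by linarith, hb, ?_⟩
      rw [add_sub_cancel]
      linarith
    · refine ⟨u1, u2 - u1, hX, by linarith, ha, ?_⟩
      rw [add_sub_cancel]
      linarith

end W3283q
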