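import Pool.Agent.W_3283e1_lw.Cnt
import Pool.Agent.W_3283e1_lw.Om

set_option autoImplicit false

namespace W3283q

open W3283l MeasureTheory

/-- Local count of the zeros: `Σ m/(1+(t-γ)²) ≤ C log (2+t)` for `t ≥ 0`. -/
def LC {ι : Type} (γ m : ι → ℝ) : Prop :=
  ∃ C : ℝ, 0 ≤ C ∧ ∀ t : ℝ, 0 ≤ t → ∀ s : Finset ι,
    ∑ i ∈ s, m i / (1 + (t - γ i) ^ 2) ≤ C * Real.log (2 + t)

/-- The coefficients of the difference of the means over `[u, u+h]` and `[u, u+2h]`. -/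
noncomputable def bq {ι : Type} (γ m : ι → ℝ) (h : ℝ) (i : ι) : ℝ :=
  4 * m i * (Real.sin (γ i * h / 2)) ^ 2 / (h * (γ i) ^ 2)

/-- The difference of the two means is `-T2 h (u+h)`. -/
noncomputable def T2 {ι : Type} (γ m : ι → ℝ) (h v : ℝ) : ℝ :=
  ∑' i, bq γ m h i * Real.cos (γ i * v)

/-- The mean of `A + om` over `(u, u+h]`. -/
noncomputable def Mn (A : ℝ → ℝ) (h u : ℝ) : ℝ :=
  h⁻¹ * ∫ t in Set.Ioc u (u + h), (A t + om t)

end W3283q
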