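import Pool.Agent.W_3283e1_lw.Exp
import Pool.Agent.W_3283e1_h19.QDef

set_option autoImplicit false

namespace W3283q

open Complex W3283e1 W3283f W3283l MeasureTheory Filter Topology

theorem QLc_norm (x : ℝ) : ((1 : ℂ) + (x : ℂ) * I) ≠ 0 := by
  intro h
  have := congrArg Complex.re h
  simp at this

theorem QLc_inv (x : ℝ) : ((1 : ℂ) / ((1 : ℂ) + (x : ℂ) * I)).re = 1 / (1 + x ^ 2) := by
  rw [one_div, Complex.inv_re]
  have h1 : Complex.normSq ((1 : ℂ) + (x : ℂ) * I) = 1 + x ^ 2 := by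
    rw [Complex.normSq_apply]
    simp
    ring
  rw [h1]
  simp

/-- The real part of a term of the series of the digamma function. -/
theorem QLc_term (t : ℝ) (n : ℕ) :
    ((1 + t * I : ℂ) * (1 / (((n : ℂ) + 1) * ((n : ℂ) + 1 + (1 + t * I))))).re =
      1 / ((n : ℝ) + 1) - ((n : ℝ) + 2) / (((n : ℝ) + 2) ^ 2 + t ^ 2) := by
  have hn : ((n : ℂ) + 1) ≠ 0 := by exact_mod_cast n.succ_ne_zero
  have hs : ((n : ℂ) + 1 + (1 + t * I)) ≠ 0 := by
    intro h
    have h1 := congrArg Complex.re h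
    simp at h1
    have : (0 : ℝ) ≤ n := Nat.cast_nonneg n
    linarith
  have h1 : (1 + t * I : ℂ) * (1 / (((n : ℂ) + 1) * ((n : ℂ) + 1 + (1 + t * I)))) =
      ((1 / ((n : ℝ) + 1) : ℝ) : ℂ) - ((n : ℂ) + 1 + (1 + t * I))⁻¹ := by
    push_cast
    field_simp
    ring
  rw [h1, Complex.sub_re, Complex.ofReal_re, Complex.inv_re]
  have h2 : Complex.normSq ((n : ℂ) + 1 + (1 + t * I)) = ((n : ℝ) + 2) ^ 2 + t ^ 2 := by
    rw [Complex.normSq_apply]
    simp
    ring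
  rw [h2]
  congr 2
  simp
  ring

theorem QLc_le1 (t : ℝ) (n : ℕ) :
    1 / ((n : ℝ) + 1) - ((n : ℝ) + 2) / (((n : ℝ) + 2) ^ 2 + t ^ 2) ≤ 1 / ((n : ℝ) + 1) := by
  have : 0 ≤ ((n : ℝ) + 2) / (((n : ℝ) + 2) ^ 2 + t ^ 2) := by positivity
  linarith

theorem QLc_le2 (t : ℝ) (ht : 0 ≤ t) (N n : ℕ) (hN : t ≤ N) (hN1 : 1 ≤ N) (hn : N ≤ n) :
    1 / ((n : ℝ) + 1) - ((n : ℝ) + 2) / (((n : ℝ) + 2) ^ 2 + t ^ 2) ≤
      (1 + t ^ 2 / N) * (1 / (n : ℝ) - 1 / ((n : ℝ) + 1)) := by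
  have hN0 : (0 : ℝ) < N := by exact_mod_cast hN1
  have hnN : (N : ℝ) ≤ n := by exact_mod_cast hn
  have hn0 : (0 : ℝ) < n := by linarith
  have e1 : 1 / ((n : ℝ) + 1) - ((n : ℝ) + 2) / (((n : ℝ) + 2) ^ 2 + t ^ 2) =
      (((n : ℝ) + 2) + t ^ 2) / (((n : ℝ) + 1) * (((n : ℝ) + 2) ^ 2 + t ^ 2)) := by
    rw [div_sub_div _ _ (by positivity) (by positivity)]
    congr 1
    ring
  have e2 : (1 + t ^ 2 / N) * (1 / (n : ℝ) - 1 / ((n : ℝ) + 1)) =
      (1 + t ^ 2 / N) / ((n : ℝ) * ((n : ℝ) + 1)) := by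
    field_simp
    ring
  rw [e1, e2, div_le_div_iff₀ (by positivity) (by positivity)]
  have h1 : ((n : ℝ) + 2 + t ^ 2) * (n : ℝ) ≤ (1 + t ^ 2 / N) * (((n : ℝ) + 2) ^ 2 + t ^ 2) := by
    have h2 : t ^ 2 * (n : ℝ) ≤ t ^ 2 / N * ((n : ℝ) + 2) ^ 2 := by
      rw [div_mul_eq_mul_div, le_div_iff₀ hN0]
      have h3 : (n : ℝ) * N ≤ ((n : ℝ) + 2) ^ 2 := by nlinarith
      have h4 := mul_le_mul_of_nonneg_left h3 (sq_nonneg t)
      linarith
    have h5 : 0 ≤ t ^ 2 / N * t ^ 2 := by positivity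
    nlinarith [sq_nonneg t]
  have h6 := mul_le_mul_of_nonneg_right h1 (show (0 : ℝ) ≤ (n : ℝ) + 1 by positivity)
  nlinarith [h6]

/-- `Re ψ(1 + s) ≤ log (2 + t) + C` for `s = 1 + i t`, `t ≥ 0`.  By `W3283l.dig_int` and `W3283l.Dig_terms`
`ψ(1+s) + γ = s Σ 1/((n+1)(n+1+s))`, with real parts `1/(n+1) - (n+2)/((n+2)²+t²)`, at most `1/(n+1)`, and at
most `1/(n+1)² + t²/(n+1)³`; split at `n + 1 ≤ N`, `N = ⌈t⌉ + 1` (harmonic numbers,
`Σ_{n+1>N} 1/(n+1)² ≤ 1/N`). -/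
theorem dig_re_le : ∃ C : ℝ, 0 ≤ C ∧ ∀ t : ℝ, 0 ≤ t →
    (Complex.digamma (1 + (1 + t * I))).re ≤ Real.log (2 + t) + C := by
  refine ⟨3, by norm_num, fun t ht => ?_⟩
  have hs : (0 : ℝ) < (1 + t * I : ℂ).re := by simp
  have h1 := (Dig_terms (1 + t * I) hs).mul_left (1 + t * I : ℂ)
  rw [dig_int (1 + t * I) hs] at h1
  have h2 := Complex.hasSum_re h1
  simp only [QLc_term] at h2
  rw [Complex.add_re, Complex.ofReal_re] at h2
  have hlim := h2.tendsto_sum_nat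
  obtain ⟨N, hNdef⟩ : ∃ N : ℕ, N = ⌈t⌉₊ + 1 := ⟨_, rfl⟩
  have hN1 : 1 ≤ N := by omega
  have hN0 : (0 : ℝ) < N := by exact_mod_cast hN1
  have htN : t ≤ N := by
    rw [hNdef]
    push_cast
    have := Nat.le_ceil t
    linarith
  have hNt : (N : ℝ) ≤ t + 2 := by
    rw [hNdef]
    push_cast
    have := Nat.ceil_lt_add_one ht
    linarith
  have hhead : ∑ n ∈ Finset.range N, (1 / ((n : ℝ) + 1) -
      ((n : ℝ) + 2) / (((n : ℝ) + 2) ^ 2 + t ^ 2)) ≤ 1 + Real.log N := by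
    refine (Finset.sum_le_sum fun n _ => QLc_le1 t n).trans ?_
    have h3 := harmonic_le_one_add_log N
    unfold harmonic at h3
    push_cast at h3
    refine le_trans (le_of_eq ?_) h3
    exact Finset.sum_congr rfl fun n _ => one_div _
  have hpart : ∀ K : ℕ, N ≤ K → ∑ n ∈ Finset.range K, (1 / ((n : ℝ) + 1) -
      ((n : ℝ) + 2) / (((n : ℝ) + 2) ^ 2 + t ^ 2)) ≤
      1 + Real.log N + (1 + t ^ 2 / N) * (1 / (N : ℝ) - 1 / (K : ℝ)) := by
    intro K hK
    induction K, hK using Nat.le_induction with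
    | base =>
      rw [sub_self, mul_zero, add_zero]
      exact hhead
    | succ K hK ih =>
      rw [Finset.sum_range_succ]
      have h3 := QLc_le2 t ht N K htN hN1 hK
      push_cast
      linarith
  have hbd : ∀ K : ℕ, N ≤ K → ∑ n ∈ Finset.range K, (1 / ((n : ℝ) + 1) -
      ((n : ℝ) + 2) / (((n : ℝ) + 2) ^ 2 + t ^ 2)) ≤ Real.log (2 + t) + 3 := by
    intro K hK
    have h3 := hpart K hK
    have h4 : Real.log N ≤ Real.log (2 + t) := Real.log_le_log hN0 (by linarith)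
    have h5 : (1 + t ^ 2 / N) * (1 / (N : ℝ) - 1 / (K : ℝ)) ≤ 2 := by
      have h6 : 1 / (N : ℝ) - 1 / (K : ℝ) ≤ 1 / N := by
        have : (0 : ℝ) ≤ 1 / (K : ℝ) := by positivity
        linarith
      refine (mul_le_mul_of_nonneg_left h6 (by positivity)).trans ?_
      have h7 : (1 + t ^ 2 / N) * (1 / (N : ℝ)) = 1 / N + t ^ 2 / (N : ℝ) ^ 2 := by
        field_simp
      have h8 : 1 / (N : ℝ) ≤ 1 := by
        rw [div_le_one hN0]
        exact_mod_cast hN1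
      have h9 : t ^ 2 / (N : ℝ) ^ 2 ≤ 1 := by
        rw [div_le_one (by positivity)]
        exact pow_le_pow_left₀ ht htN 2
      linarith
    linarith
  have hfin : (Complex.digamma (1 + (1 + t * I))).re + Real.eulerMascheroniConstant ≤
      Real.log (2 + t) + 3 :=
    le_of_tendsto hlim (Filter.eventually_atTop.2 ⟨N, fun K hK => hbd K hK⟩)
  have hg : 0 < Real.eulerMascheroniConstant := by
    have := Real.one_half_lt_eulerMascheroniConstant
    linarith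
  linarith

/-- The real part of a term of the sum over the zeros in `W3283l.log_id` at `s = 1 + i t`:
`2 s/(s²+γ²) = 1/(s-iγ) + 1/(s+iγ)`. -/
theorem term_re (m g t : ℝ) (hm : 0 ≤ m) :
    m / (1 + (t - g) ^ 2) ≤ (2 * (m : ℂ) * (1 + t * I) / ((1 + t * I) ^ 2 + (g : ℂ) ^ 2)).re := by
  have h1 : (2 * (m : ℂ) * (1 + t * I) / ((1 + t * I) ^ 2 + (g : ℂ) ^ 2)) =
      (m : ℂ) * (1 / (1 + ((t - g : ℝ) : ℂ) * I) + 1 / (1 + ((t + g : ℝ) : ℂ) * I)) := by
    have e1 := QLc_norm (t - g)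
    have e2 := QLc_norm (t + g)
    have e3 : ((1 : ℂ) + t * I) ^ 2 + (g : ℂ) ^ 2 =
        (1 + ((t - g : ℝ) : ℂ) * I) * (1 + ((t + g : ℝ) : ℂ) * I) := by
      push_cast
      linear_combination ((g : ℂ) ^ 2) * Complex.I_sq
    rw [e3, div_add_div _ _ e1 e2, ← mul_div_assoc]
    congr 1
    push_cast
    ring
  rw [h1, Complex.re_ofReal_mul, Complex.add_re, QLc_inv, QLc_inv]
  have h2 : (0 : ℝ) ≤ 1 / (1 + (t + g) ^ 2) := by positivity
  have h3 := mul_nonneg hm h2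
  rw [mul_add, mul_one_div]
  linarith

/-- The local count of the zeros: real parts in `W3283l.log_id` at `s = 1 + i t`; the terms are nonnegative
(`term_re`), `ES` is bounded on `Re s = 1` (as in the proof of `W3283l.zd_fam`), `dig_re_le`,
`Re (n0/(1+it)) ≥ 0`. -/
theorem lc_fam (n j : ℕ) (hj : j = 0 ∨ j = 1) (hn : Odd n) (hs : Squarefree n)
    (hRH : ∀ s : ℂ, 0 < s.re → LLF n j (1 + s) ≠ 0) : LC (gaF n j) (muF n j) := by
  obtain ⟨C, hC0, hC⟩ := dig_re_le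
  have hZ := zd_fam n j hj hn hs hRH
  have hDS := ds_mul (ds_cA (aL n j) (1 / 2) (by norm_num) (by norm_num) (aL_bd n j))
  have hm : ∀ i, 0 ≤ muF n j i := fun i => zero_le_one.trans (hZ.one i)
  set S1 : ℝ := ∑' i, |vL i * cA (aL n j) i| * Real.exp (-(1 * vL i)) with hS1
  have hS10 : 0 ≤ S1 := tsum_nonneg fun i => by positivity
  set B : ℝ := S1 + |Real.log (Real.pi * kF n j)| + C with hB
  have hB0 : 0 ≤ B := by positivity
  have hl2 : 0 < Real.log 2 := Real.log_pos one_lt_two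
  refine ⟨B / Real.log 2 + 1, by positivity, fun t ht S => ?_⟩
  have hre1 : (1 + t * I : ℂ).re = 1 := by simp
  obtain ⟨hsum, hid⟩ := log_id n j hj hn hs hRH (1 + t * I) (by rw [hre1]; norm_num)
  have hsumre : Summable fun i => (2 * (muF n j i : ℂ) * (1 + t * I) /
      ((1 + t * I) ^ 2 + (gaF n j i : ℂ) ^ 2)).re := (Complex.hasSum_re hsum.hasSum).summable
  have htsum : ∑' i, (2 * (muF n j i : ℂ) * (1 + t * I) /
      ((1 + t * I) ^ 2 + (gaF n j i : ℂ) ^ 2)).re =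
      (∑' i, 2 * (muF n j i : ℂ) * (1 + t * I) /
      ((1 + t * I) ^ 2 + (gaF n j i : ℂ) ^ 2)).re := (Complex.hasSum_re hsum.hasSum).tsum_eq
  have hpos : ∀ i, 0 ≤ (2 * (muF n j i : ℂ) * (1 + t * I) /
      ((1 + t * I) ^ 2 + (gaF n j i : ℂ) ^ 2)).re := fun i => by
    refine le_trans ?_ (term_re (muF n j i) (gaF n j i) t (hm i))
    have := hm i
    positivity
  have h1 : ∑ i ∈ S, muF n j i / (1 + (t - gaF n j i) ^ 2) ≤
      (∑' i, 2 * (muF n j i : ℂ) * (1 + t * I) /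
      ((1 + t * I) ^ 2 + (gaF n j i : ℂ) ^ 2)).re := by
    rw [← htsum]
    refine (Finset.sum_le_sum fun i _ => term_re (muF n j i) (gaF n j i) t (hm i)).trans ?_
    exact hsumre.sum_le_tsum S fun i _ => hpos i
  refine h1.trans ?_
  have hre := congrArg Complex.re hid
  have e1 : 0 ≤ ((analyticOrderNatAt (fF' n j) 0 : ℂ) / (1 + t * I)).re := by
    have h2 : ((analyticOrderNatAt (fF' n j) 0 : ℂ) / (1 + t * I)) =
        ((analyticOrderNatAt (fF' n j) 0 : ℝ) : ℂ) * (1 / (1 + (t : ℂ) * I)) := by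
      push_cast
      ring
    rw [h2, Complex.re_ofReal_mul, QLc_inv]
    positivity
  have hEb : |(ES (fun i => vL i * cA (aL n j) i) vL (1 + t * I)).re| ≤ S1 := by
    refine (Complex.abs_re_le_norm _).trans ?_
    unfold ES
    refine tsum_of_norm_bounded (hDS.sm 1 (by norm_num)).hasSum fun i => ?_
    rw [norm_mul, Ser_norm, Complex.norm_real, Real.norm_eq_abs, hre1]
  rw [Complex.add_re, Complex.add_re, Complex.sub_re, Complex.ofReal_re, Complex.neg_re] at hre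
  have hE := abs_le.1 hEb
  have hL2 := neg_abs_le (Real.log (Real.pi * kF n j))
  have hd := hC t ht
  have hlog : Real.log 2 ≤ Real.log (2 + t) := Real.log_le_log (by norm_num) (by linarith)
  have h3 : B ≤ B / Real.log 2 * Real.log (2 + t) := by
    calc B = B / Real.log 2 * Real.log 2 := by field_simp
      _ ≤ _ := mul_le_mul_of_nonneg_left hlog (by positivity)
  rw [add_mul, one_mul]
  linarith [hE.1, hE.2]

end W3283q
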