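import Pool.Agent.W_3283e1_h19.QDiff

set_option autoImplicit false

namespace W3283q

open W3283l MeasureTheory Filter Topology

variable {ι : Type} {γ m : ι → ℝ}

/-- Quadratic functions. -/
theorem QSup_quad (a a' b c : ℝ) (h : a < a') : ∃ C : ℝ, 0 ≤ C ∧ ∀ x : ℝ,
    a * x ^ 2 + b * x + c ≤ a' * x ^ 2 + C := by
  have h0 : 0 < a' - a := by linarith
  refine ⟨|c| + b ^ 2 / (4 * (a' - a)), by positivity, fun x => ?_⟩
  have h1 : (a' - a) * (x - b / (2 * (a' - a))) ^ 2 =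
      (a' - a) * x ^ 2 - b * x + b ^ 2 / (4 * (a' - a)) := by
    field_simp
    ring
  have h2 : 0 ≤ (a' - a) * (x - b / (2 * (a' - a))) ^ 2 := by positivity
  have h3 := le_abs_self c
  nlinarith

theorem QSup_arctan_le (x : ℝ) (hx : 0 ≤ x) : Real.arctan x ≤ x := by
  have h1 := Real.le_tan (Real.arctan_nonneg.2 hx) (Real.arctan_lt_pi_div_two x)
  rwa [Real.tan_arctan] at h1

/-- The arctan form of the asymptotic formula. -/
theorem QSup_arctan (hZ : ZD γ m) : ∃ C : ℝ, 0 ≤ C ∧ ∀ X : ℝ, 1 ≤ X → ∀ s : Finset ι,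
    ∑ i ∈ s, 2 * m i / γ i * (Real.arctan (X / γ i) - Real.arctan (1 / γ i)) ≤
      (Real.log X) ^ 2 / 2 + C * Real.log X := by
  obtain ⟨C0, hC0⟩ := hZ.asy
  have hC0n : 0 ≤ C0 := (abs_nonneg _).trans (hC0 1 le_rfl)
  refine ⟨C0, hC0n, fun X hX s => ?_⟩
  have hfin : ∀ x : ℝ, 1 ≤ x → ∑ i ∈ s, 2 * m i / (x ^ 2 + (γ i) ^ 2) ≤
      Real.log x / x + C0 / x := by
    intro x hx
    have hx0 : 0 < x := by linarith
    have hsT : Summable fun i => 2 * m i * x / (x ^ 2 + (γ i) ^ 2) := by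
      refine ((zd_summable hZ x).mul_left (2 * x)).congr fun i => ?_
      ring
    have hnn : ∀ i, 0 ≤ 2 * m i * x / (x ^ 2 + (γ i) ^ 2) := fun i => by
      have h1 := hZ.pos i
      have h2 := hZ.one i
      positivity
    have h1 : ∑ i ∈ s, 2 * m i * x / (x ^ 2 + (γ i) ^ 2) ≤ Real.log x + C0 := by
      refine (hsT.sum_le_tsum s fun i _ => hnn i).trans ?_
      have h1 := (abs_le.1 (hC0 x hx)).2
      linarith
    have h2 : ∑ i ∈ s, 2 * m i / (x ^ 2 + (γ i) ^ 2) =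
        (∑ i ∈ s, 2 * m i * x / (x ^ 2 + (γ i) ^ 2)) / x := by
      rw [Finset.sum_div]
      refine Finset.sum_congr rfl fun i _ => ?_
      have h3 : 0 < x ^ 2 + (γ i) ^ 2 := by positivity
      field_simp
    rw [h2, ← add_div]
    exact div_le_div_of_nonneg_right h1 hx0.le
  have hder : ∀ x : ℝ, 0 < x → HasDerivAt (fun x : ℝ => (Real.log x) ^ 2 / 2 + C0 * Real.log x -
      ∑ i ∈ s, 2 * m i / γ i * (Real.arctan (x / γ i) - Real.arctan (1 / γ i)))
      (Real.log x / x + C0 / x - ∑ i ∈ s, 2 * m i / (x ^ 2 + (γ i) ^ 2)) x := by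
    intro x hx
    have h1 : HasDerivAt (fun x : ℝ => (Real.log x) ^ 2 / 2) (Real.log x / x) x := by
      have h2 := ((Real.hasDerivAt_log hx.ne').pow 2).div_const 2
      refine h2.congr_deriv ?_
      simp only [Nat.cast_ofNat, Nat.add_one_sub_one, pow_one]
      field_simp
    have h2 : HasDerivAt (fun x : ℝ => C0 * Real.log x) (C0 / x) x := by
      have h3 := (Real.hasDerivAt_log hx.ne').const_mul C0
      refine h3.congr_deriv ?_
      rw [div_eq_mul_inv]
    have h3 : HasDerivAt (fun x : ℝ => ∑ i ∈ s, 2 * m i / γ i *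
        (Real.arctan (x / γ i) - Real.arctan (1 / γ i)))
        (∑ i ∈ s, 2 * m i / (x ^ 2 + (γ i) ^ 2)) x := by
      refine HasDerivAt.fun_sum fun i _ => ?_
      have hg := hZ.pos i
      have h4 : HasDerivAt (fun x : ℝ => x / γ i) (1 / γ i) x := (hasDerivAt_id x).div_const _
      have h5 := ((h4.arctan).sub_const (Real.arctan (1 / γ i))).const_mul (2 * m i / γ i)
      refine h5.congr_deriv ?_
      have h6 : 0 < x ^ 2 + (γ i) ^ 2 := by positivity
      have h7 : 1 + (x / γ i) ^ 2 = (x ^ 2 + (γ i) ^ 2) / (γ i) ^ 2 := by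
        field_simp
        ring
      rw [h7]
      field_simp
    exact (h1.add h2).sub h3
  have hmono : MonotoneOn (fun x : ℝ => (Real.log x) ^ 2 / 2 + C0 * Real.log x -
      ∑ i ∈ s, 2 * m i / γ i * (Real.arctan (x / γ i) - Real.arctan (1 / γ i))) (Set.Ici 1) := by
    refine monotoneOn_of_deriv_nonneg (convex_Ici 1) ?_ ?_ ?_
    · intro x hx
      have hx' : (1 : ℝ) ≤ x := hx
      exact (hder x (by linarith)).continuousAt.continuousWithinAt
    · intro x hx
      rw [interior_Ici] at hx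
      have hx' : (1 : ℝ) < x := hx
      exact (hder x (by linarith)).differentiableAt.differentiableWithinAt
    · intro x hx
      rw [interior_Ici] at hx
      have hx' : (1 : ℝ) < x := hx
      rw [(hder x (by linarith)).deriv]
      have h1 := hfin x hx'.le
      linarith
  have h8 : (Real.log 1) ^ 2 / 2 + C0 * Real.log 1 -
      ∑ i ∈ s, 2 * m i / γ i * (Real.arctan (1 / γ i) - Real.arctan (1 / γ i)) ≤
      (Real.log X) ^ 2 / 2 + C0 * Real.log X -
      ∑ i ∈ s, 2 * m i / γ i * (Real.arctan (X / γ i) - Real.arctan (1 / γ i)) :=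
    hmono (Set.mem_Ici.2 le_rfl) (Set.mem_Ici.2 hX) hX
  have h9 : (Real.log 1) ^ 2 / 2 + C0 * Real.log 1 -
      ∑ i ∈ s, 2 * m i / γ i * (Real.arctan (1 / γ i) - Real.arctan (1 / γ i)) = 0 := by
    simp
  rw [h9] at h8
  linarith

/-- `Σ_{γ ≤ T} 2 m/γ ≤ (1/π + ε) (log T)² + C`: integrate `hZ.asy` against `dz/z` over `[1, T M]` in the
form `Σ 2 m/γ (arctan (T M/γ) - arctan (1/γ)) ≤ (log (T M))²/2 + C log (T M)` (finite sums suffice),
`arctan (T M/γ) ≥ arctan M` for `γ ≤ T`, `arctan (1/γ) ≤ 1/γ`, and `M` large in terms of `ε`. -/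
theorem sum_inv (hZ : ZD γ m) (ε : ℝ) (hε : 0 < ε) : ∃ C : ℝ, 0 ≤ C ∧ ∀ T : ℝ, 1 ≤ T →
    ∀ s : Finset ι, (∀ i ∈ s, γ i ≤ T) →
      ∑ i ∈ s, 2 * m i / γ i ≤ (1 / Real.pi + ε) * (Real.log T) ^ 2 + C := by
  obtain ⟨C0, hC0, hat⟩ := QSup_arctan hZ
  have hpi := Real.pi_pos
  obtain ⟨M, hM1, hMb⟩ : ∃ M : ℝ, 1 ≤ M ∧ 1 / (2 * Real.arctan M) < 1 / Real.pi + ε / 2 := by
    have h1 : Tendsto (fun M : ℝ => 1 / (2 * Real.arctan M)) atTop (𝓝 (1 / (2 * (Real.pi / 2)))) := by
      refine Tendsto.div tendsto_const_nhds (Tendsto.const_mul 2 ?_) (by positivity)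
      exact tendsto_nhds_of_tendsto_nhdsWithin Real.tendsto_arctan_atTop
    have h2 : 1 / (2 * (Real.pi / 2)) < 1 / Real.pi + ε / 2 := by
      rw [mul_div_cancel₀ _ (two_ne_zero)]
      linarith
    have h3 := (h1.eventually (gt_mem_nhds h2)).and (eventually_ge_atTop 1)
    obtain ⟨M, hM⟩ := h3.exists
    exact ⟨M, hM.2, hM.1⟩
  have hMa : 0 < Real.arctan M := Real.arctan_pos.2 (by linarith)
  have hS : 0 ≤ ∑' i, m i / (γ i) ^ 2 := tsum_nonneg fun i => by
    have h1 := hZ.pos i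
    have h2 := hZ.one i
    positivity
  have hLM : 0 ≤ Real.log M := Real.log_nonneg hM1
  obtain ⟨C, hC, hq⟩ := QSup_quad (1 / Real.pi + ε / 2) (1 / Real.pi + ε)
    ((1 / Real.pi + ε / 2) * (2 * Real.log M + 2 * C0))
    ((1 / Real.pi + ε / 2) * ((Real.log M) ^ 2 + 2 * C0 * Real.log M +
      4 * ∑' i, m i / (γ i) ^ 2)) (by linarith)
  refine ⟨C, hC, fun T hT s hs => le_trans ?_ (hq (Real.log T))⟩
  have hT0 : 0 < T := by linarith
  have hlT : 0 ≤ Real.log T := Real.log_nonneg hT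
  have hTM : 1 ≤ T * M := by nlinarith
  have h1 := hat (T * M) hTM s
  have h2 : Real.arctan M * ∑ i ∈ s, 2 * m i / γ i - 2 * ∑' i, m i / (γ i) ^ 2 ≤
      ∑ i ∈ s, 2 * m i / γ i * (Real.arctan (T * M / γ i) - Real.arctan (1 / γ i)) := by
    have h3 : ∑ i ∈ s, m i / (γ i) ^ 2 ≤ ∑' i, m i / (γ i) ^ 2 :=
      hZ.sm.sum_le_tsum s fun i _ => by
        have h1 := hZ.pos i
        have h2 := hZ.one i
        positivity
    have h4 : Real.arctan M * ∑ i ∈ s, 2 * m i / γ i - 2 * ∑ i ∈ s, m i / (γ i) ^ 2 ≤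
        ∑ i ∈ s, 2 * m i / γ i * (Real.arctan (T * M / γ i) - Real.arctan (1 / γ i)) := by
      rw [Finset.mul_sum, Finset.mul_sum, ← Finset.sum_sub_distrib]
      refine Finset.sum_le_sum fun i hi => ?_
      have hg := hZ.pos i
      have hm := hZ.one i
      have h5 : Real.arctan M ≤ Real.arctan (T * M / γ i) := by
        apply Real.arctan_mono
        rw [le_div_iff₀ hg]
        have h6 := hs i hi
        nlinarith
      have h6 : Real.arctan (1 / γ i) ≤ 1 / γ i := QSup_arctan_le _ (by positivity)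
      have h7 : 0 ≤ 2 * m i / γ i := by
        have : 0 ≤ m i := by linarith
        positivity
      have h8 : 2 * m i / γ i * (Real.arctan M - 1 / γ i) ≤
          2 * m i / γ i * (Real.arctan (T * M / γ i) - Real.arctan (1 / γ i)) :=
        mul_le_mul_of_nonneg_left (by linarith) h7
      refine le_trans (le_of_eq ?_) h8
      field_simp
    linarith
  have h3 : Real.arctan M * ∑ i ∈ s, 2 * m i / γ i ≤
      (Real.log (T * M)) ^ 2 / 2 + C0 * Real.log (T * M) + 2 * ∑' i, m i / (γ i) ^ 2 := by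
    linarith
  rw [Real.log_mul hT0.ne' (by linarith)] at h3
  have h4 : ∑ i ∈ s, 2 * m i / γ i ≤ 1 / (2 * Real.arctan M) *
      ((Real.log T + Real.log M) ^ 2 + 2 * C0 * (Real.log T + Real.log M) +
        4 * ∑' i, m i / (γ i) ^ 2) := by
    rw [one_div_mul_eq_div, le_div_iff₀ (by positivity)]
    linarith
  refine h4.trans ?_
  have h5 : 0 ≤ (Real.log T + Real.log M) ^ 2 + 2 * C0 * (Real.log T + Real.log M) +
        4 * ∑' i, m i / (γ i) ^ 2 := by positivity
  refine (mul_le_mul_of_nonneg_right hMb.le h5).trans ?_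
  have h6 : (1 / Real.pi + ε / 2) * ((Real.log T + Real.log M) ^ 2 +
      2 * C0 * (Real.log T + Real.log M) + 4 * ∑' i, m i / (γ i) ^ 2) =
      (1 / Real.pi + ε / 2) * Real.log T ^ 2 +
      (1 / Real.pi + ε / 2) * (2 * Real.log M + 2 * C0) * Real.log T +
      (1 / Real.pi + ε / 2) * (Real.log M ^ 2 + 2 * C0 * Real.log M +
      4 * ∑' i, m i / (γ i) ^ 2) := by ring
  exact h6.le

/-- The mean over `[u, u+h]` is `h⁻¹ Σ 2m/γ² (cos γu - cos γ(u+h)) + c3`, at most
`Σ min (2m/γ, 4m/(hγ²)) + |c3|`; split at `T = (1/h)(1 + log (1/h))`, `sum_inv`, `cnt`. -/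
theorem Mn_sup (hZ : ZD γ m) (A : ℝ → ℝ) (hA : EF γ m A) (ε : ℝ) (hε : 0 < ε) :
    ∃ C : ℝ, 0 ≤ C ∧ ∀ h u : ℝ, 0 < h → h ≤ 1 → 0 ≤ u →
      |Mn A h u| ≤ (1 / Real.pi + ε) * (Real.log (1 / h)) ^ 2 + C := by
  have hpi := Real.pi_pos
  obtain ⟨c3, hI⟩ := I_eq A hA
  obtain ⟨C1, hC1, hsum⟩ := sum_inv hZ (ε / 4) (by positivity)
  obtain ⟨C2, hC2, hcnt⟩ := cnt hZ
  -- the loss in the logarithm
  obtain ⟨η, hη, hη2⟩ : ∃ η : ℝ, 0 < η ∧
      (1 / Real.pi + ε / 4) * (1 + η) ^ 2 < 1 / Real.pi + ε := by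
    have h1 : Tendsto (fun η : ℝ => (1 / Real.pi + ε / 4) * (1 + η) ^ 2) (𝓝[>] 0)
        (𝓝 ((1 / Real.pi + ε / 4) * (1 + 0) ^ 2)) := by
      have h2 : Continuous fun η : ℝ => (1 / Real.pi + ε / 4) * (1 + η) ^ 2 := by fun_prop
      exact (h2.tendsto 0).mono_left nhdsWithin_le_nhds
    have h2 : (1 / Real.pi + ε / 4) * (1 + 0) ^ 2 < 1 / Real.pi + ε := by
      rw [add_zero, one_pow, mul_one]
      linarith
    have h3 := (h1.eventually (gt_mem_nhds h2)).and self_mem_nhdsWithin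
    obtain ⟨η, hη⟩ := h3.exists
    exact ⟨η, hη.2, hη.1⟩
  obtain ⟨K, hK0, hK⟩ : ∃ K : ℝ, 0 ≤ K ∧ ∀ L : ℝ, 0 ≤ L → Real.log (1 + L) ≤ η * L + K := by
    refine ⟨|η - Real.log η - 1|, abs_nonneg _, fun L hL => ?_⟩
    have h1 := Real.log_le_sub_one_of_pos (x := η * (1 + L)) (by positivity)
    rw [Real.log_mul hη.ne' (by positivity)] at h1
    have h2 := le_abs_self (η - Real.log η - 1)
    nlinarith
  obtain ⟨C3, hC3, hq⟩ := QSup_quad ((1 / Real.pi + ε / 4) * (1 + η) ^ 2) (1 / Real.pi + ε)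
    ((1 / Real.pi + ε / 4) * (2 * (1 + η) * K))
    ((1 / Real.pi + ε / 4) * K ^ 2 + C1 + (8 + 4 * C2) + |c3|) hη2
  refine ⟨C3, hC3, fun h u hh hh1 hu => le_trans ?_ (hq (Real.log (1 / h)))⟩
  have hL : 0 ≤ Real.log (1 / h) := by
    apply Real.log_nonneg
    rw [one_le_div hh]
    exact hh1
  obtain ⟨L, hLdef⟩ : ∃ L, L = Real.log (1 / h) := ⟨_, rfl⟩
  rw [← hLdef] at hL ⊢
  obtain ⟨T, hTdef⟩ : ∃ T, T = 1 / h * (1 + L) := ⟨_, rfl⟩
  have h1h : 1 ≤ 1 / h := by
    rw [one_le_div hh]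
    exact hh1
  have hT1 : 1 ≤ T := by
    rw [hTdef]
    nlinarith
  have hT0 : 0 < T := by linarith
  have hlogT : Real.log T = L + Real.log (1 + L) := by
    rw [hTdef, Real.log_mul (by positivity) (by positivity), ← hLdef]
  -- the integral
  have hint : ∀ v : ℝ, IntegrableOn (fun t => A t + om t) (Set.Ioc 0 v) := fun v =>
    (A_int A hA 0 v le_rfl).add (om_int.mono_set Set.Ioc_subset_Ioi_self)
  have hsplit : ∫ t in Set.Ioc u (u + h), (A t + om t) =
      (∫ t in Set.Ioc 0 (u + h), (A t + om t)) - ∫ t in Set.Ioc 0 u, (A t + om t) := by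
    have h1 : Set.Ioc 0 (u + h) = Set.Ioc 0 u ∪ Set.Ioc u (u + h) :=
      (Set.Ioc_union_Ioc_eq_Ioc hu (by linarith)).symm
    rw [h1, setIntegral_union (Set.Ioc_disjoint_Ioc_of_le le_rfl) measurableSet_Ioc (hint u)
      ((hint (u + h)).mono_set (Set.Ioc_subset_Ioc_left hu))]
    ring
  have hsm : ∀ v : ℝ, Summable fun i => 2 * m i / (γ i) ^ 2 * (1 - Real.cos (γ i * v)) := by
    intro v
    refine Summable.of_nonneg_of_le (fun i => ?_) (fun i => ?_) (hZ.sm.mul_left 4)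
    · have h1 := hZ.pos i
      have h2 := hZ.one i
      have h3 : 0 ≤ 1 - Real.cos (γ i * v) := by linarith [Real.cos_le_one (γ i * v)]
      have h4 : 0 ≤ 2 * m i / (γ i) ^ 2 := by positivity
      exact mul_nonneg h4 h3
    · have h1 := hZ.pos i
      have h2 := hZ.one i
      have h3 : 1 - Real.cos (γ i * v) ≤ 2 := by linarith [Real.neg_one_le_cos (γ i * v)]
      have h4 : 0 ≤ 2 * m i / (γ i) ^ 2 := by positivity
      have h5 : 4 * (m i / (γ i) ^ 2) = 2 * m i / (γ i) ^ 2 * 2 := by ring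
      rw [h5]
      exact mul_le_mul_of_nonneg_left h3 h4
  have hMn : Mn A h u = (∑' i, h⁻¹ * (2 * m i / (γ i) ^ 2 *
      (Real.cos (γ i * u) - Real.cos (γ i * (u + h))))) + c3 := by
    unfold Mn
    rw [hsplit, hI u hu, hI (u + h) (by linarith), tsum_mul_left]
    have h1 : (∑' i, 2 * m i / (γ i) ^ 2 * (Real.cos (γ i * u) - Real.cos (γ i * (u + h)))) =
        (∑' i, 2 * m i / (γ i) ^ 2 * (1 - Real.cos (γ i * (u + h)))) -
          ∑' i, 2 * m i / (γ i) ^ 2 * (1 - Real.cos (γ i * u)) := by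
      rw [← (hsm (u + h)).tsum_sub (hsm u)]
      refine tsum_congr fun i => ?_
      ring
    rw [h1]
    have h2 : ∀ a b : ℝ, h⁻¹ * (a + c3 * (u + h) - (b + c3 * u)) = h⁻¹ * (a - b) + c3 := by
      intro a b
      field_simp
      ring
    exact h2 _ _
  -- the two bounds of the terms
  have hb : ∀ i, ‖h⁻¹ * (2 * m i / (γ i) ^ 2 *
      (Real.cos (γ i * u) - Real.cos (γ i * (u + h))))‖ ≤
      (if γ i ≤ T then 2 * m i / γ i else 0) +
        4 / h * (if γ i ≤ T then 0 else m i / (γ i) ^ 2) := by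
    intro i
    have hg := hZ.pos i
    have hm := hZ.one i
    have hm0 : 0 < m i := by linarith
    rw [norm_mul, norm_mul, Real.norm_eq_abs, Real.norm_eq_abs, Real.norm_eq_abs,
      abs_of_pos (inv_pos.2 hh), abs_of_pos (by positivity : 0 < 2 * m i / (γ i) ^ 2)]
    split_ifs with hi
    · rw [mul_zero, add_zero]
      have h1 := Real.abs_cos_sub_cos_le (γ i * u) (γ i * (u + h))
      have h2 : |γ i * u - γ i * (u + h)| = γ i * h := by
        have h3 : γ i * u - γ i * (u + h) = -(γ i * h) := by ring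
        rw [h3, abs_neg, abs_of_pos (by positivity)]
      rw [h2] at h1
      have h3 : h⁻¹ * (2 * m i / (γ i) ^ 2 * |Real.cos (γ i * u) - Real.cos (γ i * (u + h))|) ≤
          h⁻¹ * (2 * m i / (γ i) ^ 2 * (γ i * h)) := by gcongr
      refine h3.trans (le_of_eq ?_)
      field_simp
    · rw [zero_add]
      have h1 : |Real.cos (γ i * u) - Real.cos (γ i * (u + h))| ≤ 2 := by
        have h4 := Real.cos_le_one (γ i * u)
        have h5 := Real.neg_one_le_cos (γ i * u)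
        have h6 := Real.cos_le_one (γ i * (u + h))
        have h7 := Real.neg_one_le_cos (γ i * (u + h))
        exact abs_le.2 ⟨by linarith, by linarith⟩
      have h3 : h⁻¹ * (2 * m i / (γ i) ^ 2 * |Real.cos (γ i * u) - Real.cos (γ i * (u + h))|) ≤
          h⁻¹ * (2 * m i / (γ i) ^ 2 * 2) := by gcongr
      refine h3.trans (le_of_eq ?_)
      field_simp
      ring
  have hfinT := cnt_fin hZ T
  have hs1 : Summable fun i => (if γ i ≤ T then 2 * m i / γ i else 0) := by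
    apply summable_of_hasFiniteSupport
    refine hfinT.subset fun i hi => ?_
    by_contra h0
    exact hi (if_neg h0)
  have hs2 : Summable fun i => (if γ i ≤ T then 0 else m i / (γ i) ^ 2) := by
    refine Summable.of_nonneg_of_le (fun i => ?_) (fun i => ?_) hZ.sm
    · have h1 := hZ.pos i
      have h2 := hZ.one i
      split_ifs
      · exact le_rfl
      · positivity
    · have h1 := hZ.pos i
      have h2 := hZ.one i
      split_ifs
      · positivity
      · exact le_rfl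
  have ht1 : ∑' i, (if γ i ≤ T then 2 * m i / γ i else 0) ≤
      (1 / Real.pi + ε / 4) * (Real.log T) ^ 2 + C1 := by
    have h1 : ∑' i, (if γ i ≤ T then 2 * m i / γ i else 0) =
        ∑ i ∈ hfinT.toFinset, (if γ i ≤ T then 2 * m i / γ i else 0) := by
      apply tsum_eq_sum
      intro i hi
      rw [Set.Finite.mem_toFinset] at hi
      exact if_neg hi
    rw [h1]
    have h2 : ∑ i ∈ hfinT.toFinset, (if γ i ≤ T then 2 * m i / γ i else 0) =
        ∑ i ∈ hfinT.toFinset, 2 * m i / γ i := by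
      refine Finset.sum_congr rfl fun i hi => ?_
      rw [Set.Finite.mem_toFinset] at hi
      exact if_pos hi
    rw [h2]
    exact hsum T hT1 _ fun i hi => by
      rw [Set.Finite.mem_toFinset] at hi
      exact hi
  have ht2 : 4 / h * ∑' i, (if γ i ≤ T then 0 else m i / (γ i) ^ 2) ≤ 8 + 4 * C2 := by
    have h1 := (hcnt T hT1).2
    have h2 : 4 / h * ∑' i, (if γ i ≤ T then 0 else m i / (γ i) ^ 2) ≤
        4 / h * ((Real.log T + C2) / T) := mul_le_mul_of_nonneg_left h1 (by positivity)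
    refine h2.trans ?_
    have h3 : 4 / h * ((Real.log T + C2) / T) = 4 * (Real.log T + C2) / (1 + L) := by
      rw [hTdef]
      field_simp
    rw [h3, div_le_iff₀ (by linarith), hlogT]
    have h4 := Real.log_le_sub_one_of_pos (x := 1 + L) (by linarith)
    nlinarith
  have habs : |∑' i, h⁻¹ * (2 * m i / (γ i) ^ 2 *
      (Real.cos (γ i * u) - Real.cos (γ i * (u + h))))| ≤
      (1 / Real.pi + ε / 4) * (Real.log T) ^ 2 + C1 + (8 + 4 * C2) := by
    have h1 := tsum_of_norm_bounded (hs1.add (hs2.mul_left (4 / h))).hasSum hb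
    have h2 : ∑' i, ((if γ i ≤ T then 2 * m i / γ i else 0) +
        4 / h * (if γ i ≤ T then 0 else m i / (γ i) ^ 2)) =
        (∑' i, (if γ i ≤ T then 2 * m i / γ i else 0)) +
        4 / h * ∑' i, (if γ i ≤ T then 0 else m i / (γ i) ^ 2) := by
      rw [hs1.tsum_add (hs2.mul_left (4 / h)), tsum_mul_left]
    rw [h2] at h1
    rw [← Real.norm_eq_abs]
    linarith
  have hfinal : |Mn A h u| ≤ (1 / Real.pi + ε / 4) * (Real.log T) ^ 2 + C1 + (8 + 4 * C2) + |c3| := by
    rw [hMn]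
    exact (abs_add_le _ _).trans (add_le_add_left habs _)
  have hlT2 : (Real.log T) ^ 2 ≤ ((1 + η) * L + K) ^ 2 := by
    have h1 : 0 ≤ Real.log T := Real.log_nonneg hT1
    have h2 : Real.log T ≤ (1 + η) * L + K := by
      rw [hlogT]
      have := hK L hL
      linarith
    exact pow_le_pow_left₀ h1 h2 2
  have hpos : 0 ≤ 1 / Real.pi + ε / 4 := by positivity
  have h9 := mul_le_mul_of_nonneg_left hlT2 hpos
  have h10 : (1 / Real.pi + ε / 4) * ((1 + η) * L + K) ^ 2 =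
      (1 / Real.pi + ε / 4) * (1 + η) ^ 2 * L ^ 2 +
      (1 / Real.pi + ε / 4) * (2 * (1 + η) * K) * L + (1 / Real.pi + ε / 4) * K ^ 2 := by ring
  linarith

end W3283q
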