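import Pool.Agent.W_3283e1_lw.FinB
import Pool.Agent.W_3283e1_h19.QSup

set_option autoImplicit false

namespace W3283q

open Complex W3283e1 W3283f W3283l MeasureTheory Filter Topology

/-- Trivial bound for the variation on short intervals (`abs_el_le`: at most `e^u (e^a - 1) + 1` integers,
each term at most `7 e^{-u/2}`). -/
theorem AA_var (α : ℕ → ℂ) (hα : ∀ p : ℕ, p.Prime → p ≠ 2 → ‖α p‖ ^ 2 = p) (u a : ℝ) (hu : 0 ≤ u)
    (ha : 0 ≤ a) (ha1 : a ≤ 1) :
    |AA α (Real.exp (u + a)) - AA α (Real.exp u)| ≤ 14 * (Real.exp (u / 2) * a + Real.exp (-(u / 2))) := by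
  have hexpu : 0 < Real.exp u := Real.exp_pos u
  have hle : Real.exp u ≤ Real.exp (u + a) := Real.exp_le_exp.2 (by linarith)
  have hfl : ⌊Real.exp u⌋₊ ≤ ⌊Real.exp (u + a)⌋₊ := Nat.floor_le_floor hle
  have hdiff : AA α (Real.exp (u + a)) - AA α (Real.exp u) =
      ∑ n ∈ Finset.Ioc ⌊Real.exp u⌋₊ ⌊Real.exp (u + a)⌋₊, el α n := by
    unfold AA
    have hun : Finset.Icc 1 ⌊Real.exp (u + a)⌋₊ = Finset.Icc 1 ⌊Real.exp u⌋₊ ∪
        Finset.Ioc ⌊Real.exp u⌋₊ ⌊Real.exp (u + a)⌋₊ := by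
      ext n
      simp only [Finset.mem_union, Finset.mem_Icc, Finset.mem_Ioc]
      omega
    have hdis : Disjoint (Finset.Icc 1 ⌊Real.exp u⌋₊)
        (Finset.Ioc ⌊Real.exp u⌋₊ ⌊Real.exp (u + a)⌋₊) := by
      rw [Finset.disjoint_left]
      intro n hn hn'
      rw [Finset.mem_Icc] at hn
      rw [Finset.mem_Ioc] at hn'
      omega
    rw [hun, Finset.sum_union hdis]
    ring
  rw [hdiff]
  have hterm : ∀ n ∈ Finset.Ioc ⌊Real.exp u⌋₊ ⌊Real.exp (u + a)⌋₊,
      |el α n| ≤ 7 * Real.exp (-(u / 2)) := by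
    intro n hn
    rw [Finset.mem_Ioc] at hn
    have hn1 : Real.exp u < (n : ℝ) := (Nat.floor_lt hexpu.le).1 hn.1
    refine (abs_el_le α hα n).trans ?_
    apply mul_le_mul_of_nonneg_left _ (by norm_num)
    have h1 : (n : ℝ) ^ (-(1 / 2) : ℝ) ≤ (Real.exp u) ^ (-(1 / 2) : ℝ) :=
      Real.rpow_le_rpow_of_nonpos hexpu hn1.le (by norm_num)
    refine h1.trans (le_of_eq ?_)
    rw [← Real.exp_mul]
    congr 1
    ring
  have hcard : ((Finset.Ioc ⌊Real.exp u⌋₊ ⌊Real.exp (u + a)⌋₊).card : ℝ) ≤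
      2 * a * Real.exp u + 1 := by
    rw [Nat.card_Ioc, Nat.cast_sub hfl]
    have h1 : (⌊Real.exp (u + a)⌋₊ : ℝ) ≤ Real.exp (u + a) := Nat.floor_le (Real.exp_pos _).le
    have h2 : Real.exp u < (⌊Real.exp u⌋₊ : ℝ) + 1 := Nat.lt_floor_add_one _
    have h3 : Real.exp a ≤ 1 + 2 * a := by
      have h4 := Real.abs_exp_sub_one_sub_id_le (x := a) (by rw [abs_of_nonneg ha]; exact ha1)
      have h5 := (abs_le.1 h4).2
      nlinarith
    have h6 : Real.exp (u + a) ≤ Real.exp u * (1 + 2 * a) := by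
      rw [Real.exp_add]
      exact mul_le_mul_of_nonneg_left h3 hexpu.le
    linarith
  calc |∑ n ∈ Finset.Ioc ⌊Real.exp u⌋₊ ⌊Real.exp (u + a)⌋₊, el α n|
      ≤ ∑ n ∈ Finset.Ioc ⌊Real.exp u⌋₊ ⌊Real.exp (u + a)⌋₊, |el α n| :=
        Finset.abs_sum_le_sum_abs _ _
    _ ≤ ∑ n ∈ Finset.Ioc ⌊Real.exp u⌋₊ ⌊Real.exp (u + a)⌋₊, 7 * Real.exp (-(u / 2)) :=
        Finset.sum_le_sum hterm
    _ = ((Finset.Ioc ⌊Real.exp u⌋₊ ⌊Real.exp (u + a)⌋₊).card : ℝ) *
        (7 * Real.exp (-(u / 2))) := by rw [Finset.sum_const, nsmul_eq_mul]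
    _ ≤ (2 * a * Real.exp u + 1) * (7 * Real.exp (-(u / 2))) :=
        mul_le_mul_of_nonneg_right hcard (by positivity)
    _ = 14 * (Real.exp u * Real.exp (-(u / 2)) * a) + 7 * Real.exp (-(u / 2)) := by ring
    _ = 14 * (Real.exp (u / 2) * a) + 7 * Real.exp (-(u / 2)) := by
        rw [← Real.exp_add]
        congr 3
        ring_nf
    _ ≤ _ := by
        have := Real.exp_pos (-(u / 2))
        linarith

/-- Variation of `u er(u)` on `[u, u + h]`, `h ≤ e^{-u/2}/u`. -/
theorem er_var (α : ℕ → ℂ) (hα : ∀ p : ℕ, p.Prime → p ≠ 2 → ‖α p‖ ^ 2 = p) (κ : ℝ) (r : ℕ) :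
    ∃ C : ℝ, 0 ≤ C ∧ ∀ u a : ℝ, 1 ≤ u → 0 ≤ a → a ≤ Real.exp (-(u / 2)) / u →
      |W3283g.er α κ r (u + a) - W3283g.er α κ r u| ≤ C / u := by
  refine ⟨42 + r, by positivity, fun u a hu ha hau => ?_⟩
  have hu0 : 0 < u := by linarith
  have he1 : Real.exp (-(u / 2)) ≤ 1 := by
    rw [Real.exp_le_one_iff]
    linarith
  have he0 := Real.exp_pos (-(u / 2))
  have ha1u : a ≤ 1 / u := hau.trans (div_le_div_of_nonneg_right he1 hu0.le)
  have h1u : 1 / u ≤ 1 := by
    rw [div_le_one hu0]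
    exact hu
  have hA := AA_var α hα u a hu0.le ha (ha1u.trans h1u)
  have h1 : Real.exp (u / 2) * a ≤ 1 / u := by
    calc Real.exp (u / 2) * a ≤ Real.exp (u / 2) * (Real.exp (-(u / 2)) / u) :=
          mul_le_mul_of_nonneg_left hau (Real.exp_pos _).le
      _ = (Real.exp (u / 2) * Real.exp (-(u / 2))) / u := by ring
      _ = 1 / u := by
          rw [← Real.exp_add]
          simp
  have h2 : Real.exp (-(u / 2)) ≤ 2 / u := by
    have h3 := Real.add_one_le_exp (u / 2)
    rw [Real.exp_neg, inv_eq_one_div, div_le_div_iff₀ (Real.exp_pos _) hu0]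
    linarith
  have h3 : |AA α (Real.exp (u + a)) - AA α (Real.exp u)| ≤ 42 / u := by
    refine hA.trans ?_
    have : (42 : ℝ) / u = 14 * (1 / u + 2 / u) := by ring
    rw [this]
    linarith
  have h4 : 0 ≤ Real.log (u + a) - Real.log u := by
    have := Real.log_le_log hu0 (by linarith : u ≤ u + a)
    linarith
  have h5 : Real.log (u + a) - Real.log u ≤ 1 / u := by
    rw [← Real.log_div (by linarith) hu0.ne']
    have h6 := Real.log_le_sub_one_of_pos (show 0 < (u + a) / u by positivity)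
    have h7 : (u + a) / u - 1 = a / u := by
      field_simp
      ring
    rw [h7] at h6
    refine h6.trans ?_
    exact div_le_div_of_nonneg_right (ha1u.trans h1u) hu0.le
  have h8 : W3283g.er α κ r (u + a) - W3283g.er α κ r u =
      (AA α (Real.exp (u + a)) - AA α (Real.exp u)) - r * (Real.log (u + a) - Real.log u) := by
    unfold W3283g.er
    ring
  rw [h8]
  refine (abs_sub _ _).trans ?_
  rw [abs_mul, abs_of_nonneg h4, abs_of_nonneg (Nat.cast_nonneg (α := ℝ) r)]
  have h9 := mul_le_mul_of_nonneg_left h5 (Nat.cast_nonneg (α := ℝ) r)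
  have h10 : (42 + (r : ℝ)) / u = 42 / u + r * (1 / u) := by ring
  rw [h10]
  linarith

/-- The comparison of the main terms for large `u`. -/
theorem QVar_ev (c K δ : ℝ) (hc : c / 4 < δ) : ∀ᶠ u : ℝ in atTop,
    c * (u / 2 + Real.log u) ^ 2 + K ≤ (u - 1) * (δ * u) := by
  have h1 : Tendsto (fun u : ℝ => Real.log u / u) atTop (𝓝 0) :=
    Real.isLittleO_log_id_atTop.tendsto_div_nhds_zero
  have h2 : Tendsto (fun u : ℝ => u⁻¹) atTop (𝓝 0) := tendsto_inv_atTop_zero
  have h3 : Tendsto (fun u : ℝ => c * (1 / 2 + Real.log u / u) ^ 2 + K * (u⁻¹ * u⁻¹) + δ * u⁻¹)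
      atTop (𝓝 (c * (1 / 2 + 0) ^ 2 + K * (0 * 0) + δ * 0)) :=
    (((tendsto_const_nhds.add h1).pow 2).const_mul c |>.add ((h2.mul h2).const_mul K)).add
      (h2.const_mul δ)
  have h4 : c * (1 / 2 + 0) ^ 2 + K * (0 * 0) + δ * 0 < δ := by
    have : c * (1 / 2 + 0) ^ 2 + K * (0 * 0) + δ * 0 = c / 4 := by ring
    rw [this]
    exact hc
  filter_upwards [h3.eventually_lt_const h4, eventually_gt_atTop (0 : ℝ)] with u hu hu0
  have h5 := mul_le_mul_of_nonneg_right hu.le (sq_nonneg u)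
  have h6 : (c * (1 / 2 + Real.log u / u) ^ 2 + K * (u⁻¹ * u⁻¹) + δ * u⁻¹) * u ^ 2 =
      c * (u / 2 + Real.log u) ^ 2 + K + δ * u := by
    field_simp
  rw [h6] at h5
  nlinarith

/-- Under the explicit formula `|er u| ≤ (1/(4π) + ε) u` for large `u`: the mean of `A + om` over
`(u, u + h]`, `h = e^{-u/2}/u`, is at most `(1/π + ε) (u/2 + log u)² + C` (`Mn_sup`), and `u er(u)` differs
from it by a bounded amount plus `h |er|` (`er_var`, `hC`, `0 ≤ om ≤ om 1`; `|(u+a) er(u+a) - u er(u)| ≤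
(u+a)|er(u+a) - er(u)| + a |er u|`). -/
theorem er_sup {ι : Type} {γ m : ι → ℝ} (hZ : ZD γ m) (A : ℝ → ℝ) (hA : EF γ m A) (α : ℕ → ℂ)
    (hα : ∀ p : ℕ, p.Prime → p ≠ 2 → ‖α p‖ ^ 2 = p) (κ : ℝ) (r : ℕ) (C : ℝ)
    (hC : ∀ u : ℝ, 1 ≤ u → |u * W3283g.er α κ r u - A u| ≤ C) (δ : ℝ) (hδ : 1 / (4 * Real.pi) < δ) :
    ∃ u0 : ℝ, ∀ u : ℝ, u0 ≤ u → |W3283g.er α κ r u| ≤ δ * u := by
  obtain ⟨C2, hC2, hvar⟩ := er_var α hα κ r
  have hd0 : 0 < δ - 1 / (4 * Real.pi) := by linarith
  set ε : ℝ := 2 * (δ - 1 / (4 * Real.pi)) with hε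
  have hε0 : 0 < ε := by positivity
  obtain ⟨C1, hC1, hsup⟩ := Mn_sup hZ A hA ε hε0
  set K : ℝ := C + om 1 + 2 * C2 + C1 with hK
  obtain ⟨u1, hu1⟩ := eventually_atTop.1 (QVar_ev (1 / Real.pi + ε) K δ (by
    rw [hε]
    have hpi := Real.pi_pos
    have h1 : (1 / Real.pi + 2 * (δ - 1 / (4 * Real.pi))) / 4 =
        1 / (4 * Real.pi) + (δ - 1 / (4 * Real.pi)) / 2 := by
      field_simp
      ring
    rw [h1]
    linarith))
  refine ⟨max u1 2, fun u hu => ?_⟩
  have huu1 : u1 ≤ u := (le_max_left _ _).trans hu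
  have hu2 : 2 ≤ u := (le_max_right _ _).trans hu
  have hu0 : 0 < u := by linarith
  have hu1' : 1 ≤ u := by linarith
  have hfin := hu1 u huu1
  set h : ℝ := Real.exp (-(u / 2)) / u with hh
  have hh0 : 0 < h := by positivity
  have he1 : Real.exp (-(u / 2)) ≤ 1 := by
    rw [Real.exp_le_one_iff]
    linarith
  have hh1 : h ≤ 1 := by
    rw [hh, div_le_one hu0]
    linarith
  have hlog : Real.log (1 / h) = u / 2 + Real.log u := by
    rw [one_div, Real.log_inv, hh, Real.log_div (Real.exp_pos _).ne' hu0.ne', Real.log_exp]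
    ring
  have hM := hsup h u hh0 hh1 hu0.le
  rw [hlog] at hM
  have hdiff : |Mn A h u - u * W3283g.er α κ r u| ≤
      C + om 1 + 2 * C2 + h * |W3283g.er α κ r u| := by
    have hint := QDiff_int A hA u (u + h) hu0.le
    have hvol : volume.real (Set.Ioc u (u + h)) = h := by
      rw [Real.volume_real_Ioc_of_le (by linarith)]
      ring
    have e1 : Mn A h u - u * W3283g.er α κ r u = h⁻¹ * ∫ t in Set.Ioc u (u + h),
        (A t + om t - u * W3283g.er α κ r u) := by
      rw [integral_sub hint (integrableOn_const (by simp)), setIntegral_const, hvol, smul_eq_mul,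
        mul_sub]
      unfold Mn
      rw [← mul_assoc, inv_mul_cancel₀ hh0.ne', one_mul]
    have e2 : ‖∫ t in Set.Ioc u (u + h), (A t + om t - u * W3283g.er α κ r u)‖ ≤
        (C + om 1 + 2 * C2 + h * |W3283g.er α κ r u|) * volume.real (Set.Ioc u (u + h)) := by
      apply norm_setIntegral_le_of_norm_le_const (by simp)
      intro t ht
      obtain ⟨ht1, ht2⟩ := ht
      have ht0 : 1 ≤ t := by linarith
      have a1 := hC t ht0
      have a2 := om_nonneg t (by linarith)
      have a3 := om_anti 1 t one_pos ht0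
      have a4 := hvar u (t - u) hu1' (by linarith) (by linarith)
      rw [show u + (t - u) = t by ring] at a4
      have a5 : |t * W3283g.er α κ r t - u * W3283g.er α κ r u| ≤
          2 * C2 + h * |W3283g.er α κ r u| := by
        have b1 : t * W3283g.er α κ r t - u * W3283g.er α κ r u =
            t * (W3283g.er α κ r t - W3283g.er α κ r u) + (t - u) * W3283g.er α κ r u := by ring
        rw [b1]
        refine (abs_add_le _ _).trans ?_
        rw [abs_mul, abs_mul, abs_of_nonneg (by linarith : 0 ≤ t),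
          abs_of_nonneg (by linarith : 0 ≤ t - u)]
        have b2 : t * |W3283g.er α κ r t - W3283g.er α κ r u| ≤ 2 * C2 := by
          calc t * |W3283g.er α κ r t - W3283g.er α κ r u| ≤ (2 * u) * (C2 / u) :=
                mul_le_mul (by linarith) a4 (abs_nonneg _) (by linarith)
            _ = 2 * C2 := by
                field_simp
        have b3 : (t - u) * |W3283g.er α κ r u| ≤ h * |W3283g.er α κ r u| :=
          mul_le_mul_of_nonneg_right (by linarith) (abs_nonneg _)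
        linarith
      rw [Real.norm_eq_abs]
      have a6 : A t + om t - u * W3283g.er α κ r u =
          (t * W3283g.er α κ r t - u * W3283g.er α κ r u) - (t * W3283g.er α κ r t - A t) +
            om t := by ring
      rw [a6]
      refine (abs_add_le _ _).trans ?_
      rw [abs_of_nonneg a2]
      have a7 := abs_sub (t * W3283g.er α κ r t - u * W3283g.er α κ r u)
        (t * W3283g.er α κ r t - A t)
      linarith
    rw [e1, abs_mul, abs_of_pos (inv_pos.2 hh0)]
    rw [hvol, Real.norm_eq_abs] at e2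
    calc h⁻¹ * |∫ t in Set.Ioc u (u + h), (A t + om t - u * W3283g.er α κ r u)| ≤
          h⁻¹ * ((C + om 1 + 2 * C2 + h * |W3283g.er α κ r u|) * h) :=
          mul_le_mul_of_nonneg_left e2 (inv_pos.2 hh0).le
      _ = _ := by
          field_simp
  have hmain : u * |W3283g.er α κ r u| ≤
      (1 / Real.pi + ε) * (u / 2 + Real.log u) ^ 2 + K + |W3283g.er α κ r u| := by
    have b1 : u * |W3283g.er α κ r u| = |u * W3283g.er α κ r u| := by
      rw [abs_mul, abs_of_pos hu0]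
    have b2 : |u * W3283g.er α κ r u| ≤ |Mn A h u| + |Mn A h u - u * W3283g.er α κ r u| := by
      have := abs_sub (Mn A h u) (Mn A h u - u * W3283g.er α κ r u)
      rw [show Mn A h u - (Mn A h u - u * W3283g.er α κ r u) = u * W3283g.er α κ r u by ring]
        at this
      exact this
    have b3 : h * |W3283g.er α κ r u| ≤ |W3283g.er α κ r u| := by
      have := mul_le_mul_of_nonneg_right hh1 (abs_nonneg (W3283g.er α κ r u))
      linarith
    rw [b1]
    linarith
  have hfin2 : (u - 1) * |W3283g.er α κ r u| ≤ (u - 1) * (δ * u) := by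
    have : (u - 1) * |W3283g.er α κ r u| = u * |W3283g.er α κ r u| - |W3283g.er α κ r u| := by ring
    rw [this]
    linarith
  exact le_of_mul_le_mul_left hfin2 (by linarith)

end W3283q
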