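import Pool.Agent.W_3283e1_h19.QConc
import Pool.Agent.W_3283e1_h19.QLc
import Pool.Agent.W_3283e1_h19.QVar
import Pool.Agent.W_3283e1_h19.QJump

set_option autoImplicit false

namespace W3283q

open Complex W3283e1 W3283f W3283l MeasureTheory Filter Topology

/-- Part (B) of the trichotomy for `er`: concentration in every unit interval, the pointwise bound, and
sudden jumps in both directions if `er` does not tend to zero. -/
theorem rh_B (n j : ℕ) (hj : j = 0 ∨ j = 1) (hn : Odd n) (hs : Squarefree n) (r : ℕ) (l : ℝ)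
    (hl : l ≠ 0)
    (hlim : Tendsto (fun s : ℂ => LLF n j (1 + s) / s ^ r) (𝓝[≠] 0) (𝓝 (l : ℂ)))
    (hRH : ∀ s : ℂ, 0 < s.re → LLF n j (1 + s) ≠ 0) :
    (∃ c0 K : ℝ, 0 < c0 ∧ 0 < K ∧ ∀ U W : ℝ, 1 ≤ U → 0 ≤ W →
      volume {u ∈ Set.Icc U (U + 1) | W < |u * W3283g.er (alF n j) (lGold l r) r u|} ≤
        ENNReal.ofReal (K * Real.exp (-(c0 * Real.sqrt W)))) ∧
    (∀ δ : ℝ, 1 / (4 * Real.pi) < δ → ∃ u0 : ℝ, ∀ u : ℝ, u0 ≤ u →
      |W3283g.er (alF n j) (lGold l r) r u| ≤ δ * u) ∧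
    (¬ Tendsto (W3283g.er (alF n j) (lGold l r) r) atTop (𝓝 0) →
      ∃ ε c : ℝ, 0 < ε ∧ 0 < c ∧
      (∀ X : ℝ, ∃ u a : ℝ, X ≤ u ∧ 0 < a ∧ a ≤ Real.exp (-(c * Real.sqrt u)) ∧
        ε ≤ W3283g.er (alF n j) (lGold l r) r (u + a) - W3283g.er (alF n j) (lGold l r) r u) ∧
      (∀ X : ℝ, ∃ u a : ℝ, X ≤ u ∧ 0 < a ∧ a ≤ Real.exp (-(c * Real.sqrt u)) ∧
        W3283g.er (alF n j) (lGold l r) r (u + a) - W3283g.er (alF n j) (lGold l r) r u ≤ -ε)) := by
  obtain ⟨hEF, C, hC⟩ := er_AF n j hj hn hs r l hl hlim hRH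
  have hZ := zd_fam n j hj hn hs hRH
  have hL := lc_fam n j hj hn hs hRH
  have hα := (dataR_fam n j hj hn hs).norm_α
  obtain ⟨c, K, hc, hK, hconc⟩ := conc hZ hL (AF n j r) hEF
  have hC0 : 0 ≤ C := (abs_nonneg _).trans (hC 1 le_rfl)
  have h1 : ∃ c0 K : ℝ, 0 < c0 ∧ 0 < K ∧ ∀ U W : ℝ, 1 ≤ U → 0 ≤ W →
      volume {u ∈ Set.Icc U (U + 1) | W < |u * W3283g.er (alF n j) (lGold l r) r u|} ≤
        ENNReal.ofReal (K * Real.exp (-(c0 * Real.sqrt W))) := by
    refine ⟨c, (K + 1) * Real.exp (c * Real.sqrt C), hc, by positivity, fun U W hU hW => ?_⟩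
    rcases le_or_gt W C with hWC | hWC
    · -- trivial range
      have h2 : volume {u ∈ Set.Icc U (U + 1) |
          W < |u * W3283g.er (alF n j) (lGold l r) r u|} ≤ volume (Set.Icc U (U + 1)) :=
        measure_mono (fun u hu => hu.1)
      refine h2.trans ?_
      rw [Real.volume_Icc]
      apply ENNReal.ofReal_le_ofReal
      have h3 : 1 ≤ Real.exp (c * Real.sqrt C) * Real.exp (-(c * Real.sqrt W)) := by
        rw [← Real.exp_add]
        apply Real.one_le_exp
        have := mul_le_mul_of_nonneg_left (Real.sqrt_le_sqrt hWC) hc.le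
        linarith
      have h4 : (K + 1) * Real.exp (c * Real.sqrt C) * Real.exp (-(c * Real.sqrt W)) =
          (K + 1) * (Real.exp (c * Real.sqrt C) * Real.exp (-(c * Real.sqrt W))) := by ring
      rw [h4]
      nlinarith
    · have h2 : {u ∈ Set.Icc U (U + 1) | W < |u * W3283g.er (alF n j) (lGold l r) r u|} ⊆
          {u ∈ Set.Icc U (U + 1) | W - C < |AF n j r u|} := by
        intro u hu
        refine ⟨hu.1, ?_⟩
        have h3 := hC u (hU.trans hu.1.1)
        have h4 : |u * W3283g.er (alF n j) (lGold l r) r u| ≤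
            |u * W3283g.er (alF n j) (lGold l r) r u - AF n j r u| + |AF n j r u| := by
          have := abs_add_le (u * W3283g.er (alF n j) (lGold l r) r u - AF n j r u) (AF n j r u)
          rwa [sub_add_cancel] at this
        have h5 : W < |u * W3283g.er (alF n j) (lGold l r) r u| := hu.2
        show W - C < |AF n j r u|
        linarith
      refine (measure_mono h2).trans ((hconc U (W - C) hU (by linarith)).trans ?_)
      apply ENNReal.ofReal_le_ofReal
      have h3 : Real.sqrt W ≤ Real.sqrt (W - C) + Real.sqrt C := by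
        rw [Real.sqrt_le_left (by positivity)]
        have e1 := Real.sq_sqrt (by linarith : 0 ≤ W - C)
        have e2 := Real.sq_sqrt hC0
        have e3 : 0 ≤ Real.sqrt (W - C) * Real.sqrt C := by positivity
        nlinarith
      have h4 : Real.exp (-(c * Real.sqrt (W - C))) ≤
          Real.exp (c * Real.sqrt C) * Real.exp (-(c * Real.sqrt W)) := by
        rw [← Real.exp_add]
        apply Real.exp_le_exp.2
        nlinarith
      have h5 : 0 < Real.exp (c * Real.sqrt C) * Real.exp (-(c * Real.sqrt W)) := by positivity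
      calc K * Real.exp (-(c * Real.sqrt (W - C)))
          ≤ K * (Real.exp (c * Real.sqrt C) * Real.exp (-(c * Real.sqrt W))) :=
            mul_le_mul_of_nonneg_left h4 hK.le
        _ ≤ (K + 1) * (Real.exp (c * Real.sqrt C) * Real.exp (-(c * Real.sqrt W))) := by nlinarith
        _ = _ := by ring
  refine ⟨h1, fun δ hδ => er_sup hZ (AF n j r) hEF (alF n j) hα (lGold l r) r C hC δ hδ, ?_⟩
  intro hnt
  obtain ⟨c0, K0, hc0, hK0, hcon⟩ := h1
  exact jumps _ c0 K0 hc0 hK0 hcon hnt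

end W3283q
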