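import Pool.Agent.W_3283e1_h19.QDef

set_option autoImplicit false

namespace W3283q

open W3283l MeasureTheory

variable {ι : Type} {γ m : ι → ℝ}

/-- `0 ≤ bq ≤ m h` (`|sin x| ≤ |x|`), `bq ≤ 4 m/(h γ²)`. -/
theorem bq_bd (hZ : ZD γ m) (h : ℝ) (hh : 0 < h) (i : ι) :
    0 ≤ bq γ m h i ∧ bq γ m h i ≤ m i * h ∧ bq γ m h i ≤ 4 * m i / (h * (γ i) ^ 2) := by
  have hg := hZ.pos i
  have hm := hZ.one i
  have hm0 : 0 < m i := by linarith
  unfold bq
  refine ⟨by positivity, ?_, ?_⟩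
  · rw [div_le_iff₀ (by positivity)]
    have h1 : (Real.sin (γ i * h / 2)) ^ 2 ≤ (γ i * h / 2) ^ 2 := by
      rw [sq_le_sq]
      exact Real.abs_sin_le_abs
    nlinarith
  · apply div_le_div_of_nonneg_right _ (by positivity)
    have h1 : (Real.sin (γ i * h / 2)) ^ 2 ≤ 1 := Real.sin_sq_le_one _
    nlinarith

theorem bq_sum (hZ : ZD γ m) (h : ℝ) (hh : 0 < h) : Summable (bq γ m h) := by
  refine Summable.of_nonneg_of_le (fun i => (bq_bd hZ h hh i).1) (fun i => ?_)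
    (hZ.sm.mul_left (4 / h))
  refine (bq_bd hZ h hh i).2.2.trans (le_of_eq ?_)
  have hg := hZ.pos i
  field_simp

/-- Sum of all the coefficients: split at `Y = 1/h` and use `cnt`. -/
theorem bq_tsum (hZ : ZD γ m) : ∃ C : ℝ, 0 ≤ C ∧ ∀ h : ℝ, 0 < h → h ≤ 1 →
    ∑' i, bq γ m h i ≤ C * (1 + Real.log (1 / h)) := by
  classical
  obtain ⟨C, hC, hcnt⟩ := cnt hZ
  refine ⟨5 * (1 + C), by positivity, fun h hh hh1 => ?_⟩
  set Y : ℝ := 1 / h with hY
  have hY1 : 1 ≤ Y := by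
    rw [hY, le_div_iff₀ hh]
    linarith
  have hY0 : 0 < Y := by linarith
  have hhY : h * Y = 1 := by
    rw [hY]
    field_simp
  obtain ⟨h1, h2⟩ := hcnt Y hY1
  have hL : 0 ≤ Real.log Y := Real.log_nonneg hY1
  have hterm : ∀ i, 0 ≤ (if γ i ≤ Y then 0 else m i / (γ i) ^ 2) ∧
      (if γ i ≤ Y then 0 else m i / (γ i) ^ 2) ≤ m i / (γ i) ^ 2 := by
    intro i
    have hg := hZ.pos i
    have hm := hZ.one i
    have : 0 ≤ m i / (γ i) ^ 2 := by positivity
    split_ifs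
    · exact ⟨le_rfl, this⟩
    · exact ⟨this, le_rfl⟩
  have hsm : Summable (fun i => if γ i ≤ Y then 0 else m i / (γ i) ^ 2) :=
    Summable.of_nonneg_of_le (fun i => (hterm i).1) (fun i => (hterm i).2) hZ.sm
  refine (bq_sum hZ h hh).tsum_le_of_sum_le fun s => ?_
  have h3 : ∑ i ∈ s, bq γ m h i ≤ ∑ i ∈ s.filter (fun i => γ i ≤ Y), h * m i +
      ∑ i ∈ s, 4 / h * (if γ i ≤ Y then 0 else m i / (γ i) ^ 2) := by
    rw [Finset.sum_filter, ← Finset.sum_add_distrib]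
    refine Finset.sum_le_sum fun i _ => ?_
    by_cases hi : γ i ≤ Y
    · rw [if_pos hi, if_pos hi]
      have := (bq_bd hZ h hh i).2.1
      linarith
    · rw [if_neg hi, if_neg hi]
      have h4 := (bq_bd hZ h hh i).2.2
      have hg := hZ.pos i
      have h5 : 4 / h * (m i / (γ i) ^ 2) = 4 * m i / (h * (γ i) ^ 2) := by
        field_simp
      linarith
  have h6 : ∑ i ∈ s.filter (fun i => γ i ≤ Y), h * m i ≤ Real.log Y + C := by
    rw [← Finset.mul_sum]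
    have h7 := (h1 (s.filter (fun i => γ i ≤ Y)) fun i hi => (Finset.mem_filter.1 hi).2).1
    calc h * ∑ i ∈ s.filter (fun i => γ i ≤ Y), m i ≤ h * (Y * (Real.log Y + C)) :=
          mul_le_mul_of_nonneg_left h7 hh.le
      _ = Real.log Y + C := by rw [← mul_assoc, hhY, one_mul]
  have h8 : ∑ i ∈ s, 4 / h * (if γ i ≤ Y then 0 else m i / (γ i) ^ 2) ≤
      4 * (Real.log Y + C) := by
    rw [← Finset.mul_sum]
    have h9 := (hsm.sum_le_tsum s fun i _ => (hterm i).1).trans h2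
    calc 4 / h * ∑ i ∈ s, (if γ i ≤ Y then 0 else m i / (γ i) ^ 2) ≤
          4 / h * ((Real.log Y + C) / Y) := mul_le_mul_of_nonneg_left h9 (by positivity)
      _ = 4 * (Real.log Y + C) / (h * Y) := by
          field_simp
      _ = 4 * (Real.log Y + C) := by rw [hhY, div_one]
  nlinarith [mul_nonneg hC hL]

theorem T2_le (hZ : ZD γ m) : ∃ C : ℝ, 0 ≤ C ∧ ∀ h v : ℝ, 0 < h → h ≤ 1 →
    |T2 γ m h v| ≤ C * (1 + Real.log (1 / h)) := by
  obtain ⟨C, hC, hb⟩ := bq_tsum hZ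
  refine ⟨C, hC, fun h v hh hh1 => ?_⟩
  refine le_trans ?_ (hb h hh hh1)
  have h1 := tsum_of_norm_bounded (f := fun i => bq γ m h i * Real.cos (γ i * v))
    (bq_sum hZ h hh).hasSum (fun i => by
      rw [norm_mul, Real.norm_eq_abs, Real.norm_eq_abs, abs_of_nonneg (bq_bd hZ h hh i).1]
      exact mul_le_of_le_one_right (bq_bd hZ h hh i).1 (Real.abs_cos_le_one _))
  exact h1

end W3283q
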