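import Pool.Agent.W_3283e1_h19.QSch
import Pool.Agent.W_3283e1_h53.Pla

set_option autoImplicit false

namespace W3283q

open W3283l MeasureTheory

variable {ι : Type} {γ m : ι → ℝ}

theorem QL2_gint (U : ℝ) : Integrable (fun v : ℝ => Real.exp (-(v - U) ^ 2)) := by
  have h := (integrable_exp_neg_mul_sq (zero_lt_one (α := ℝ))).comp_sub_right U
  refine h.congr (ae_of_all _ fun v => ?_)
  show Real.exp (-1 * (v - U) ^ 2) = Real.exp (-(v - U) ^ 2)
  congr 1
  ring

theorem QL2_cint (x U : ℝ) :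
    Integrable (fun v : ℝ => Real.cos (x * v) * Real.exp (-(v - U) ^ 2)) := by
  refine (QL2_gint U).bdd_mul (c := 1) ?_ (ae_of_all _ fun v => ?_)
  · exact (Real.continuous_cos.comp (continuous_const.mul continuous_id)).aestronglyMeasurable
  · rw [Real.norm_eq_abs]
    exact Real.abs_cos_le_one _

theorem QL2_gau (x U : ℝ) :
    ∫ v : ℝ, Real.cos (x * v) * Real.exp (-(v - U) ^ 2) =
      Real.cos (x * U) * (Real.sqrt Real.pi * Real.exp (-x ^ 2 / 4)) := by
  have h0 : ∫ v : ℝ, Real.cos (x * v) * Real.exp (-(v - U) ^ 2) =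
      ∫ u : ℝ, Real.cos (x * (u + U)) * Real.exp (-u ^ 2) := by
    rw [← integral_sub_right_eq_self (fun u : ℝ => Real.cos (x * (u + U)) * Real.exp (-u ^ 2)) U]
    congr 1
    funext v
    congr 2
    ring
  have h1 := W3283g.gau_four 1 one_pos x
  have h2 : ∀ u : ℝ, Real.cos (x * (u + U)) * Real.exp (-u ^ 2) =
      (Complex.exp ((x * U : ℝ) * Complex.I) * ((Real.exp (-(1 * u ^ 2)) : ℂ) *
        Complex.exp (u * x * Complex.I))).re := by
    intro u
    have e1 : Complex.exp ((x * U : ℝ) * Complex.I) * ((Real.exp (-(1 * u ^ 2)) : ℂ) *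
        Complex.exp (u * x * Complex.I)) =
        ((Real.exp (-u ^ 2) : ℝ) : ℂ) * Complex.exp (((x * (u + U) : ℝ) : ℂ) * Complex.I) := by
      have e2 : Complex.exp (((x * (u + U) : ℝ) : ℂ) * Complex.I) =
          Complex.exp ((x * U : ℝ) * Complex.I) * Complex.exp (u * x * Complex.I) := by
        rw [← Complex.exp_add]
        congr 1
        push_cast
        ring
      rw [e2]
      have e3 : -(1 * u ^ 2) = -u ^ 2 := by ring
      rw [e3]
      ring
    rw [e1, Complex.re_ofReal_mul, Complex.exp_ofReal_mul_I_re]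
    ring
  have hint : Integrable (fun u : ℝ => Complex.exp ((x * U : ℝ) * Complex.I) *
      ((Real.exp (-(1 * u ^ 2)) : ℂ) * Complex.exp (u * x * Complex.I))) := by
    refine Integrable.const_mul ?_ _
    have hg : Integrable (fun u : ℝ => ((Real.exp (-(1 * u ^ 2)) : ℝ) : ℂ)) :=
      (W3283g.Pla_gint 1 one_pos).ofReal
    refine hg.mul_bdd (c := 1) ?_ (ae_of_all _ fun u => ?_)
    · have hc : Continuous fun u : ℝ => Complex.exp (u * x * Complex.I) := by fun_prop
      exact hc.aestronglyMeasurable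
    · rw [← Complex.ofReal_mul, Complex.norm_exp_ofReal_mul_I]
  rw [h0, integral_congr_ae (ae_of_all _ h2)]
  have h3 := integral_re hint
  have h4 : ∫ u : ℝ, (Complex.exp ((x * U : ℝ) * Complex.I) * ((Real.exp (-(1 * u ^ 2)) : ℂ) *
        Complex.exp (u * x * Complex.I))).re =
      (∫ u : ℝ, Complex.exp ((x * U : ℝ) * Complex.I) * ((Real.exp (-(1 * u ^ 2)) : ℂ) *
        Complex.exp (u * x * Complex.I))).re := h3
  rw [h4, integral_const_mul, h1, mul_comm, Complex.re_ofReal_mul, Complex.exp_ofReal_mul_I_re,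
    mul_comm]
  rw [div_one, mul_one, neg_div]

theorem QL2_expand (s : Finset ι) (b : ι → ℝ) (g : ι → ℝ) (v : ℝ) :
    (∑ i ∈ s, b i * Real.cos (g i * v)) ^ 2 ≤
      ∑ i ∈ s, ∑ k ∈ s, b i * b k * Real.cos ((g i - g k) * v) := by
  have h1 : ∑ i ∈ s, ∑ k ∈ s, b i * b k * Real.cos ((g i - g k) * v) =
      (∑ i ∈ s, b i * Real.cos (g i * v)) ^ 2 + (∑ i ∈ s, b i * Real.sin (g i * v)) ^ 2 := by
    rw [sq, sq, Finset.sum_mul_sum, Finset.sum_mul_sum, ← Finset.sum_add_distrib]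
    refine Finset.sum_congr rfl fun i _ => ?_
    rw [← Finset.sum_add_distrib]
    refine Finset.sum_congr rfl fun k _ => ?_
    rw [sub_mul, Real.cos_sub]
    ring
  rw [h1]
  have := sq_nonneg (∑ i ∈ s, b i * Real.sin (g i * v))
  linarith

/-- Finite cosine sums with nonnegative coefficients: on `[U, U+1]` compare with the Gaussian weight
`e · exp (-(v-U)²) ≥ 1`; `∫ |Σ b exp (iγv)|² exp (-(v-U)²) dv = Σ Σ b b' cos ((γ-γ')U) √π exp (-(γ-γ')²/4)`
(`W3283g.gau_four` with `δ = 1`), and `|cos| ≤ 1`. -/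
theorem cos_sq (s : Finset ι) (b : ι → ℝ) (hb : ∀ i ∈ s, 0 ≤ b i) (g : ι → ℝ) (U : ℝ) :
    ∫ v in Set.Icc U (U + 1), (∑ i ∈ s, b i * Real.cos (g i * v)) ^ 2 ≤
      6 * ∑ i ∈ s, ∑ k ∈ s, b i * b k * Real.exp (-(g i - g k) ^ 2 / 4) := by
  set F : ℝ → ℝ := fun v => ∑ i ∈ s, ∑ k ∈ s, b i * b k *
    (Real.cos ((g i - g k) * v) * Real.exp (-(v - U) ^ 2)) with hF
  have hFi : Integrable F := by
    refine integrable_finsetSum _ fun i _ => integrable_finsetSum _ fun k _ => ?_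
    exact (QL2_cint (g i - g k) U).const_mul _
  have hFe : ∀ v, F v = (∑ i ∈ s, ∑ k ∈ s, b i * b k * Real.cos ((g i - g k) * v)) *
      Real.exp (-(v - U) ^ 2) := by
    intro v
    simp only [hF, Finset.sum_mul]
    refine Finset.sum_congr rfl fun i _ => Finset.sum_congr rfl fun k _ => ?_
    ring
  have hF0 : ∀ v, 0 ≤ F v := by
    intro v
    rw [hFe]
    exact mul_nonneg ((sq_nonneg _).trans (QL2_expand s b g v)) (Real.exp_pos _).le
  have hFv : ∫ v, F v = ∑ i ∈ s, ∑ k ∈ s, b i * b k *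
      (Real.cos ((g i - g k) * U) * (Real.sqrt Real.pi * Real.exp (-(g i - g k) ^ 2 / 4))) := by
    simp only [hF]
    rw [integral_finsetSum _ fun i _ => integrable_finsetSum _ fun k _ =>
      (QL2_cint (g i - g k) U).const_mul _]
    refine Finset.sum_congr rfl fun i _ => ?_
    rw [integral_finsetSum _ fun k _ => (QL2_cint (g i - g k) U).const_mul _]
    refine Finset.sum_congr rfl fun k _ => ?_
    rw [integral_const_mul, QL2_gau]
  have hpt : ∀ v ∈ Set.Icc U (U + 1), (∑ i ∈ s, b i * Real.cos (g i * v)) ^ 2 ≤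
      Real.exp 1 * F v := by
    intro v hv
    have h1 : 1 ≤ Real.exp 1 * Real.exp (-(v - U) ^ 2) := by
      rw [← Real.exp_add]
      refine Real.one_le_exp ?_
      have h2 : 0 ≤ v - U := by linarith [hv.1]
      have h3 : v - U ≤ 1 := by linarith [hv.2]
      have h4 : (v - U) ^ 2 ≤ 1 := pow_le_one₀ h2 h3
      linarith
    rw [hFe]
    have h5 := QL2_expand s b g v
    have h6 : 0 ≤ (∑ i ∈ s, b i * Real.cos (g i * v)) ^ 2 := sq_nonneg _
    set E := ∑ i ∈ s, ∑ k ∈ s, b i * b k * Real.cos ((g i - g k) * v)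
    have h7 : E * 1 ≤ E * (Real.exp 1 * Real.exp (-(v - U) ^ 2)) :=
      mul_le_mul_of_nonneg_left h1 (h6.trans h5)
    calc _ ≤ E := h5
      _ = E * 1 := (mul_one _).symm
      _ ≤ _ := h7
      _ = _ := by ring
  have hcont : Continuous fun v : ℝ => (∑ i ∈ s, b i * Real.cos (g i * v)) ^ 2 := by fun_prop
  have h1 : ∫ v in Set.Icc U (U + 1), (∑ i ∈ s, b i * Real.cos (g i * v)) ^ 2 ≤
      ∫ v in Set.Icc U (U + 1), Real.exp 1 * F v := by
    refine setIntegral_mono_on ?_ ?_ measurableSet_Icc hpt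
    · exact hcont.integrableOn_Icc
    · exact (hFi.const_mul _).integrableOn
  have h2 : ∫ v in Set.Icc U (U + 1), Real.exp 1 * F v ≤ ∫ v, Real.exp 1 * F v :=
    setIntegral_le_integral (hFi.const_mul _)
      (ae_of_all _ fun v => mul_nonneg (Real.exp_pos _).le (hF0 v))
  have h2e : ∫ v, Real.exp 1 * F v = Real.exp 1 * ∫ v, F v := integral_const_mul _ _
  rw [h2e, hFv] at h2
  refine (h1.trans h2).trans ?_
  have hse : Real.exp 1 * Real.sqrt Real.pi ≤ 6 := by
    have a1 : Real.exp 1 ≤ 2.7182818286 := Real.exp_one_lt_d9.le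
    have a2 : Real.sqrt Real.pi ≤ 2 := by
      rw [Real.sqrt_le_left (by norm_num)]
      have := Real.pi_lt_four
      linarith
    calc Real.exp 1 * Real.sqrt Real.pi ≤ 2.7182818286 * 2 :=
          mul_le_mul a1 a2 (Real.sqrt_nonneg _) (by norm_num)
      _ ≤ 6 := by norm_num
  rw [Finset.mul_sum, Finset.mul_sum]
  refine Finset.sum_le_sum fun i hi => ?_
  rw [Finset.mul_sum, Finset.mul_sum]
  refine Finset.sum_le_sum fun k hk => ?_
  have hbb : 0 ≤ b i * b k * Real.exp (-(g i - g k) ^ 2 / 4) :=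
    mul_nonneg (mul_nonneg (hb i hi) (hb k hk)) (Real.exp_pos _).le
  have hc : Real.cos ((g i - g k) * U) ≤ 1 := Real.cos_le_one _
  have h8 : 0 ≤ Real.exp 1 * Real.sqrt Real.pi := by positivity
  calc Real.exp 1 * (b i * b k * (Real.cos ((g i - g k) * U) *
        (Real.sqrt Real.pi * Real.exp (-(g i - g k) ^ 2 / 4)))) =
      (Real.exp 1 * Real.sqrt Real.pi) * (b i * b k * Real.exp (-(g i - g k) ^ 2 / 4)) *
        Real.cos ((g i - g k) * U) := by ring
    _ ≤ (Real.exp 1 * Real.sqrt Real.pi) * (b i * b k * Real.exp (-(g i - g k) ^ 2 / 4)) * 1 :=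
        mul_le_mul_of_nonneg_left hc (mul_nonneg h8 hbb)
    _ = (Real.exp 1 * Real.sqrt Real.pi) * (b i * b k * Real.exp (-(g i - g k) ^ 2 / 4)) :=
        mul_one _
    _ ≤ 6 * (b i * b k * Real.exp (-(g i - g k) ^ 2 / 4)) :=
        mul_le_mul_of_nonneg_right hse hbb

theorem QL2_cont (hZ : ZD γ m) (h : ℝ) (hh : 0 < h) : Continuous (T2 γ m h) := by
  unfold T2
  refine continuous_tsum (u := bq γ m h) (fun i => by fun_prop) (bq_sum hZ h hh) fun i v => ?_
  rw [norm_mul, Real.norm_eq_abs, Real.norm_eq_abs, abs_of_nonneg (bq_bd hZ h hh i).1]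
  exact mul_le_of_le_one_right (bq_bd hZ h hh i).1 (Real.abs_cos_le_one _)

theorem QL2_tail (hZ : ZD γ m) (h : ℝ) (hh : 0 < h) (s : Finset ι) (v : ℝ) :
    |T2 γ m h v - ∑ i ∈ s, bq γ m h i * Real.cos (γ i * v)| ≤
      ∑' i, bq γ m h i - ∑ i ∈ s, bq γ m h i := by
  have hb := bq_sum hZ h hh
  have hbc : Summable fun i => bq γ m h i * Real.cos (γ i * v) := by
    refine Summable.of_norm_bounded hb fun i => ?_
    rw [norm_mul, Real.norm_eq_abs, Real.norm_eq_abs, abs_of_nonneg (bq_bd hZ h hh i).1]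
    exact mul_le_of_le_one_right (bq_bd hZ h hh i).1 (Real.abs_cos_le_one _)
  have e1 := hbc.sum_add_tsum_subtype_compl s
  have e2 := hb.sum_add_tsum_subtype_compl s
  have hbs : Summable fun x : {x // x ∉ s} => bq γ m h x := hb.subtype _
  have e3 : T2 γ m h v - ∑ i ∈ s, bq γ m h i * Real.cos (γ i * v) =
      ∑' x : {x // x ∉ s}, bq γ m h x * Real.cos (γ x * v) := by
    unfold T2
    rw [← e1]
    ring
  have e4 : ∑' i, bq γ m h i - ∑ i ∈ s, bq γ m h i = ∑' x : {x // x ∉ s}, bq γ m h x := by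
    rw [← e2]
    ring
  rw [e3, e4]
  refine tsum_of_norm_bounded (f := fun x : {x // x ∉ s} => bq γ m h x * Real.cos (γ x * v))
    hbs.hasSum fun x => ?_
  rw [norm_mul, Real.norm_eq_abs, Real.norm_eq_abs, abs_of_nonneg (bq_bd hZ h hh x).1]
  exact mul_le_of_le_one_right (bq_bd hZ h hh x).1 (Real.abs_cos_le_one _)

/-- The finite partial sums converge uniformly to `T2` (`bq_sum`); `bq_schur`. -/
theorem T2_sq (hZ : ZD γ m) (hL : LC γ m) : ∃ C : ℝ, 0 ≤ C ∧ ∀ h U : ℝ, 0 < h → h ≤ 1 →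
    ∫ v in Set.Icc U (U + 1), (T2 γ m h v) ^ 2 ≤ C * (h * (1 + Real.log (1 / h)) ^ 2) := by
  obtain ⟨C, hC, hs⟩ := bq_schur hZ hL
  refine ⟨6 * C, by positivity, fun h U hh hh1 => ?_⟩
  have hb := bq_sum hZ h hh
  have hb0 : ∀ i, 0 ≤ bq γ m h i := fun i => (bq_bd hZ h hh i).1
  set B : ℝ := ∑' i, bq γ m h i with hB
  have hB0 : 0 ≤ B := tsum_nonneg hb0
  refine le_of_forall_pos_le_add fun ε hε => ?_
  have hε' : 0 < ε / (2 * B + 1) := by positivity
  obtain ⟨s, hs1⟩ : ∃ s : Finset ι, B - ∑ i ∈ s, bq γ m h i < ε / (2 * B + 1) := by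
    have h1 := (hb.hasSum.eventually (lt_mem_nhds (show B - ε / (2 * B + 1) < B by linarith)))
    obtain ⟨s, hs⟩ := h1.exists
    exact ⟨s, by linarith⟩
  set P : ℝ → ℝ := fun v => ∑ i ∈ s, bq γ m h i * Real.cos (γ i * v) with hP
  have hPc : Continuous P := by
    simp only [hP]
    fun_prop
  have hT := QL2_cont hZ h hh
  have hPB : ∀ v, |P v| ≤ B := by
    intro v
    refine (Finset.abs_sum_le_sum_abs _ _).trans ?_
    refine (Finset.sum_le_sum fun i _ => ?_).trans (hb.sum_le_tsum s fun i _ => hb0 i)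
    rw [abs_mul, abs_of_nonneg (hb0 i)]
    exact mul_le_of_le_one_right (hb0 i) (Real.abs_cos_le_one _)
  have hTB : ∀ v, |T2 γ m h v| ≤ B := by
    intro v
    have h1 := QL2_tail hZ h hh ∅ v
    simpa using h1
  have hpt : ∀ v, (T2 γ m h v) ^ 2 ≤ (P v) ^ 2 + ε := by
    intro v
    have h1 := QL2_tail hZ h hh s v
    have h2 : |T2 γ m h v - P v| ≤ ε / (2 * B + 1) := h1.trans hs1.le
    have h3 : |T2 γ m h v + P v| ≤ 2 * B :=
      (abs_add_le _ _).trans (by linarith [hPB v, hTB v])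
    have h4 : (T2 γ m h v) ^ 2 - (P v) ^ 2 = (T2 γ m h v - P v) * (T2 γ m h v + P v) := by ring
    have h5 : |(T2 γ m h v - P v) * (T2 γ m h v + P v)| ≤ ε / (2 * B + 1) * (2 * B) := by
      rw [abs_mul]
      exact mul_le_mul h2 h3 (abs_nonneg _) hε'.le
    have h6 : ε / (2 * B + 1) * (2 * B) ≤ ε := by
      rw [div_mul_eq_mul_div, div_le_iff₀ (by positivity)]
      have : 0 ≤ ε * 1 := by linarith
      linarith
    have h7 := le_abs_self ((T2 γ m h v - P v) * (T2 γ m h v + P v))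
    linarith
  have h1 : ∫ v in Set.Icc U (U + 1), (T2 γ m h v) ^ 2 ≤
      ∫ v in Set.Icc U (U + 1), ((P v) ^ 2 + ε) := by
    refine setIntegral_mono_on ?_ ?_ measurableSet_Icc fun v _ => hpt v
    · exact (hT.pow 2).integrableOn_Icc
    · exact ((hPc.pow 2).add continuous_const).integrableOn_Icc
  have h2 : ∫ v in Set.Icc U (U + 1), ((P v) ^ 2 + ε) =
      (∫ v in Set.Icc U (U + 1), (P v) ^ 2) + ε := by
    have hP2 : IntegrableOn (fun v => (P v) ^ 2) (Set.Icc U (U + 1)) :=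
      (hPc.pow 2).integrableOn_Icc
    have hE : IntegrableOn (fun _ : ℝ => ε) (Set.Icc U (U + 1)) :=
      continuous_const.integrableOn_Icc
    have ha : ∫ v in Set.Icc U (U + 1), ((P v) ^ 2 + ε) =
        (∫ v in Set.Icc U (U + 1), (P v) ^ 2) + ∫ _ in Set.Icc U (U + 1), ε :=
      integral_add (f := fun v => (P v) ^ 2) (g := fun _ => ε) hP2 hE
    rw [ha, setIntegral_const, Real.volume_real_Icc_of_le (by linarith)]
    simp
  have h3 := cos_sq s (bq γ m h) (fun i _ => hb0 i) γ U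
  have h4 := hs h hh hh1 s
  rw [h2] at h1
  refine h1.trans ?_
  have h5 : ∫ v in Set.Icc U (U + 1), (P v) ^ 2 ≤ 6 * C * (h * (1 + Real.log (1 / h)) ^ 2) := by
    refine h3.trans ?_
    rw [mul_assoc]
    exact mul_le_mul_of_nonneg_left h4 (by norm_num)
  linarith

end W3283q
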