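import Pool.Agent.W_3283e1_h19.QDef

set_option autoImplicit false

namespace W3283q

open W3283l MeasureTheory Filter Topology

theorem QLim_loc (B : ℝ → ℝ) (hB : ∀ b : ℝ, IntegrableOn B (Set.Ioc 0 b)) :
    LocallyIntegrable ((Set.Ioi (0 : ℝ)).indicator B) volume := by
  intro x
  refine ⟨Set.Iio (x + 1), Iio_mem_nhds (by linarith), ?_⟩
  rw [IntegrableOn, integrable_indicator_iff measurableSet_Ioi, IntegrableOn,
    Measure.restrict_restrict measurableSet_Ioi]
  refine (hB (x + 1)).mono_set ?_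
  rintro y ⟨h1, h2⟩
  exact ⟨h1, le_of_lt h2⟩

/-- Lebesgue differentiation (`IsUnifLocDoublingMeasure.ae_tendsto_average` with the balls
`closedBall (u + h/2) (h/2) = [u, u+h]`). -/
theorem mean_lim (B : ℝ → ℝ) (hB : ∀ b : ℝ, IntegrableOn B (Set.Ioc 0 b)) :
    ∀ᵐ u ∂(volume.restrict (Set.Ioi (0 : ℝ))),
      Tendsto (fun j : ℕ => ((1 / 2 : ℝ) ^ j)⁻¹ * ∫ t in Set.Ioc u (u + (1 / 2) ^ j), B t) atTop
        (𝓝 (B u)) := by
  have h1 := IsUnifLocDoublingMeasure.ae_tendsto_average (μ := (volume : Measure ℝ))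
    (QLim_loc B hB) 1
  rw [ae_restrict_iff' measurableSet_Ioi]
  filter_upwards [h1] with u hu hu0
  have hu0' : (0 : ℝ) < u := hu0
  have hd : Tendsto (fun j : ℕ => (1 / 2 : ℝ) ^ j / 2) atTop (𝓝[>] 0) := by
    rw [tendsto_nhdsWithin_iff]
    constructor
    · have h2 := (tendsto_pow_atTop_nhds_zero_of_lt_one (r := (1 / 2 : ℝ)) (by norm_num)
        (by norm_num)).div_const 2
      rwa [zero_div] at h2
    · exact Eventually.of_forall fun j => by
        change (0 : ℝ) < (1 / 2 : ℝ) ^ j / 2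
        positivity
  have h2 := hu (fun j : ℕ => u + (1 / 2 : ℝ) ^ j / 2) (fun j : ℕ => (1 / 2 : ℝ) ^ j / 2) hd
    (Eventually.of_forall fun j => by
      rw [Metric.mem_closedBall, Real.dist_eq, one_mul]
      have h3 : (0 : ℝ) < (1 / 2 : ℝ) ^ j / 2 := by positivity
      rw [abs_le]
      constructor <;> linarith)
  have h3 : (Set.Ioi (0 : ℝ)).indicator B u = B u := Set.indicator_of_mem hu0 B
  rw [h3] at h2
  refine h2.congr fun j => ?_
  have hj : (0 : ℝ) < (1 / 2 : ℝ) ^ j := by positivity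
  have h4 : Metric.closedBall (u + (1 / 2 : ℝ) ^ j / 2) ((1 / 2 : ℝ) ^ j / 2) =
      Set.Icc u (u + (1 / 2 : ℝ) ^ j) := by
    rw [Real.closedBall_eq_Icc]
    congr 1 <;> ring
  rw [h4, setAverage_eq, integral_Icc_eq_integral_Ioc]
  have h5 : volume.real (Set.Icc u (u + (1 / 2 : ℝ) ^ j)) = (1 / 2 : ℝ) ^ j := by
    rw [Real.volume_real_Icc_of_le (by linarith)]
    ring
  rw [h5, smul_eq_mul]
  congr 1
  refine setIntegral_congr_fun measurableSet_Ioc fun t ht => ?_
  exact Set.indicator_of_mem (show (0 : ℝ) < t from hu0'.trans ht.1) B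

end W3283q
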