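import Pool.Agent.W_3283e1_h19.QDiff
import Pool.Agent.W_3283e1_h19.QL2
import Pool.Agent.W_3283e1_h19.QLim

set_option autoImplicit false

namespace W3283q

open W3283l MeasureTheory Filter Topology

variable {ι : Type} {γ m : ι → ℝ}

/-- The means are differences of a continuous function. -/
theorem QConc_prim (hZ : ZD γ m) (A : ℝ → ℝ) (hA : EF γ m A) : ∃ G : ℝ → ℝ, Continuous G ∧
    ∀ h u : ℝ, 0 < h → 0 ≤ u → Mn A h u = h⁻¹ * (G (u + h) - G u) := by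
  obtain ⟨c3, hc⟩ := I_eq A hA
  refine ⟨fun u => (∑' i, 2 * m i / (γ i) ^ 2 * (1 - Real.cos (γ i * u))) + c3 * u, ?_, ?_⟩
  · refine Continuous.add ?_ (continuous_const.mul continuous_id)
    refine continuous_tsum (u := fun i => 4 * (m i / (γ i) ^ 2)) (fun i => by fun_prop)
      (hZ.sm.mul_left 4) (fun i u => ?_)
    have hg := hZ.pos i
    have hm := hZ.one i
    have hm0 : 0 < m i := by linarith
    have h1 : |1 - Real.cos (γ i * u)| ≤ 2 := by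
      rw [abs_le]
      constructor <;> linarith [Real.cos_le_one (γ i * u), Real.neg_one_le_cos (γ i * u)]
    rw [Real.norm_eq_abs, abs_mul, abs_of_nonneg (by positivity : (0 : ℝ) ≤ 2 * m i / (γ i) ^ 2)]
    calc 2 * m i / (γ i) ^ 2 * |1 - Real.cos (γ i * u)| ≤ 2 * m i / (γ i) ^ 2 * 2 :=
          mul_le_mul_of_nonneg_left h1 (by positivity)
      _ = 4 * (m i / (γ i) ^ 2) := by ring
  · intro h u hh hu
    have hint : ∀ b : ℝ, IntegrableOn (fun t => A t + om t) (Set.Ioc 0 b) := fun b =>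
      (A_int A hA 0 b le_rfl).add (om_int.mono_set Set.Ioc_subset_Ioi_self)
    have hun : Set.Ioc 0 u ∪ Set.Ioc u (u + h) = Set.Ioc 0 (u + h) :=
      Set.Ioc_union_Ioc_eq_Ioc hu (by linarith)
    have h1 : ∫ t in Set.Ioc 0 (u + h), (A t + om t) =
        (∫ t in Set.Ioc 0 u, (A t + om t)) + ∫ t in Set.Ioc u (u + h), (A t + om t) := by
      rw [← hun]
      refine setIntegral_union (Set.Ioc_disjoint_Ioc_of_le le_rfl) measurableSet_Ioc (hint u) ?_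
      exact (hint (u + h)).mono_set (Set.Ioc_subset_Ioc_left hu)
    rw [hc u hu, hc (u + h) (by linarith)] at h1
    unfold Mn
    congr 1
    linarith

theorem QConc_cont (hZ : ZD γ m) (A : ℝ → ℝ) (hA : EF γ m A) (h U : ℝ) (hh : 0 < h)
    (hU : 0 ≤ U) : ContinuousOn (fun u => Mn A h u) (Set.Icc U (U + 1)) := by
  obtain ⟨G, hG, hM⟩ := QConc_prim hZ A hA
  have h1 : Continuous (fun u => h⁻¹ * (G (u + h) - G u)) := by fun_prop
  exact h1.continuousOn.congr (fun u hu => hM h u hh (hU.trans hu.1))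

theorem QConc_half (j : ℕ) : 0 < ((1 : ℝ) / 2) ^ j ∧ ((1 : ℝ) / 2) ^ j ≤ 1 :=
  ⟨by positivity, pow_le_one₀ (by norm_num) (by norm_num)⟩

theorem QConc_log (j : ℕ) : 0 ≤ 1 + Real.log (1 / ((1 : ℝ) / 2) ^ j) ∧
    1 + Real.log (1 / ((1 : ℝ) / 2) ^ j) ≤ (j : ℝ) + 1 := by
  have h1 : (1 : ℝ) / ((1 : ℝ) / 2) ^ j = 2 ^ j := by
    rw [one_div, one_div, inv_pow, inv_inv]
  rw [h1, Real.log_pow]
  have h2 : (0 : ℝ) ≤ j := Nat.cast_nonneg j
  have h3 : Real.log 2 ≤ 1 := by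
    have := Real.log_two_lt_d9
    linarith
  have h4 : 0 ≤ Real.log 2 := Real.log_nonneg (by norm_num)
  constructor
  · positivity
  · nlinarith

theorem QConc_step (hZ : ZD γ m) (A : ℝ → ℝ) (hA : EF γ m A) (j : ℕ) (u : ℝ) (hu : 0 ≤ u) :
    Mn A ((1 / 2) ^ (j + 1)) u - Mn A ((1 / 2) ^ j) u =
      -T2 γ m ((1 / 2) ^ (j + 1)) (u + (1 / 2) ^ (j + 1)) := by
  have h1 := Mn_diff hZ A hA u ((1 / 2) ^ (j + 1)) hu (QConc_half _).1
  have h2 : (2 : ℝ) * (1 / 2) ^ (j + 1) = (1 / 2) ^ j := by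
    rw [pow_succ]
    ring
  rw [h2] at h1
  exact h1

theorem QConc_sq (hZ : ZD γ m) (hL : LC γ m) (A : ℝ → ℝ) (hA : EF γ m A) : ∃ C : ℝ, 0 ≤ C ∧
    ∀ (j : ℕ) (U : ℝ), 0 ≤ U →
      ∫ u in Set.Icc U (U + 1), (Mn A ((1 / 2) ^ (j + 1)) u - Mn A ((1 / 2) ^ j) u) ^ 2 ≤
        C * ((1 / 2) ^ j * ((j : ℝ) + 2) ^ 2) := by
  obtain ⟨C, hC, h⟩ := T2_sq hZ hL
  refine ⟨C, hC, fun j U hU => ?_⟩
  obtain ⟨h0, h1⟩ := QConc_half (j + 1)
  have h2 : ∫ u in Set.Icc U (U + 1), (Mn A ((1 / 2) ^ (j + 1)) u - Mn A ((1 / 2) ^ j) u) ^ 2 =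
      ∫ u in Set.Icc U (U + 1), (T2 γ m ((1 / 2) ^ (j + 1)) (u + (1 / 2) ^ (j + 1))) ^ 2 := by
    refine setIntegral_congr_fun measurableSet_Icc (fun u hu => ?_)
    rw [QConc_step hZ A hA j u (hU.trans hu.1), neg_sq]
  have h3 : ∫ u in Set.Icc U (U + 1), (T2 γ m ((1 / 2) ^ (j + 1)) (u + (1 / 2) ^ (j + 1))) ^ 2 =
      ∫ v in Set.Icc (U + (1 / 2) ^ (j + 1)) ((U + (1 / 2) ^ (j + 1)) + 1),
        (T2 γ m ((1 / 2) ^ (j + 1)) v) ^ 2 := by
    rw [integral_Icc_eq_integral_Ioc, integral_Icc_eq_integral_Ioc,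
      ← intervalIntegral.integral_of_le (by linarith),
      ← intervalIntegral.integral_of_le (by linarith),
      intervalIntegral.integral_comp_add_right (fun v => (T2 γ m ((1 / 2) ^ (j + 1)) v) ^ 2)]
    congr 1
    ring
  rw [h2, h3]
  refine (h ((1 / 2) ^ (j + 1)) (U + (1 / 2) ^ (j + 1)) h0 h1).trans ?_
  refine mul_le_mul_of_nonneg_left ?_ hC
  obtain ⟨k1, k2⟩ := QConc_log (j + 1)
  have k3 : ((j + 1 : ℕ) : ℝ) + 1 = (j : ℝ) + 2 := by
    push_cast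
    ring
  rw [k3] at k2
  have h4 : ((1 : ℝ) / 2) ^ (j + 1) ≤ (1 / 2) ^ j :=
    pow_le_pow_of_le_one (by norm_num) (by norm_num) (Nat.le_succ j)
  exact mul_le_mul h4 (pow_le_pow_left₀ k1 k2 2) (by positivity) (by positivity)

theorem QConc_geo (n : ℕ) : ∑ k ∈ Finset.range n, ((3 : ℝ) / 4) ^ k ≤ 4 := by
  have h1 : Summable (fun k : ℕ => ((3 : ℝ) / 4) ^ k) :=
    summable_geometric_of_lt_one (by norm_num) (by norm_num)
  have h2 := h1.sum_le_tsum (Finset.range n) (fun k _ => by positivity)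
  rw [tsum_geometric_of_lt_one (by norm_num) (by norm_num)] at h2
  norm_num at h2
  exact h2

theorem QConc_ser : ∃ S : ℝ, 0 ≤ S ∧
    ∀ n : ℕ, ∑ k ∈ Finset.range n, ((2 : ℝ) / 3) ^ k * ((k : ℝ) + 2) ^ 2 ≤ S := by
  have hs : ∀ r : ℕ, Summable (fun k : ℕ => (k : ℝ) ^ r * ((2 : ℝ) / 3) ^ k) := fun r =>
    summable_pow_mul_geometric_of_norm_lt_one r (by rw [Real.norm_eq_abs]; norm_num [abs_lt])
  have h1 : Summable (fun k : ℕ => ((2 : ℝ) / 3) ^ k * ((k : ℝ) + 2) ^ 2) := by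
    refine (((hs 2).add ((hs 1).mul_left 4)).add ((hs 0).mul_left 4)).congr (fun k => ?_)
    ring
  refine ⟨∑' k : ℕ, ((2 : ℝ) / 3) ^ k * ((k : ℝ) + 2) ^ 2,
    tsum_nonneg (fun k => by positivity), fun n => ?_⟩
  exact h1.sum_le_tsum (Finset.range n) (fun k _ => by positivity)

/-- `|Mn (2^-J) u| ≤ C (J+1)²`: `Mn_one`, `Mn_diff`, `T2_le`, `log 2^(j+1) ≤ j+1`. -/
theorem Mn_pow (hZ : ZD γ m) (A : ℝ → ℝ) (hA : EF γ m A) : ∃ C : ℝ, 0 ≤ C ∧
    ∀ (J : ℕ) (u : ℝ), 0 ≤ u → |Mn A ((1 / 2) ^ J) u| ≤ C * ((J : ℝ) + 1) ^ 2 := by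
  obtain ⟨C1, hC1, h1⟩ := Mn_one hZ A hA
  obtain ⟨C2, hC2, h2⟩ := T2_le hZ
  refine ⟨C1 + C2, by positivity, fun J u hu => ?_⟩
  induction J with
  | zero =>
    rw [pow_zero]
    refine (h1 u hu).trans ?_
    simp only [CharP.cast_eq_zero, zero_add, one_pow, mul_one]
    linarith
  | succ J ih =>
    have h3 := QConc_step hZ A hA J u hu
    obtain ⟨k0, k1⟩ := QConc_half (J + 1)
    have h4 := h2 ((1 / 2) ^ (J + 1)) (u + (1 / 2) ^ (J + 1)) k0 k1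
    obtain ⟨k2, k3⟩ := QConc_log (J + 1)
    have h5 : |Mn A ((1 / 2) ^ (J + 1)) u| ≤ |Mn A ((1 / 2) ^ J) u| +
        |T2 γ m ((1 / 2) ^ (J + 1)) (u + (1 / 2) ^ (J + 1))| := by
      have h6 : Mn A ((1 / 2) ^ (J + 1)) u = Mn A ((1 / 2) ^ J) u +
          -T2 γ m ((1 / 2) ^ (J + 1)) (u + (1 / 2) ^ (J + 1)) := by
        rw [← h3]
        ring
      rw [h6]
      refine (abs_add_le _ _).trans ?_
      rw [abs_neg]
    have h7 : C2 * (1 + Real.log (1 / (1 / 2) ^ (J + 1))) ≤ C2 * (((J + 1 : ℕ) : ℝ) + 1) :=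
      mul_le_mul_of_nonneg_left k3 hC2
    push_cast at h7 ⊢
    have hJ : (0 : ℝ) ≤ J := Nat.cast_nonneg J
    nlinarith [mul_nonneg hC1 hJ, mul_nonneg hC2 hJ]

/-- `‖Mn (2^-N) - Mn (2^-J)‖² ≤ C (J+1)² 2^-J` in `L²[U, U+1]` for `J ≤ N`: `Mn_diff`, `T2_sq` at
`[U+h, U+h+1]`, and Cauchy-Schwarz in the form `(Σ d_j)² ≤ (Σ w_j) Σ d_j²/w_j` with `w_j = 2^{-(j-J)/2}`
or Minkowski. -/
theorem Mn_L2 (hZ : ZD γ m) (hL : LC γ m) (A : ℝ → ℝ) (hA : EF γ m A) : ∃ C : ℝ, 0 ≤ C ∧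
    ∀ (J N : ℕ) (U : ℝ), J ≤ N → 0 ≤ U →
      ∫ u in Set.Icc U (U + 1), (Mn A ((1 / 2) ^ N) u - Mn A ((1 / 2) ^ J) u) ^ 2 ≤
        C * (((J : ℝ) + 1) ^ 2 * (1 / 2) ^ J) := by
  obtain ⟨C, hC, h⟩ := QConc_sq hZ hL A hA
  obtain ⟨S, hS, hser⟩ := QConc_ser
  refine ⟨4 * (C * S), by positivity, fun J N U hJN hU => ?_⟩
  obtain ⟨n, rfl⟩ := Nat.exists_eq_add_of_le hJN
  have hpt : ∀ u : ℝ, (Mn A ((1 / 2) ^ (J + n)) u - Mn A ((1 / 2) ^ J) u) ^ 2 ≤
      ∑ k ∈ Finset.range n, (4 * ((4 : ℝ) / 3) ^ k) *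
        (Mn A ((1 / 2) ^ (J + k + 1)) u - Mn A ((1 / 2) ^ (J + k)) u) ^ 2 := by
    intro u
    have h1 : Mn A ((1 / 2) ^ (J + n)) u - Mn A ((1 / 2) ^ J) u =
        ∑ k ∈ Finset.range n,
          (Mn A ((1 / 2) ^ (J + k + 1)) u - Mn A ((1 / 2) ^ (J + k)) u) := by
      have := Finset.sum_range_sub (fun k => Mn A ((1 / 2) ^ (J + k)) u) n
      rw [add_zero] at this
      exact this.symm
    rw [h1]
    have h2 := Finset.sum_sq_le_sum_mul_sum_of_sq_le_mul (Finset.range n)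
      (r := fun k => Mn A ((1 / 2) ^ (J + k + 1)) u - Mn A ((1 / 2) ^ (J + k)) u)
      (f := fun k => ((3 : ℝ) / 4) ^ k)
      (g := fun k => ((4 : ℝ) / 3) ^ k *
        (Mn A ((1 / 2) ^ (J + k + 1)) u - Mn A ((1 / 2) ^ (J + k)) u) ^ 2)
      (fun k _ => by positivity) (fun k _ => by positivity) (fun k _ => by
        rw [← mul_assoc, ← mul_pow]
        norm_num)
    refine h2.trans ?_
    have h3 : ∑ k ∈ Finset.range n, (4 * ((4 : ℝ) / 3) ^ k) *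
        (Mn A ((1 / 2) ^ (J + k + 1)) u - Mn A ((1 / 2) ^ (J + k)) u) ^ 2 =
        4 * ∑ k ∈ Finset.range n, ((4 : ℝ) / 3) ^ k *
        (Mn A ((1 / 2) ^ (J + k + 1)) u - Mn A ((1 / 2) ^ (J + k)) u) ^ 2 := by
      rw [Finset.mul_sum]
      exact Finset.sum_congr rfl (fun k _ => by ring)
    rw [h3]
    exact mul_le_mul_of_nonneg_right (QConc_geo n) (Finset.sum_nonneg (fun k _ => by positivity))
  have hint : ∀ a b : ℕ, IntegrableOn
      (fun u => (Mn A ((1 / 2) ^ a) u - Mn A ((1 / 2) ^ b) u) ^ 2) (Set.Icc U (U + 1)) := by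
    intro a b
    have h1 := (QConc_cont hZ A hA ((1 / 2) ^ a) U (QConc_half a).1 hU).sub
      (QConc_cont hZ A hA ((1 / 2) ^ b) U (QConc_half b).1 hU)
    exact (h1.pow 2).integrableOn_Icc
  calc ∫ u in Set.Icc U (U + 1), (Mn A ((1 / 2) ^ (J + n)) u - Mn A ((1 / 2) ^ J) u) ^ 2
      ≤ ∫ u in Set.Icc U (U + 1), ∑ k ∈ Finset.range n, (4 * ((4 : ℝ) / 3) ^ k) *
        (Mn A ((1 / 2) ^ (J + k + 1)) u - Mn A ((1 / 2) ^ (J + k)) u) ^ 2 := by
        refine setIntegral_mono (hint _ _) ?_ hpt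
        exact integrable_finsetSum _ (fun k _ => (hint _ _).const_mul _)
    _ = ∑ k ∈ Finset.range n, (4 * ((4 : ℝ) / 3) ^ k) * ∫ u in Set.Icc U (U + 1),
        (Mn A ((1 / 2) ^ (J + k + 1)) u - Mn A ((1 / 2) ^ (J + k)) u) ^ 2 := by
        rw [integral_finsetSum _ (fun k _ => (hint _ _).const_mul _)]
        exact Finset.sum_congr rfl (fun k _ => integral_const_mul _ _)
    _ ≤ ∑ k ∈ Finset.range n, (4 * ((4 : ℝ) / 3) ^ k) *
        (C * ((1 / 2) ^ (J + k) * (((J + k : ℕ) : ℝ) + 2) ^ 2)) := by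
        refine Finset.sum_le_sum (fun k _ => mul_le_mul_of_nonneg_left (h (J + k) U hU) ?_)
        positivity
    _ ≤ ∑ k ∈ Finset.range n, (4 * (C * (((J : ℝ) + 1) ^ 2 * (1 / 2) ^ J))) *
        (((2 : ℝ) / 3) ^ k * ((k : ℝ) + 2) ^ 2) := by
        refine Finset.sum_le_sum (fun k _ => ?_)
        have hJ0 : (0 : ℝ) ≤ J := Nat.cast_nonneg J
        have hk0 : (0 : ℝ) ≤ k := Nat.cast_nonneg k
        have h5 : (((J + k : ℕ) : ℝ) + 2) ^ 2 ≤ (((J : ℝ) + 1) * ((k : ℝ) + 2)) ^ 2 := by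
          refine pow_le_pow_left₀ (by positivity) ?_ 2
          push_cast
          nlinarith [mul_nonneg hJ0 hk0]
        have h6 : ((4 : ℝ) / 3) ^ k * (1 / 2) ^ (J + k) = (1 / 2) ^ J * (2 / 3) ^ k := by
          rw [pow_add, mul_left_comm, ← mul_pow]
          norm_num
        calc (4 * ((4 : ℝ) / 3) ^ k) * (C * ((1 / 2) ^ (J + k) * (((J + k : ℕ) : ℝ) + 2) ^ 2))
            = (4 * C) * (((4 : ℝ) / 3) ^ k * (1 / 2) ^ (J + k)) *
              (((J + k : ℕ) : ℝ) + 2) ^ 2 := by ring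
          _ = (4 * C) * ((1 / 2) ^ J * (2 / 3) ^ k) * (((J + k : ℕ) : ℝ) + 2) ^ 2 := by
              rw [h6]
          _ ≤ (4 * C) * ((1 / 2) ^ J * (2 / 3) ^ k) * (((J : ℝ) + 1) * ((k : ℝ) + 2)) ^ 2 :=
              mul_le_mul_of_nonneg_left h5 (by positivity)
          _ = _ := by ring
    _ = (4 * (C * (((J : ℝ) + 1) ^ 2 * (1 / 2) ^ J))) *
        ∑ k ∈ Finset.range n, (((2 : ℝ) / 3) ^ k * ((k : ℝ) + 2) ^ 2) := by
        rw [Finset.mul_sum]
    _ ≤ (4 * (C * (((J : ℝ) + 1) ^ 2 * (1 / 2) ^ J))) * S :=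
        mul_le_mul_of_nonneg_left (hser n) (by positivity)
    _ = _ := by ring

/-- Fatou (`MeasureTheory.lintegral_liminf_le`) with `mean_lim`, then Chebyshev. -/
theorem conc_J (hZ : ZD γ m) (hL : LC γ m) (A : ℝ → ℝ) (hA : EF γ m A) : ∃ C : ℝ, 0 ≤ C ∧
    ∀ (J : ℕ) (U : ℝ), 0 < U →
      volume {u ∈ Set.Icc U (U + 1) | C * ((J : ℝ) + 1) ^ 2 < |A u + om u|} ≤
        ENNReal.ofReal (C * (((J : ℝ) + 1) ^ 2 * (1 / 2) ^ J)) := by
  obtain ⟨C1, hC1, h1⟩ := Mn_pow hZ A hA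
  obtain ⟨C2, hC2, h2⟩ := Mn_L2 hZ hL A hA
  refine ⟨C1 + C2 + 1, by positivity, fun J U hU => ?_⟩
  have hcont : ∀ a : ℕ, ContinuousOn (fun u => Mn A ((1 / 2) ^ a) u) (Set.Icc U (U + 1)) :=
    fun a => QConc_cont hZ A hA ((1 / 2) ^ a) U (QConc_half a).1 hU.le
  have hint : ∀ a : ℕ, IntegrableOn
      (fun u => (Mn A ((1 / 2) ^ a) u - Mn A ((1 / 2) ^ J) u) ^ 2) (Set.Icc U (U + 1)) := by
    intro a
    exact (((hcont a).sub (hcont J)).pow 2).integrableOn_Icc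
  have hmeas : ∀ a : ℕ, AEMeasurable (fun u => Mn A ((1 / 2) ^ a) u)
      (volume.restrict (Set.Icc U (U + 1))) := fun a => (hcont a).aemeasurable measurableSet_Icc
  have hB : ∀ b : ℝ, IntegrableOn (fun t => A t + om t) (Set.Ioc 0 b) := fun b =>
    (A_int A hA 0 b le_rfl).add (om_int.mono_set Set.Ioc_subset_Ioi_self)
  have hlim : ∀ᵐ u ∂(volume.restrict (Set.Icc U (U + 1))),
      Tendsto (fun j : ℕ => Mn A ((1 / 2) ^ j) u) atTop (𝓝 (A u + om u)) := by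
    refine ae_restrict_of_ae_restrict_of_subset (s := Set.Icc U (U + 1)) (t := Set.Ioi 0)
      (fun u hu => lt_of_lt_of_le hU hu.1) ?_
    exact mean_lim (fun t => A t + om t) hB
  have hfat : ∫⁻ u in Set.Icc U (U + 1),
      ENNReal.ofReal ((A u + om u - Mn A ((1 / 2) ^ J) u) ^ 2) ≤
      ENNReal.ofReal (C2 * (((J : ℝ) + 1) ^ 2 * (1 / 2) ^ J)) := by
    have e1 : ∫⁻ u in Set.Icc U (U + 1),
        ENNReal.ofReal ((A u + om u - Mn A ((1 / 2) ^ J) u) ^ 2) =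
        ∫⁻ u in Set.Icc U (U + 1), liminf (fun N : ℕ =>
          ENNReal.ofReal ((Mn A ((1 / 2) ^ N) u - Mn A ((1 / 2) ^ J) u) ^ 2)) atTop := by
      refine lintegral_congr_ae ?_
      filter_upwards [hlim] with u hu
      refine (Tendsto.liminf_eq ?_).symm
      exact ENNReal.tendsto_ofReal ((hu.sub_const _).pow 2)
    rw [e1]
    have hm2 : ∀ N : ℕ, AEMeasurable (fun u => ENNReal.ofReal
        ((Mn A ((1 / 2) ^ N) u - Mn A ((1 / 2) ^ J) u) ^ 2))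
        (volume.restrict (Set.Icc U (U + 1))) := fun N =>
      (((hmeas N).sub (hmeas J)).pow_const 2).ennreal_ofReal
    refine (lintegral_liminf_le' hm2).trans ?_
    refine (liminf_le_limsup).trans (limsup_le_of_le (h := ?_))
    filter_upwards [eventually_ge_atTop J] with N hN
    rw [← ofReal_integral_eq_lintegral_ofReal (hint N)
      (Filter.Eventually.of_forall (fun u => sq_nonneg _))]
    exact ENNReal.ofReal_le_ofReal (h2 J N U hN hU.le)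
  have hmF : AEMeasurable (fun u => ENNReal.ofReal ((A u + om u - Mn A ((1 / 2) ^ J) u) ^ 2))
      (volume.restrict (Set.Icc U (U + 1))) :=
    ((((hA.meas.add om_meas).aemeasurable).sub (hmeas J)).pow_const 2).ennreal_ofReal
  have hch := mul_meas_ge_le_lintegral₀ hmF 1
  rw [one_mul, Measure.restrict_apply' measurableSet_Icc] at hch
  have hJ0 : (0 : ℝ) ≤ J := Nat.cast_nonneg J
  calc volume {u ∈ Set.Icc U (U + 1) | (C1 + C2 + 1) * ((J : ℝ) + 1) ^ 2 < |A u + om u|}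
      ≤ volume ({u | 1 ≤ ENNReal.ofReal ((A u + om u - Mn A ((1 / 2) ^ J) u) ^ 2)} ∩
          Set.Icc U (U + 1)) := by
        refine measure_mono (fun u hu => ⟨?_, hu.1⟩)
        have hu2 : (C1 + C2 + 1) * ((J : ℝ) + 1) ^ 2 < |A u + om u| := hu.2
        have h3 := h1 J u (hU.le.trans hu.1.1)
        have h4 : 1 ≤ |A u + om u - Mn A ((1 / 2) ^ J) u| := by
          have h5 : |A u + om u| ≤ |A u + om u - Mn A ((1 / 2) ^ J) u| +
              |Mn A ((1 / 2) ^ J) u| := by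
            have := abs_add_le (A u + om u - Mn A ((1 / 2) ^ J) u) (Mn A ((1 / 2) ^ J) u)
            rwa [sub_add_cancel] at this
          have h6 : (1 : ℝ) ≤ ((J : ℝ) + 1) ^ 2 := by nlinarith
          nlinarith [mul_nonneg hC2 (sq_nonneg ((J : ℝ) + 1))]
        change 1 ≤ ENNReal.ofReal ((A u + om u - Mn A ((1 / 2) ^ J) u) ^ 2)
        rw [ENNReal.one_le_ofReal, ← sq_abs]
        exact one_le_pow₀ h4
    _ ≤ ENNReal.ofReal (C2 * (((J : ℝ) + 1) ^ 2 * (1 / 2) ^ J)) := hch.trans hfat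
    _ ≤ ENNReal.ofReal ((C1 + C2 + 1) * (((J : ℝ) + 1) ^ 2 * (1 / 2) ^ J)) := by
        refine ENNReal.ofReal_le_ofReal (mul_le_mul_of_nonneg_right (by linarith) (by positivity))

/-- Concentration: choose `J` with `C (J+1)² ≤ V < C (J+2)²` in `conc_J` (`A = (A + om) - om`,
`0 ≤ om u ≤ om 1` for `u ≥ 1`). -/
theorem conc (hZ : ZD γ m) (hL : LC γ m) (A : ℝ → ℝ) (hA : EF γ m A) : ∃ c K : ℝ, 0 < c ∧ 0 < K ∧
    ∀ U V : ℝ, 1 ≤ U → 0 ≤ V →
      volume {u ∈ Set.Icc U (U + 1) | V < |A u|} ≤ ENNReal.ofReal (K * Real.exp (-(c * Real.sqrt V))) := by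
  obtain ⟨C, hC, h⟩ := conc_J hZ hL A hA
  have hom : 0 ≤ om 1 := om_nonneg 1 one_pos
  obtain ⟨D, hD⟩ : ∃ D : ℝ, D = C + om 1 + 1 := ⟨_, rfl⟩
  have hD1 : 1 ≤ D := by rw [hD]; linarith
  have hD0 : 0 < D := by linarith
  have hsD : 0 < Real.sqrt D := Real.sqrt_pos.2 hD0
  refine ⟨1 / (4 * Real.sqrt D), 100 * (C + 1), by positivity, by positivity,
    fun U V hU hV => ?_⟩
  obtain ⟨x, hx⟩ : ∃ x : ℝ, x = Real.sqrt (V / D) := ⟨_, rfl⟩
  have hx0 : 0 ≤ x := by rw [hx]; exact Real.sqrt_nonneg _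
  have hVx : V = D * x ^ 2 := by
    rw [hx, Real.sq_sqrt (by positivity)]
    field_simp
  have hsV : 1 / (4 * Real.sqrt D) * Real.sqrt V = x / 4 := by
    rw [hVx, Real.sqrt_mul hD0.le, Real.sqrt_sq hx0]
    field_simp
  rw [hsV]
  have hexp1 : Real.exp (3 / 4) ≤ 3 := by
    have h1 : Real.exp (3 / 4) ≤ Real.exp 1 := Real.exp_le_exp.2 (by norm_num)
    have h2 := Real.exp_one_lt_d9
    linarith
  rcases Nat.eq_zero_or_pos ⌊x⌋₊ with hn | hn
  · have hx1 : x < 1 := by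
      rw [Nat.floor_eq_zero] at hn
      exact hn
    have h1 : volume {u ∈ Set.Icc U (U + 1) | V < |A u|} ≤ volume (Set.Icc U (U + 1)) :=
      measure_mono (fun u hu => hu.1)
    rw [Real.volume_Icc, add_sub_cancel_left] at h1
    refine h1.trans (ENNReal.ofReal_le_ofReal ?_)
    have h2 : Real.exp (-1) ≤ Real.exp (-(x / 4)) := Real.exp_le_exp.2 (by linarith)
    have h3 : (1 : ℝ) / 3 ≤ Real.exp (-1) := by
      rw [Real.exp_neg, ← one_div]
      exact one_div_le_one_div_of_le (Real.exp_pos 1) (by linarith [Real.exp_one_lt_d9])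
    nlinarith
  · obtain ⟨n, hn'⟩ : ∃ n : ℕ, n = ⌊x⌋₊ := ⟨_, rfl⟩
    rw [← hn'] at hn
    obtain ⟨J, rfl⟩ : ∃ J : ℕ, n = J + 1 := ⟨n - 1, by omega⟩
    have hJx : (J : ℝ) + 1 ≤ x := by
      have h1 := Nat.floor_le hx0
      rw [← hn'] at h1
      push_cast at h1
      exact h1
    have hxJ : x < (J : ℝ) + 2 := by
      have h1 := Nat.lt_floor_add_one x
      rw [← hn'] at h1
      push_cast at h1
      linarith
    have hJ0 : (0 : ℝ) ≤ J := Nat.cast_nonneg J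
    have h1 : volume {u ∈ Set.Icc U (U + 1) | V < |A u|} ≤
        volume {u ∈ Set.Icc U (U + 1) | C * ((J : ℝ) + 1) ^ 2 < |A u + om u|} := by
      refine measure_mono (fun u hu => ⟨hu.1, ?_⟩)
      have hu2 : V < |A u| := hu.2
      have hu1 : 1 ≤ u := hU.trans hu.1.1
      have k1 : om u ≤ om 1 := om_anti 1 u one_pos hu1
      have k2 : 0 ≤ om u := om_nonneg u (by linarith)
      have k3 : |A u| ≤ |A u + om u| + om u := by
        have := abs_sub (A u + om u) (om u)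
        rw [add_sub_cancel_right, abs_of_nonneg k2] at this
        exact this
      have k4 : D * ((J : ℝ) + 1) ^ 2 ≤ V := by
        rw [hVx]
        exact mul_le_mul_of_nonneg_left (pow_le_pow_left₀ (by positivity) hJx 2) hD0.le
      have k5 : (1 : ℝ) ≤ ((J : ℝ) + 1) ^ 2 := by nlinarith
      rw [hD] at k4
      nlinarith [mul_le_mul_of_nonneg_left k5 hom]
    refine (h1.trans (h J U (by linarith))).trans (ENNReal.ofReal_le_ofReal ?_)
    have h2 : ((J : ℝ) + 1) ^ 2 ≤ 32 * Real.exp (((J : ℝ) + 1) / 4) := by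
      have := Real.quadratic_le_exp_of_nonneg (x := ((J : ℝ) + 1) / 4) (by positivity)
      nlinarith
    have h3 : ((1 : ℝ) / 2) ^ J ≤ Real.exp (-((J : ℝ) / 2)) := by
      have e1 : Real.exp (-((J : ℝ) / 2)) = (Real.exp (-(1 / 2))) ^ J := by
        rw [← Real.exp_nat_mul]
        congr 1
        ring
      rw [e1]
      refine pow_le_pow_left₀ (by norm_num) ?_ J
      have := Real.add_one_le_exp (-(1 / 2) : ℝ)
      linarith
    have h4 : ((J : ℝ) + 1) ^ 2 * (1 / 2) ^ J ≤ 96 * Real.exp (-(x / 4)) := by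
      calc ((J : ℝ) + 1) ^ 2 * (1 / 2) ^ J
          ≤ (32 * Real.exp (((J : ℝ) + 1) / 4)) * Real.exp (-((J : ℝ) / 2)) :=
            mul_le_mul h2 h3 (by positivity) (by positivity)
        _ = 32 * (Real.exp (3 / 4) * Real.exp (-(((J : ℝ) + 2) / 4))) := by
            rw [mul_assoc, ← Real.exp_add, ← Real.exp_add]
            congr 2
            ring
        _ ≤ 32 * (3 * Real.exp (-(x / 4))) := by
            refine mul_le_mul_of_nonneg_left ?_ (by norm_num)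
            refine mul_le_mul hexp1 (Real.exp_le_exp.2 (by linarith)) (Real.exp_pos _).le
              (by norm_num)
        _ = 96 * Real.exp (-(x / 4)) := by ring
    calc C * (((J : ℝ) + 1) ^ 2 * (1 / 2) ^ J) ≤ C * (96 * Real.exp (-(x / 4))) :=
          mul_le_mul_of_nonneg_left h4 hC
      _ ≤ 100 * (C + 1) * Real.exp (-(x / 4)) := by
          have := Real.exp_pos (-(x / 4))
          nlinarith [mul_nonneg hC this.le]

end W3283q
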