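import Pool.Agent.W_3283e1_lw.FinB

set_option autoImplicit false

namespace W3283q

open Complex W3283e1 W3283f W3283l MeasureTheory Filter Topology

/-- Chaining short steps. -/
theorem QCrit_chain (e : ℝ → ℝ) (ε c X : ℝ) (hε : 0 < ε) (hc : 0 < c)
    (h : ∀ u a : ℝ, X ≤ u → 0 < a → a ≤ Real.exp (-(c * Real.sqrt u)) → e (u + a) - e u < ε)
    (v : ℝ) (hv : X < v) :
    e v ≤ e X + ε * ((v - X) * Real.exp (c * Real.sqrt v) + 2) := by
  set N : ℕ := ⌈(v - X) * Real.exp (c * Real.sqrt v)⌉₊ + 1 with hN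
  have hvX : 0 < v - X := by linarith
  have hE := Real.exp_pos (c * Real.sqrt v)
  have hN1 : (v - X) * Real.exp (c * Real.sqrt v) ≤ N := by
    rw [hN]
    push_cast
    have := Nat.le_ceil ((v - X) * Real.exp (c * Real.sqrt v))
    linarith
  have hN2 : (N : ℝ) ≤ (v - X) * Real.exp (c * Real.sqrt v) + 2 := by
    rw [hN]
    push_cast
    have := (Nat.ceil_lt_add_one (by positivity : 0 ≤ (v - X) * Real.exp (c * Real.sqrt v))).le
    linarith
  have hN0 : (0 : ℝ) < N := by
    rw [hN]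
    positivity
  set a : ℝ := (v - X) / N with ha
  have ha0 : 0 < a := by positivity
  have ha1 : a ≤ Real.exp (-(c * Real.sqrt v)) := by
    rw [ha, div_le_iff₀ hN0, Real.exp_neg, inv_mul_eq_div, le_div_iff₀ hE]
    exact hN1
  have hstep : ∀ i : ℕ, i ≤ N → e (X + i * a) ≤ e X + i * ε := by
    intro i
    induction i with
    | zero => intro _; simp
    | succ i ih =>
      intro hi
      have h1 := ih (by omega)
      have h2 : (0 : ℝ) ≤ i := Nat.cast_nonneg i
      have h3 : X + i * a ≤ v := by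
        have h4 : (i : ℝ) ≤ N := by exact_mod_cast (by omega : i ≤ N)
        have h5 : (i : ℝ) * a ≤ N * a := mul_le_mul_of_nonneg_right h4 ha0.le
        have h6 : (N : ℝ) * a = v - X := by
          rw [ha]
          field_simp
        linarith
      have h4 : a ≤ Real.exp (-(c * Real.sqrt (X + i * a))) := by
        refine ha1.trans (Real.exp_le_exp.2 ?_)
        have := mul_le_mul_of_nonneg_left (Real.sqrt_le_sqrt h3) hc.le
        linarith
      have h5 := h (X + i * a) a (by nlinarith) ha0 h4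
      have h6 : X + i * a + a = X + ((i + 1 : ℕ) : ℝ) * a := by
        push_cast
        ring
      rw [h6] at h5
      push_cast at h5 ⊢
      linarith
  have h1 := hstep N le_rfl
  have h2 : X + N * a = v := by
    have h6 : (N : ℝ) * a = v - X := by
      rw [ha]
      field_simp
    linarith
  rw [h2] at h1
  nlinarith

theorem QCrit_grow (c K δ : ℝ) (hδ : 0 < δ) (hK : 0 ≤ K) :
    ∃ u0 : ℝ, ∀ u : ℝ, u0 ≤ u → K * (u + 1) * (Real.exp (c * Real.sqrt u) + 1) ≤ Real.exp (δ * u) := by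
  have h1 : ∀ᶠ u : ℝ in atTop, c * Real.sqrt u ≤ δ / 4 * u := by
    have h2 : ∀ᶠ u : ℝ in atTop, max c 0 / (δ / 4) ≤ Real.sqrt u :=
      Real.tendsto_sqrt_atTop.eventually_ge_atTop _
    filter_upwards [h2, eventually_ge_atTop (0 : ℝ)] with u hu hu0
    rw [div_le_iff₀ (by positivity)] at hu
    have h3 : c ≤ Real.sqrt u * (δ / 4) := (le_max_left _ _).trans hu
    have h4 := Real.mul_self_sqrt hu0
    have h5 := mul_le_mul_of_nonneg_right h3 (Real.sqrt_nonneg u)
    nlinarith
  have h3 : ∀ᶠ u : ℝ in atTop, K * (u + 1) ≤ Real.exp (δ / 4 * u) := by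
    have h4 : Tendsto (fun u : ℝ => (u + 1) / Real.exp (δ / 4 * u)) atTop (𝓝 0) := by
      have h5 := Real.tendsto_pow_mul_exp_neg_atTop_nhds_zero 1
      have h6 : Tendsto (fun u : ℝ => δ / 4 * u) atTop atTop :=
        tendsto_id.const_mul_atTop (by positivity)
      have h7 := (h5.comp h6).const_mul (4 / δ)
      have h8 := (Real.tendsto_exp_neg_atTop_nhds_zero.comp h6)
      have h9 := h7.add h8
      rw [mul_zero, zero_add] at h9
      refine h9.congr fun u => ?_
      simp only [Function.comp_apply, pow_one]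
      rw [Real.exp_neg]
      field_simp
    have h5 := (h4.const_mul K)
    rw [mul_zero] at h5
    filter_upwards [h5.eventually_le_const (u := 1) (by norm_num)] with u hu
    rw [← mul_div_assoc, div_le_one (Real.exp_pos _)] at hu
    exact hu
  have h6 : ∀ᶠ u : ℝ in atTop, (2 : ℝ) ≤ Real.exp (δ / 4 * u) := by
    have h6 : Tendsto (fun u : ℝ => δ / 4 * u) atTop atTop :=
      tendsto_id.const_mul_atTop (by positivity)
    exact (Real.tendsto_exp_atTop.comp h6).eventually_ge_atTop 2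
  obtain ⟨u0, hu0⟩ := eventually_atTop.1 ((h1.and h3).and (h6.and (eventually_ge_atTop (0 : ℝ))))
  refine ⟨u0, fun u hu => ?_⟩
  obtain ⟨⟨h7, h8⟩, h9, h10⟩ := hu0 u hu
  have e1 : Real.exp (c * Real.sqrt u) ≤ Real.exp (δ / 4 * u) := Real.exp_le_exp.2 h7
  have e2 : Real.exp (c * Real.sqrt u) + 1 ≤ Real.exp (δ / 4 * u) * Real.exp (δ / 4 * u) := by
    have := Real.one_le_exp (by positivity : 0 ≤ δ / 4 * u)
    nlinarith
  have e3 : Real.exp (δ * u) = Real.exp (δ / 4 * u) *
      (Real.exp (δ / 4 * u) * Real.exp (δ / 4 * u)) * Real.exp (δ / 4 * u) := by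
    rw [← Real.exp_add, ← Real.exp_add, ← Real.exp_add]
    congr 1
    ring
  rw [e3]
  have e4 := Real.one_le_exp (by positivity : 0 ≤ δ / 4 * u)
  have e5 : 0 ≤ K * (u + 1) := by positivity
  have e6 : K * (u + 1) * (Real.exp (c * Real.sqrt u) + 1) ≤
      Real.exp (δ / 4 * u) * (Real.exp (δ / 4 * u) * Real.exp (δ / 4 * u)) :=
    mul_le_mul h8 e2 (by positivity) (by positivity)
  exact e6.trans (le_mul_of_one_le_right (by positivity) e4)

/-- If the Riemann hypothesis is false then there are sudden upward jumps of every size: otherwise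
`QCrit_chain` bounds `er`, hence `AA x ≤ x^δ` for every `δ > 0` and large `x`, contradiction to
`rh_gen`. -/
theorem jump_false (n j : ℕ) (hj : j = 0 ∨ j = 1) (hn : Odd n) (hs : Squarefree n) (κ : ℝ) (r : ℕ)
    (s0 : ℂ) (hs0 : 0 < s0.re) (h0 : LLF n j (1 + s0) = 0) (ε c : ℝ) (hε : 0 < ε) (hc : 0 < c)
    (X : ℝ) : ∃ u a : ℝ, X ≤ u ∧ 0 < a ∧ a ≤ Real.exp (-(c * Real.sqrt u)) ∧
      ε ≤ W3283g.er (alF n j) κ r (u + a) - W3283g.er (alF n j) κ r u := by
  by_contra hcon
  push Not at hcon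
  have hD := dataR_fam n j hj hn hs
  set e := W3283g.er (alF n j) κ r with he
  obtain ⟨X1, hX1⟩ : ∃ X1 : ℝ, X1 = max X 1 := ⟨_, rfl⟩
  have hX1X : X ≤ X1 := by rw [hX1]; exact le_max_left _ _
  have hX11 : 1 ≤ X1 := by rw [hX1]; exact le_max_right _ _
  have hch := QCrit_chain e ε c X1 hε hc (fun u a hu ha ha1 => hcon u a (hX1X.trans hu) ha ha1)
  obtain ⟨u0, hu0⟩ := QCrit_grow c (|e X1| + 2 * ε + |κ| + r) (s0.re / 2) (by positivity)
    (by positivity)
  refine rh_gen (alF n j) (LLF n j) WW hD 1 (s0.re / 2) (Real.exp (max (X1 + 1) u0)) (by positivity)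
    (Or.inl rfl) ?_ ?_ (1 + s0) ?_ h0
  · apply Real.one_le_exp
    have := le_max_left (X1 + 1) u0
    linarith
  · intro x hx
    rw [one_mul]
    have hx0 : 0 < x := (Real.exp_pos _).trans_le hx
    obtain ⟨v, hv⟩ : ∃ v : ℝ, v = Real.log x := ⟨_, rfl⟩
    have hxv : x = Real.exp v := by rw [hv, Real.exp_log hx0]
    have hvm : max (X1 + 1) u0 ≤ v := by
      rw [hv]
      exact (Real.le_log_iff_exp_le hx0).2 hx
    have hv1 : X1 + 1 ≤ v := (le_max_left _ _).trans hvm
    have hv2 : u0 ≤ v := (le_max_right _ _).trans hvm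
    have hv3 : 2 ≤ v := by linarith
    have h1 := hch v (by linarith)
    have h2 : AA (alF n j) x = e v + κ + r * Real.log v := by
      rw [he, hxv]
      unfold W3283g.er
      ring
    have h3 := hu0 v hv2
    have h4 : x ^ (s0.re / 2) = Real.exp (s0.re / 2 * v) := by
      rw [Real.rpow_def_of_pos hx0, ← hv]
      congr 1
      ring
    rw [h2, h4]
    refine le_trans ?_ h3
    have h5 := Real.log_le_sub_one_of_pos (by linarith : 0 < v)
    have h6 : (r : ℝ) * Real.log v ≤ r * (v + 1) :=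
      mul_le_mul_of_nonneg_left (by linarith) (Nat.cast_nonneg r)
    have h7 := Real.one_le_exp (mul_nonneg hc.le (Real.sqrt_nonneg v))
    have h8 := le_abs_self (e X1)
    have h9 := le_abs_self κ
    have h10 : (v - X1) * Real.exp (c * Real.sqrt v) ≤ (v + 1) * Real.exp (c * Real.sqrt v) :=
      mul_le_mul_of_nonneg_right (by linarith) (Real.exp_pos _).le
    have h11 : 0 ≤ |e X1| := abs_nonneg _
    have h12 : 0 ≤ |κ| := abs_nonneg _
    have h13 : (0 : ℝ) ≤ r := Nat.cast_nonneg r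
    set E := Real.exp (c * Real.sqrt v) with hE
    have h14 : ε * ((v - X1) * E + 2) ≤ 2 * ε * ((v + 1) * (E + 1)) := by
      have : (v - X1) * E + 2 ≤ 2 * ((v + 1) * (E + 1)) := by nlinarith
      nlinarith
    have h15 : (1 : ℝ) ≤ (v + 1) * (E + 1) := by nlinarith
    have h16 : v + 1 ≤ (v + 1) * (E + 1) := by nlinarith
    have h17 : |e X1| ≤ |e X1| * ((v + 1) * (E + 1)) := le_mul_of_one_le_right h11 h15
    have h18 : |κ| ≤ |κ| * ((v + 1) * (E + 1)) := le_mul_of_one_le_right h12 h15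
    have h19 : (r : ℝ) * (v + 1) ≤ r * ((v + 1) * (E + 1)) := mul_le_mul_of_nonneg_left h16 h13
    calc e v + κ + r * Real.log v ≤ |e X1| * ((v + 1) * (E + 1)) + 2 * ε * ((v + 1) * (E + 1)) +
          |κ| * ((v + 1) * (E + 1)) + r * ((v + 1) * (E + 1)) := by linarith
      _ = (|e X1| + 2 * ε + |κ| + r) * (v + 1) * (E + 1) := by ring
  · rw [Complex.add_re, Complex.one_re]
    linarith

end W3283q
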