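import Pool.Agent.W_3283e1_h19.QBq

set_option autoImplicit false

namespace W3283q

open W3283l MeasureTheory

variable {ι : Type} {γ m : ι → ℝ}

/-- `A` is integrable on bounded sets (`hA.meas`, `hA.bd`). -/
theorem A_int (A : ℝ → ℝ) (hA : EF γ m A) (a b : ℝ) (ha : 0 ≤ a) :
    IntegrableOn A (Set.Ioc a b) := by
  obtain ⟨C, hC⟩ := hA.bd
  have hb : IntegrableOn (fun u : ℝ => C * Real.exp (3 / 4 * u)) (Set.Ioc a b) := by
    apply Continuous.integrableOn_Ioc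
    fun_prop
  refine Integrable.mono' hb hA.meas.aestronglyMeasurable ?_
  refine (ae_restrict_iff' measurableSet_Ioc).2 (Filter.Eventually.of_forall fun u hu => ?_)
  rw [Real.norm_eq_abs]
  exact hC u (ha.trans hu.1.le)

theorem QDiff_int (A : ℝ → ℝ) (hA : EF γ m A) (a b : ℝ) (ha : 0 ≤ a) :
    IntegrableOn (fun t => A t + om t) (Set.Ioc a b) := by
  apply Integrable.add (A_int A hA a b ha)
  refine om_int.mono_set fun u hu => ?_
  exact lt_of_le_of_lt ha hu.1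

/-- The integral of `A + om` (from `hA.ex`, `om_int`). -/
theorem I_eq (A : ℝ → ℝ) (hA : EF γ m A) : ∃ c3 : ℝ, ∀ u : ℝ, 0 ≤ u →
    ∫ t in Set.Ioc 0 u, (A t + om t) =
      (∑' i, 2 * m i / (γ i) ^ 2 * (1 - Real.cos (γ i * u))) + c3 * u := by
  obtain ⟨c3, hc3⟩ := hA.ex
  refine ⟨c3, fun u hu => ?_⟩
  have h1 : ∫ t in Set.Ioc 0 u, (A t + om t) =
      (∫ t in Set.Ioc 0 u, A t) + ∫ t in Set.Ioc 0 u, om t := by
    apply integral_add (A_int A hA 0 u le_rfl)
    exact om_int.mono_set fun t ht => ht.1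
  rw [h1, hc3 u hu]
  ring

theorem QDiff_sm (hZ : ZD γ m) (u : ℝ) :
    Summable (fun i => 2 * m i / (γ i) ^ 2 * (1 - Real.cos (γ i * u))) := by
  refine Summable.of_nonneg_of_le (fun i => ?_) (fun i => ?_) (hZ.sm.mul_left 4)
  · have h1 := hZ.pos i
    have h2 := hZ.one i
    have h3 := Real.cos_le_one (γ i * u)
    have h4 : 0 ≤ 1 - Real.cos (γ i * u) := by linarith
    positivity
  · have h1 := hZ.pos i
    have h2 := hZ.one i
    have h3 := Real.neg_one_le_cos (γ i * u)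
    have h4 : 0 ≤ 2 * m i / (γ i) ^ 2 := by positivity
    have h5 : 2 * m i / (γ i) ^ 2 * (1 - Real.cos (γ i * u)) ≤ 2 * m i / (γ i) ^ 2 * 2 :=
      mul_le_mul_of_nonneg_left (by linarith) h4
    refine h5.trans (le_of_eq ?_)
    ring

/-- The integral over a short interval as a difference. -/
theorem QDiff_Ioc (A : ℝ → ℝ) (hA : EF γ m A) (u h : ℝ) (hu : 0 ≤ u) (hh : 0 ≤ h) :
    ∫ t in Set.Ioc u (u + h), (A t + om t) =
      (∫ t in Set.Ioc 0 (u + h), (A t + om t)) - ∫ t in Set.Ioc 0 u, (A t + om t) := by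
  have h1 : Set.Ioc 0 (u + h) = Set.Ioc 0 u ∪ Set.Ioc u (u + h) :=
    (Set.Ioc_union_Ioc_eq_Ioc hu (by linarith)).symm
  rw [h1, setIntegral_union (Set.Ioc_disjoint_Ioc_of_le le_rfl) measurableSet_Ioc
    (QDiff_int A hA 0 u le_rfl) (QDiff_int A hA u (u + h) hu)]
  ring

/-- `Mn h u - Mn (2h) u = -T2 h (u+h)`: second difference of `I_eq`;
`2 cos γ(u+h) - cos γu - cos γ(u+2h) = 4 sin² (γh/2) cos γ(u+h)`. -/
theorem Mn_diff (hZ : ZD γ m) (A : ℝ → ℝ) (hA : EF γ m A) (u h : ℝ) (hu : 0 ≤ u) (hh : 0 < h) :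
    Mn A h u - Mn A (2 * h) u = -T2 γ m h (u + h) := by
  obtain ⟨c3, hI⟩ := I_eq A hA
  have hs := fun v => QDiff_sm hZ v
  have h0 : T2 γ m h (u + h) = (2 * h)⁻¹ *
      ((∑' i, 2 * m i / (γ i) ^ 2 * (1 - Real.cos (γ i * u))) +
        (∑' i, 2 * m i / (γ i) ^ 2 * (1 - Real.cos (γ i * (u + 2 * h)))) -
        2 * (∑' i, 2 * m i / (γ i) ^ 2 * (1 - Real.cos (γ i * (u + h))))) := by
    rw [← tsum_mul_left (a := 2), ← (hs u).tsum_add (hs (u + 2 * h)),
      ← ((hs u).add (hs (u + 2 * h))).tsum_sub ((hs (u + h)).mul_left 2), ← tsum_mul_left]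
    unfold T2 bq
    refine tsum_congr fun i => ?_
    have hg := hZ.pos i
    have e1 : Real.cos (γ i * u) = Real.cos (γ i * (u + h)) * Real.cos (γ i * h) +
        Real.sin (γ i * (u + h)) * Real.sin (γ i * h) := by
      rw [← Real.cos_sub]
      congr 1
      ring
    have e2 : Real.cos (γ i * (u + 2 * h)) = Real.cos (γ i * (u + h)) * Real.cos (γ i * h) -
        Real.sin (γ i * (u + h)) * Real.sin (γ i * h) := by
      rw [← Real.cos_add]
      congr 1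
      ring
    have e3 : Real.cos (γ i * h) = 1 - 2 * (Real.sin (γ i * h / 2)) ^ 2 := by
      have e4 := Real.cos_sq' (γ i * h / 2)
      have e5 := Real.cos_two_mul (γ i * h / 2)
      have e6 : 2 * (γ i * h / 2) = γ i * h := by ring
      rw [e6] at e5
      linarith
    rw [e1, e2, e3]
    field_simp
    ring
  rw [h0]
  unfold Mn
  rw [QDiff_Ioc A hA u h hu hh.le, QDiff_Ioc A hA u (2 * h) hu (by linarith),
    hI u hu, hI (u + h) (by linarith), hI (u + 2 * h) (by linarith)]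
  generalize (∑' i, 2 * m i / (γ i) ^ 2 * (1 - Real.cos (γ i * u))) = a
  generalize (∑' i, 2 * m i / (γ i) ^ 2 * (1 - Real.cos (γ i * (u + h)))) = b
  generalize (∑' i, 2 * m i / (γ i) ^ 2 * (1 - Real.cos (γ i * (u + 2 * h)))) = c
  field_simp
  ring

/-- `|Mn 1 u| ≤ C`. -/
theorem Mn_one (hZ : ZD γ m) (A : ℝ → ℝ) (hA : EF γ m A) : ∃ C : ℝ, 0 ≤ C ∧ ∀ u : ℝ, 0 ≤ u →
    |Mn A 1 u| ≤ C := by
  obtain ⟨c3, hI⟩ := I_eq A hA
  have hS0 : ∀ v, 0 ≤ ∑' i, 2 * m i / (γ i) ^ 2 * (1 - Real.cos (γ i * v)) := fun v =>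
    tsum_nonneg fun i => by
      have h1 := hZ.pos i
      have h2 := hZ.one i
      have h3 := Real.cos_le_one (γ i * v)
      have h4 : 0 ≤ 1 - Real.cos (γ i * v) := by linarith
      positivity
  have hS1 : ∀ v, ∑' i, 2 * m i / (γ i) ^ 2 * (1 - Real.cos (γ i * v)) ≤
      4 * ∑' i, m i / (γ i) ^ 2 := fun v => by
    rw [← tsum_mul_left]
    refine (QDiff_sm hZ v).tsum_le_tsum (fun i => ?_) (hZ.sm.mul_left 4)
    have h1 := hZ.pos i
    have h2 := hZ.one i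
    have h3 := Real.neg_one_le_cos (γ i * v)
    have h4 : 0 ≤ 2 * m i / (γ i) ^ 2 := by positivity
    have h5 : 2 * m i / (γ i) ^ 2 * (1 - Real.cos (γ i * v)) ≤ 2 * m i / (γ i) ^ 2 * 2 :=
      mul_le_mul_of_nonneg_left (by linarith) h4
    refine h5.trans (le_of_eq ?_)
    ring
  have hS2 : 0 ≤ ∑' i, m i / (γ i) ^ 2 := tsum_nonneg fun i => by
    have h1 := hZ.pos i
    have h2 := hZ.one i
    positivity
  refine ⟨4 * (∑' i, m i / (γ i) ^ 2) + |c3|, by positivity, fun u hu => ?_⟩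
  unfold Mn
  rw [QDiff_Ioc A hA u 1 hu zero_le_one, hI u hu, hI (u + 1) (by linarith)]
  have a1 := hS0 u
  have a2 := hS0 (u + 1)
  have a3 := hS1 u
  have a4 := hS1 (u + 1)
  have a5 := le_abs_self c3
  have a6 := neg_abs_le c3
  rw [abs_le]
  constructor
  · nlinarith
  · nlinarith

end W3283q
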