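import Pool.Agent.W_3283e1_h19.QConc
import Pool.Agent.W_3283e1_h19.QLc
import Pool.Agent.W_3283e1_h19.QVar

set_option autoImplicit false

namespace W3283q

open Complex W3283e1 W3283f W3283l MeasureTheory Filter Topology

theorem QFin_floor (a b : ℤ) (x : ℝ) : bsdProd a b x = bsdProd a b ((⌊x⌋₊ : ℕ) : ℝ) := by
  unfold bsdProd
  rw [Nat.floor_natCast]

/-- The difference of the two functions is bounded on bounded sets. -/
theorem QFin_bd (a b : ℤ) (C : ℝ) (hC : 0 < C) (r : ℕ) (α : ℕ → ℂ)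
    (hα : ∀ p : ℕ, p.Prime → p ≠ 2 → ‖α p‖ ^ 2 = p) (κ0 B : ℝ) :
    ∃ M : ℝ, 0 ≤ M ∧ ∀ u : ℝ, 0 < u → u < B →
      |Real.log (bsdProd a b (Real.exp u) / (C * u ^ r)) - W3283g.er α κ0 r u| ≤ M := by
  refine ⟨(∑ N ∈ Finset.range (⌊Real.exp B⌋₊ + 1), |Real.log (bsdProd a b (N : ℝ))|) +
    |Real.log C| + 14 * Real.sqrt (Real.exp B) + |κ0|, by positivity, ?_⟩
  intro u hu huB
  have h1 : Real.log (bsdProd a b (Real.exp u) / (C * u ^ r)) - W3283g.er α κ0 r u =
      Real.log (bsdProd a b (Real.exp u)) - Real.log C - AA α (Real.exp u) + κ0 := by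
    have h2 : C * u ^ r ≠ 0 := by positivity
    rw [Real.log_div (W3283g.bsd_pos a b _).ne' h2, Real.log_mul hC.ne' (by positivity),
      Real.log_pow]
    unfold W3283g.er
    ring
  rw [h1]
  have h2 : |Real.log (bsdProd a b (Real.exp u))| ≤
      ∑ N ∈ Finset.range (⌊Real.exp B⌋₊ + 1), |Real.log (bsdProd a b (N : ℝ))| := by
    rw [QFin_floor]
    have h3 : ⌊Real.exp u⌋₊ ∈ Finset.range (⌊Real.exp B⌋₊ + 1) := by
      rw [Finset.mem_range, Nat.lt_succ_iff]
      exact Nat.floor_le_floor (Real.exp_le_exp.2 huB.le)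
    exact Finset.single_le_sum (f := fun N : ℕ => |Real.log (bsdProd a b (N : ℝ))|)
      (fun _ _ => abs_nonneg _) h3
  have h3 : |AA α (Real.exp u)| ≤ 14 * Real.sqrt (Real.exp B) := by
    refine (abs_AA_le α hα _ (Real.exp_pos u).le).trans ?_
    have := Real.sqrt_le_sqrt (Real.exp_le_exp.2 huB.le)
    linarith
  calc |Real.log (bsdProd a b (Real.exp u)) - Real.log C - AA α (Real.exp u) + κ0|
      ≤ |Real.log (bsdProd a b (Real.exp u)) - Real.log C - AA α (Real.exp u)| + |κ0| :=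
        abs_add_le _ _
    _ ≤ |Real.log (bsdProd a b (Real.exp u)) - Real.log C| + |AA α (Real.exp u)| + |κ0| := by
        have := abs_sub (Real.log (bsdProd a b (Real.exp u)) - Real.log C) (AA α (Real.exp u))
        linarith
    _ ≤ |Real.log (bsdProd a b (Real.exp u))| + |Real.log C| + |AA α (Real.exp u)| + |κ0| := by
        have := abs_sub (Real.log (bsdProd a b (Real.exp u))) (Real.log C)
        linarith
    _ ≤ _ := by linarith

/-- Concentration under the Riemann hypothesis, for every unit interval: `conc` with `zd_fam`, `lc_fam`,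
`er_AF` (`|u er(u) - AF u| ≤ C`), `h.hP` for `e^u ≥ k`, `u > 0`; for `1 ≤ u ≤ log k + 1` the function
`u |log R(e^u)|` is bounded (`W3283g.FinH1_bd` or directly), so enlarge `K`. -/
theorem rh_conc (k : ℕ) (c : ℤ) (n f i j : ℕ) (L : ℂ → ℂ) (r : ℕ) (l V : ℝ)
    (h : W3283g.SU k c n f i j L r l V) (hRH : ∀ s : ℂ, 1 < s.re → L s ≠ 0) :
    ∃ c0 K : ℝ, 0 < c0 ∧ 0 < K ∧ ∀ U W : ℝ, 1 ≤ U → 0 ≤ W →
      volume {u ∈ Set.Icc U (U + 1) |
        W < |u * Real.log (bsdProd (c * k ^ 2) 0 (Real.exp u) / (CG r l * u ^ r))|} ≤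
          ENNReal.ofReal (K * Real.exp (-(c0 * Real.sqrt W))) := by
  have hRH' := rh_LLF k c n f i j L r l V h hRH
  have hlV : l / V ≠ 0 := div_ne_zero h.hl h.hV.ne'
  obtain ⟨hEF, C, hC⟩ := er_AF n j h.hj h.hn h.hs r (l / V) hlV h.hlim' hRH'
  have hZ := zd_fam n j h.hj h.hn h.hs hRH'
  have hLc := lc_fam n j h.hj h.hn h.hs hRH'
  have hα : ∀ p : ℕ, p.Prime → p ≠ 2 → ‖alF n j p‖ ^ 2 = p :=
    (dataF_fam n j h.hj h.hn h.hs).norm_α
  obtain ⟨c0, K, hc0, hK, hcon⟩ := conc hZ hLc (AF n j r) hEF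
  obtain ⟨M, hM0, hM⟩ := QFin_bd (c * k ^ 2) 0 (CG r l) (CG_pos r l h.hl) r (alF n j) hα
    (lGold (l / V) r) (Real.log k + 2)
  have hlk : 0 ≤ Real.log k := Real.log_natCast_nonneg k
  have hD : ∃ D : ℝ, 0 ≤ D ∧ ∀ u : ℝ, 1 ≤ u →
      |u * Real.log (bsdProd (c * k ^ 2) 0 (Real.exp u) / (CG r l * u ^ r)) - AF n j r u| ≤ D := by
    have hC0 : 0 ≤ C := (abs_nonneg _).trans (hC 1 le_rfl)
    refine ⟨C + (Real.log k + 2) * M, by positivity, fun u hu => ?_⟩
    have hu0 : 0 < u := by linarith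
    have h1 : |u * Real.log (bsdProd (c * k ^ 2) 0 (Real.exp u) / (CG r l * u ^ r)) -
        u * W3283g.er (alF n j) (lGold (l / V) r) r u| ≤ (Real.log k + 2) * M := by
      rw [← mul_sub, abs_mul, abs_of_pos hu0]
      rcases lt_or_ge u (Real.log k + 2) with h2 | h2
      · exact mul_le_mul h2.le (hM u hu0 h2) (abs_nonneg _) (by linarith)
      · have h3 : Real.log (bsdProd (c * k ^ 2) 0 (Real.exp u) / (CG r l * u ^ r)) =
            W3283g.er (alF n j) (lGold (l / V) r) r u := by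
          have h4 := P_er k c n f i j L r l V h u hu0 (by linarith)
          have h5 : 0 < CG r l * u ^ r := mul_pos (CG_pos r l h.hl) (pow_pos hu0 r)
          rw [h4, mul_div_cancel_left₀ _ h5.ne', Real.log_exp]
        rw [h3, sub_self, abs_zero, mul_zero]
        positivity
    have h2 := hC u hu
    have h3 : u * Real.log (bsdProd (c * k ^ 2) 0 (Real.exp u) / (CG r l * u ^ r)) - AF n j r u =
        (u * W3283g.er (alF n j) (lGold (l / V) r) r u - AF n j r u) +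
        (u * Real.log (bsdProd (c * k ^ 2) 0 (Real.exp u) / (CG r l * u ^ r)) -
          u * W3283g.er (alF n j) (lGold (l / V) r) r u) := by ring
    rw [h3]
    exact (abs_add_le _ _).trans (add_le_add h2 h1)
  obtain ⟨D, hD0, hD⟩ := hD
  refine ⟨c0, (K + 1) * Real.exp (c0 * Real.sqrt D), hc0, by positivity, fun U W hU hW => ?_⟩
  rcases le_or_gt W D with hWD | hWD
  · have h0 : volume {u ∈ Set.Icc U (U + 1) |
        W < |u * Real.log (bsdProd (c * k ^ 2) 0 (Real.exp u) / (CG r l * u ^ r))|} ≤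
        volume (Set.Icc U (U + 1)) := measure_mono (fun u hu => hu.1)
    refine h0.trans ?_
    rw [Real.volume_Icc]
    apply ENNReal.ofReal_le_ofReal
    rw [mul_assoc, ← Real.exp_add]
    have h1 : 0 ≤ c0 * Real.sqrt D + -(c0 * Real.sqrt W) := by
      have := mul_le_mul_of_nonneg_left (Real.sqrt_le_sqrt hWD) hc0.le
      linarith
    have h2 := Real.one_le_exp h1
    nlinarith
  · have h0 : volume {u ∈ Set.Icc U (U + 1) |
        W < |u * Real.log (bsdProd (c * k ^ 2) 0 (Real.exp u) / (CG r l * u ^ r))|} ≤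
        volume {u ∈ Set.Icc U (U + 1) | W - D < |AF n j r u|} := by
      apply measure_mono
      intro u hu
      refine ⟨hu.1, ?_⟩
      have h1 := hD u (hU.trans hu.1.1)
      have h2 := abs_sub_abs_le_abs_sub
        (u * Real.log (bsdProd (c * k ^ 2) 0 (Real.exp u) / (CG r l * u ^ r))) (AF n j r u)
      have h3 : W < |u * Real.log (bsdProd (c * k ^ 2) 0 (Real.exp u) / (CG r l * u ^ r))| := hu.2
      linarith
    refine h0.trans ((hcon U (W - D) hU (by linarith)).trans ?_)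
    apply ENNReal.ofReal_le_ofReal
    have h1 : Real.sqrt W ≤ Real.sqrt (W - D) + Real.sqrt D := by
      rw [Real.sqrt_le_iff]
      refine ⟨by positivity, ?_⟩
      have h3 := Real.sq_sqrt (show 0 ≤ W - D by linarith)
      have h4 := Real.sq_sqrt hD0
      have h5 : 0 ≤ Real.sqrt (W - D) * Real.sqrt D := by positivity
      nlinarith
    rw [mul_assoc, ← Real.exp_add]
    refine mul_le_mul (by linarith) (Real.exp_le_exp.2 ?_) (Real.exp_pos _).le (by linarith)
    have h2 := mul_le_mul_of_nonneg_left h1 hc0.le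
    linarith

/-- The pointwise bound: `er_sup` with `δ` between `1/(4π)` and `1/12` (`3 < π`), `P_er`;
`r log u + |log C| ≤ (1/12 - δ) u` for large `u`. -/
theorem rh_bound (k : ℕ) (c : ℤ) (n f i j : ℕ) (L : ℂ → ℂ) (r : ℕ) (l V : ℝ)
    (h : W3283g.SU k c n f i j L r l V) (hRH : ∀ s : ℂ, 1 < s.re → L s ≠ 0) :
    ∃ X : ℝ, ∀ x : ℝ, X ≤ x →
      x ^ (-(1 / 12 : ℝ)) ≤ bsdProd (c * k ^ 2) 0 x ∧ bsdProd (c * k ^ 2) 0 x ≤ x ^ (1 / 12 : ℝ) := by
  have hRH' := rh_LLF k c n f i j L r l V h hRH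
  have hlV : l / V ≠ 0 := div_ne_zero h.hl h.hV.ne'
  obtain ⟨hEF, C, hC⟩ := er_AF n j h.hj h.hn h.hs r (l / V) hlV h.hlim' hRH'
  have hZ := zd_fam n j h.hj h.hn h.hs hRH'
  have hα : ∀ p : ℕ, p.Prime → p ≠ 2 → ‖alF n j p‖ ^ 2 = p :=
    (dataF_fam n j h.hj h.hn h.hs).norm_α
  have hpi : 1 / (4 * Real.pi) < 1 / 12 := by
    apply one_div_lt_one_div_of_lt (by norm_num)
    linarith [Real.pi_gt_three]
  obtain ⟨δ, hδ1, hδ2⟩ := exists_between hpi
  obtain ⟨u0, hu0⟩ := er_sup hZ (AF n j r) hEF (alF n j) hα (lGold (l / V) r) r C hC δ hδ1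
  have hev : ∃ u1 : ℝ, ∀ u : ℝ, u1 ≤ u →
      r * Real.log u + |Real.log (CG r l)| ≤ (1 / 12 - δ) * u ∧ 1 ≤ u := by
    have hε : 0 < (1 / 12 - δ) / (2 * ((r : ℝ) + 1)) := by
      have : 0 < 1 / 12 - δ := by linarith
      positivity
    have h1 : ∀ᶠ x : ℝ in atTop, ‖Real.log x‖ ≤ (1 / 12 - δ) / (2 * ((r : ℝ) + 1)) * ‖x‖ :=
      Real.isLittleO_log_id_atTop.bound hε
    obtain ⟨X, hX⟩ := eventually_atTop.1 (h1.and ((eventually_ge_atTop (1 : ℝ)).and
      (eventually_ge_atTop (|Real.log (CG r l)| / ((1 / 12 - δ) / 2)))))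
    refine ⟨X, fun u hu => ?_⟩
    obtain ⟨h2, h3, h4⟩ := hX u hu
    refine ⟨?_, h3⟩
    have h5 : 0 ≤ Real.log u := Real.log_nonneg h3
    rw [Real.norm_of_nonneg h5, Real.norm_of_nonneg (by linarith)] at h2
    have h6 : (r : ℝ) * Real.log u ≤ (1 / 12 - δ) / 2 * u := by
      have hr : (0 : ℝ) ≤ r := Nat.cast_nonneg r
      calc (r : ℝ) * Real.log u ≤ ((r : ℝ) + 1) * Real.log u := by nlinarith
        _ ≤ ((r : ℝ) + 1) * ((1 / 12 - δ) / (2 * ((r : ℝ) + 1)) * u) :=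
            mul_le_mul_of_nonneg_left h2 (by linarith)
        _ = (1 / 12 - δ) / 2 * u := by field_simp
    rw [div_le_iff₀ (by linarith)] at h4
    linarith
  obtain ⟨u1, hu1⟩ := hev
  refine ⟨Real.exp (max (max u0 u1) (Real.log k)), fun x hx => ?_⟩
  have hx0 : 0 < x := (Real.exp_pos _).trans_le hx
  have hu : max (max u0 u1) (Real.log k) ≤ Real.log x := (Real.le_log_iff_exp_le hx0).2 hx
  obtain ⟨u, rfl⟩ : ∃ u : ℝ, x = Real.exp u := ⟨Real.log x, (Real.exp_log hx0).symm⟩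
  rw [Real.log_exp] at hu
  have h1 : u0 ≤ u := ((le_max_left _ _).trans (le_max_left _ _)).trans hu
  have h2 : u1 ≤ u := ((le_max_right _ _).trans (le_max_left _ _)).trans hu
  have h3 : Real.log k ≤ u := (le_max_right _ _).trans hu
  obtain ⟨h4, h5⟩ := hu1 u h2
  have hupos : 0 < u := by linarith
  have h6 := abs_le.1 (hu0 u h1)
  have h7 := abs_le.1 (le_refl |Real.log (CG r l)|)
  have h8 : 0 ≤ (r : ℝ) * Real.log u := mul_nonneg (Nat.cast_nonneg r) (Real.log_nonneg h5)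
  have hP' : bsdProd (c * k ^ 2) 0 (Real.exp u) =
      Real.exp (Real.log (CG r l) + r * Real.log u +
        W3283g.er (alF n j) (lGold (l / V) r) r u) := by
    rw [P_er k c n f i j L r l V h u hupos h3, Real.exp_add, Real.exp_add,
      Real.exp_log (CG_pos r l h.hl), mul_comm (r : ℝ), ← Real.rpow_def_of_pos hupos,
      Real.rpow_natCast]
  rw [hP', Real.rpow_def_of_pos hx0, Real.rpow_def_of_pos hx0, Real.log_exp]
  constructor
  · apply Real.exp_le_exp.2
    linarith [h6.1, h7.1]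
  · apply Real.exp_le_exp.2
    linarith [h6.2, h7.2]

end W3283q
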