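import Pool.Agent.W_3283e1_h19.QBq

set_option autoImplicit false

namespace W3283q

open W3283l MeasureTheory

variable {ι : Type} {γ m : ι → ℝ}

theorem QSch_log (x Y : ℝ) (hY : 1 ≤ Y) (hx : Y ≤ x) :
    Real.log (2 + x) * Y ^ 2 ≤ Real.log (2 + Y) * x ^ 2 := by
  have hY0 : 0 < Y := by linarith
  have hx0 : 0 < x := by linarith
  obtain ⟨r, hr⟩ : ∃ r, r = x / Y := ⟨_, rfl⟩
  have hr1 : 1 ≤ r := by
    rw [hr, le_div_iff₀ hY0]
    linarith
  have hxr : x = r * Y := by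
    rw [hr]
    field_simp
  have h1 : (1 : ℝ) ≤ Real.log (2 + Y) := by
    rw [Real.le_log_iff_exp_le (by linarith)]
    have := Real.exp_one_lt_d9
    linarith
  have h2 : Real.log (2 + x) ≤ Real.log (2 + Y) + (r - 1) := by
    have h3 : Real.log (2 + x) ≤ Real.log ((2 + Y) * r) := by
      apply Real.log_le_log (by linarith)
      rw [hxr]
      nlinarith
    rw [Real.log_mul (by linarith) (by linarith)] at h3
    have h4 := Real.log_le_sub_one_of_pos (show 0 < r by linarith)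
    linarith
  rw [hxr]
  have h5 : Real.log (2 + Y) + (r - 1) ≤ Real.log (2 + Y) * r ^ 2 := by
    nlinarith [mul_nonneg (by linarith : (0 : ℝ) ≤ r - 1) (by linarith : (0 : ℝ) ≤ r),
      mul_nonneg (by linarith : (0 : ℝ) ≤ Real.log (2 + Y) - 1)
        (mul_nonneg (by linarith : (0 : ℝ) ≤ r - 1) (by linarith : (0 : ℝ) ≤ r + 1))]
  calc Real.log (2 + r * Y) * Y ^ 2 ≤ (Real.log (2 + Y) + (r - 1)) * Y ^ 2 := by
        rw [← hxr]
        exact mul_le_mul_of_nonneg_right h2 (by positivity)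
    _ ≤ (Real.log (2 + Y) * r ^ 2) * Y ^ 2 := mul_le_mul_of_nonneg_right h5 (by positivity)
    _ = Real.log (2 + Y) * (r * Y) ^ 2 := by ring

theorem QSch_log3 (Y : ℝ) (hY : 1 ≤ Y) : Real.log (2 + Y) ≤ 2 * (1 + Real.log Y) := by
  have h1 : Real.log (2 + Y) ≤ Real.log (3 * Y) := Real.log_le_log (by linarith) (by linarith)
  rw [Real.log_mul (by norm_num) (by linarith)] at h1
  have h2 := Real.log_le_sub_one_of_pos (show (0 : ℝ) < 3 by norm_num)
  have h3 := Real.log_nonneg hY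
  linarith

theorem QSch_pair (a b p q : ℝ) (hp : 0 < p) (hq : 0 < q) :
    a * b ≤ (a ^ 2 / p * q + b ^ 2 / q * p) / 2 := by
  have h1 : (a ^ 2 / p * q + b ^ 2 / q * p) / 2 - a * b = (a * q - b * p) ^ 2 / (2 * p * q) := by
    field_simp
    ring
  have h2 : 0 ≤ (a * q - b * p) ^ 2 / (2 * p * q) := by positivity
  linarith

theorem QSch_exp (x : ℝ) : Real.exp (-x ^ 2 / 4) ≤ 4 / (1 + x ^ 2) := by
  have h1 : 1 + x ^ 2 / 4 ≤ Real.exp (x ^ 2 / 4) := by
    have := Real.add_one_le_exp (x ^ 2 / 4)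
    linarith
  have h2 : Real.exp (-x ^ 2 / 4) = (Real.exp (x ^ 2 / 4))⁻¹ := by
    rw [← Real.exp_neg]
    congr 1
    ring
  rw [h2, inv_le_comm₀ (Real.exp_pos _) (by positivity)]
  refine le_trans ?_ h1
  rw [inv_div]
  linarith [sq_nonneg x]

/-- `Σ m β² log (2+γ)` with `β = bq/m ≤ min (h, 4/(h γ²))`: for `γ ≤ Y = 1/h` the sum is at most
`h² log (2+Y) Y (log Y + C)`, for `γ > Y` it is at most `(16/h²) (log (2+Y)/Y²) Σ_{γ>Y} m/γ²`
(`log (2+x)/x²` is decreasing). -/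
theorem bq_sq (hZ : ZD γ m) : ∃ C : ℝ, 0 ≤ C ∧ ∀ h : ℝ, 0 < h → h ≤ 1 → ∀ s : Finset ι,
    ∑ i ∈ s, (bq γ m h i) ^ 2 / m i * Real.log (2 + γ i) ≤ C * (h * (1 + Real.log (1 / h)) ^ 2) := by
  classical
  obtain ⟨C, hC, hcnt⟩ := cnt hZ
  refine ⟨40 * (1 + C), by positivity, fun h hh hh1 s => ?_⟩
  set Y : ℝ := 1 / h with hY
  have hY1 : 1 ≤ Y := by
    rw [hY, le_div_iff₀ hh]
    linarith
  have hY0 : 0 < Y := by linarith
  have hhY : h * Y = 1 := by
    rw [hY]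
    field_simp
  obtain ⟨h1, h2⟩ := hcnt Y hY1
  have hL : 0 ≤ Real.log Y := Real.log_nonneg hY1
  have hlog0 : 0 ≤ Real.log (2 + Y) := Real.log_nonneg (by linarith)
  have hlog2 := QSch_log3 Y hY1
  have hterm : ∀ i, 0 ≤ (if γ i ≤ Y then 0 else m i / (γ i) ^ 2) ∧
      (if γ i ≤ Y then 0 else m i / (γ i) ^ 2) ≤ m i / (γ i) ^ 2 := by
    intro i
    have hg := hZ.pos i
    have hm := hZ.one i
    have : 0 ≤ m i / (γ i) ^ 2 := by positivity
    split_ifs
    · exact ⟨le_rfl, this⟩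
    · exact ⟨this, le_rfl⟩
  have hsm : Summable (fun i => if γ i ≤ Y then 0 else m i / (γ i) ^ 2) :=
    Summable.of_nonneg_of_le (fun i => (hterm i).1) (fun i => (hterm i).2) hZ.sm
  have h3 : ∑ i ∈ s, (bq γ m h i) ^ 2 / m i * Real.log (2 + γ i) ≤
      ∑ i ∈ s.filter (fun i => γ i ≤ Y), h ^ 2 * Real.log (2 + Y) * m i +
      ∑ i ∈ s, 16 * Real.log (2 + Y) * (if γ i ≤ Y then 0 else m i / (γ i) ^ 2) := by
    rw [Finset.sum_filter, ← Finset.sum_add_distrib]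
    refine Finset.sum_le_sum fun i _ => ?_
    have hg := hZ.pos i
    have hm := hZ.one i
    have hm0 : 0 < m i := by linarith
    obtain ⟨b0, b1, b2⟩ := bq_bd hZ h hh i
    have hlg : 0 ≤ Real.log (2 + γ i) := Real.log_nonneg (by linarith)
    by_cases hi : γ i ≤ Y
    · rw [if_pos hi, if_pos hi, mul_zero, add_zero]
      have e1 : (bq γ m h i) ^ 2 / m i ≤ h ^ 2 * m i := by
        rw [div_le_iff₀ hm0]
        have := pow_le_pow_left₀ b0 b1 2
        calc (bq γ m h i) ^ 2 ≤ (m i * h) ^ 2 := this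
          _ = h ^ 2 * m i * m i := by ring
      have e2 : Real.log (2 + γ i) ≤ Real.log (2 + Y) :=
        Real.log_le_log (by linarith) (by linarith)
      calc (bq γ m h i) ^ 2 / m i * Real.log (2 + γ i) ≤ h ^ 2 * m i * Real.log (2 + Y) :=
            mul_le_mul e1 e2 hlg (by positivity)
        _ = h ^ 2 * Real.log (2 + Y) * m i := by ring
    · rw [if_neg hi, if_neg hi, zero_add]
      push Not at hi
      have e1 : (bq γ m h i) ^ 2 / m i ≤ 16 * Y ^ 2 * (m i / (γ i) ^ 4) := by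
        rw [div_le_iff₀ hm0]
        have := pow_le_pow_left₀ b0 b2 2
        calc (bq γ m h i) ^ 2 ≤ (4 * m i / (h * (γ i) ^ 2)) ^ 2 := this
          _ = 16 * Y ^ 2 * (m i / (γ i) ^ 4) * m i := by
            rw [hY]
            field_simp
            ring
      have e2 := QSch_log (γ i) Y hY1 hi.le
      calc (bq γ m h i) ^ 2 / m i * Real.log (2 + γ i) ≤
            16 * Y ^ 2 * (m i / (γ i) ^ 4) * Real.log (2 + γ i) :=
            mul_le_mul_of_nonneg_right e1 hlg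
        _ = 16 * (m i / (γ i) ^ 4) * (Real.log (2 + γ i) * Y ^ 2) := by ring
        _ ≤ 16 * (m i / (γ i) ^ 4) * (Real.log (2 + Y) * (γ i) ^ 2) :=
            mul_le_mul_of_nonneg_left e2 (by positivity)
        _ = 16 * Real.log (2 + Y) * (m i / (γ i) ^ 2) := by
            field_simp
  have h6 : ∑ i ∈ s.filter (fun i => γ i ≤ Y), h ^ 2 * Real.log (2 + Y) * m i ≤
      h * Real.log (2 + Y) * (Real.log Y + C) := by
    rw [← Finset.mul_sum]
    have h7 := (h1 (s.filter (fun i => γ i ≤ Y)) fun i hi => (Finset.mem_filter.1 hi).2).1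
    calc h ^ 2 * Real.log (2 + Y) * ∑ i ∈ s.filter (fun i => γ i ≤ Y), m i ≤
          h ^ 2 * Real.log (2 + Y) * (Y * (Real.log Y + C)) :=
          mul_le_mul_of_nonneg_left h7 (by positivity)
      _ = (h * Y) * (h * Real.log (2 + Y) * (Real.log Y + C)) := by ring
      _ = h * Real.log (2 + Y) * (Real.log Y + C) := by rw [hhY, one_mul]
  have h8 : ∑ i ∈ s, 16 * Real.log (2 + Y) * (if γ i ≤ Y then 0 else m i / (γ i) ^ 2) ≤
      16 * (h * Real.log (2 + Y) * (Real.log Y + C)) := by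
    rw [← Finset.mul_sum]
    have h9 := (hsm.sum_le_tsum s fun i _ => (hterm i).1).trans h2
    calc 16 * Real.log (2 + Y) * ∑ i ∈ s, (if γ i ≤ Y then 0 else m i / (γ i) ^ 2) ≤
          16 * Real.log (2 + Y) * ((Real.log Y + C) / Y) :=
          mul_le_mul_of_nonneg_left h9 (by positivity)
      _ = 16 * (h * Real.log (2 + Y) * (Real.log Y + C)) := by
          have : (Real.log Y + C) / Y = h * (Real.log Y + C) := by
            rw [div_eq_iff hY0.ne']
            calc Real.log Y + C = (h * Y) * (Real.log Y + C) := by rw [hhY, one_mul]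
              _ = h * (Real.log Y + C) * Y := by ring
          rw [this]
          ring
  have h10 : h * Real.log (2 + Y) * (Real.log Y + C) ≤
      2 * (1 + C) * (h * (1 + Real.log Y) ^ 2) := by
    have e1 : Real.log Y + C ≤ (1 + C) * (1 + Real.log Y) := by nlinarith [mul_nonneg hC hL]
    calc h * Real.log (2 + Y) * (Real.log Y + C) ≤
          h * (2 * (1 + Real.log Y)) * ((1 + C) * (1 + Real.log Y)) := by
          refine mul_le_mul ?_ e1 (by positivity) (by positivity)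
          exact mul_le_mul_of_nonneg_left hlog2 hh.le
      _ = 2 * (1 + C) * (h * (1 + Real.log Y) ^ 2) := by ring
  have h11 : 0 ≤ (1 + C) * (h * (1 + Real.log Y) ^ 2) := by positivity
  linarith

/-- Schur test: `b_i b_k ≤ (b_i²/m_i · m_k + b_k²/m_k · m_i)/2` and
`exp (-x²/4) ≤ 4/(1+x²)`, `LC`. -/
theorem bq_schur (hZ : ZD γ m) (hL : LC γ m) : ∃ C : ℝ, 0 ≤ C ∧ ∀ h : ℝ, 0 < h → h ≤ 1 →
    ∀ s : Finset ι, ∑ i ∈ s, ∑ k ∈ s, bq γ m h i * bq γ m h k *
      Real.exp (-(γ i - γ k) ^ 2 / 4) ≤ C * (h * (1 + Real.log (1 / h)) ^ 2) := by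
  obtain ⟨C, hC, hsq⟩ := bq_sq hZ
  obtain ⟨K, hK, hl⟩ := hL
  refine ⟨4 * K * C, by positivity, fun h hh hh1 s => ?_⟩
  have h1 : ∀ i ∈ s, ∀ k ∈ s, bq γ m h i * bq γ m h k * Real.exp (-(γ i - γ k) ^ 2 / 4) ≤
      (2 * ((bq γ m h i) ^ 2 / m i)) * (m k / (1 + (γ i - γ k) ^ 2)) +
      (2 * ((bq γ m h k) ^ 2 / m k)) * (m i / (1 + (γ k - γ i) ^ 2)) := by
    intro i _ k _
    have hmi : 0 < m i := by linarith [hZ.one i]
    have hmk : 0 < m k := by linarith [hZ.one k]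
    have e1 := QSch_pair (bq γ m h i) (bq γ m h k) (m i) (m k) hmi hmk
    have e2 := QSch_exp (γ i - γ k)
    have e3 : 0 ≤ ((bq γ m h i) ^ 2 / m i * m k + (bq γ m h k) ^ 2 / m k * m i) / 2 := by
      positivity
    have e4 : (γ k - γ i) ^ 2 = (γ i - γ k) ^ 2 := by ring
    rw [e4]
    calc bq γ m h i * bq γ m h k * Real.exp (-(γ i - γ k) ^ 2 / 4) ≤
          ((bq γ m h i) ^ 2 / m i * m k + (bq γ m h k) ^ 2 / m k * m i) / 2 *
            (4 / (1 + (γ i - γ k) ^ 2)) :=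
          mul_le_mul e1 e2 (Real.exp_pos _).le e3
      _ = _ := by
          field_simp
          ring
  have h2 : ∑ i ∈ s, ∑ k ∈ s, (2 * ((bq γ m h i) ^ 2 / m i)) * (m k / (1 + (γ i - γ k) ^ 2)) ≤
      2 * K * (C * (h * (1 + Real.log (1 / h)) ^ 2)) := by
    have e1 : ∀ i ∈ s, ∑ k ∈ s, (2 * ((bq γ m h i) ^ 2 / m i)) *
        (m k / (1 + (γ i - γ k) ^ 2)) ≤
        2 * K * ((bq γ m h i) ^ 2 / m i * Real.log (2 + γ i)) := by
      intro i _
      have hmi : 0 < m i := by linarith [hZ.one i]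
      rw [← Finset.mul_sum]
      calc (2 * ((bq γ m h i) ^ 2 / m i)) * ∑ k ∈ s, m k / (1 + (γ i - γ k) ^ 2) ≤
            (2 * ((bq γ m h i) ^ 2 / m i)) * (K * Real.log (2 + γ i)) :=
            mul_le_mul_of_nonneg_left (hl (γ i) (hZ.pos i).le s) (by positivity)
        _ = _ := by ring
    refine (Finset.sum_le_sum e1).trans ?_
    rw [← Finset.mul_sum]
    exact mul_le_mul_of_nonneg_left (hsq h hh hh1 s) (by positivity)
  calc ∑ i ∈ s, ∑ k ∈ s, bq γ m h i * bq γ m h k * Real.exp (-(γ i - γ k) ^ 2 / 4) ≤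
        ∑ i ∈ s, ∑ k ∈ s, ((2 * ((bq γ m h i) ^ 2 / m i)) * (m k / (1 + (γ i - γ k) ^ 2)) +
          (2 * ((bq γ m h k) ^ 2 / m k)) * (m i / (1 + (γ k - γ i) ^ 2))) :=
        Finset.sum_le_sum fun i hi => Finset.sum_le_sum fun k hk => h1 i hi k hk
    _ = ∑ i ∈ s, ∑ k ∈ s, (2 * ((bq γ m h i) ^ 2 / m i)) * (m k / (1 + (γ i - γ k) ^ 2)) +
        ∑ i ∈ s, ∑ k ∈ s, (2 * ((bq γ m h k) ^ 2 / m k)) * (m i / (1 + (γ k - γ i) ^ 2)) := by
        simp only [Finset.sum_add_distrib]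
    _ = ∑ i ∈ s, ∑ k ∈ s, (2 * ((bq γ m h i) ^ 2 / m i)) * (m k / (1 + (γ i - γ k) ^ 2)) +
        ∑ k ∈ s, ∑ i ∈ s, (2 * ((bq γ m h k) ^ 2 / m k)) * (m i / (1 + (γ k - γ i) ^ 2)) := by
        congr 1
        exact Finset.sum_comm
    _ ≤ 4 * K * C * (h * (1 + Real.log (1 / h)) ^ 2) := by linarith

end W3283q
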